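import Pool.Agent.Lon.CaseB

/-!
# The vectors
-/

set_option autoImplicit false
set_option linter.all false

namespace Pool.Agent.Lon

universe u

variable {n : ℕ} {V : Type u} [AddCommGroup V] [Module ℂ V]
  {l : Fin n → ℕ} {T : (Fin n → ℕ) → (Module.End ℂ V)ˣ}

/-- `T x - 1` -/
def N (T : (Fin n → ℕ) → (Module.End ℂ V)ˣ) (x : Fin n → ℕ) : Module.End ℂ V :=
  (T x : Module.End ℂ V) - 1

-- MODULE A1
private theorem A1_key (h : Nm l T) {x y : Fin n → ℕ} (hx : Ind l x) (hy : Ind l y)
    (hxy : Adj x y) :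
    N T x * N T y * N T x = - (N T x * (T x : Module.End ℂ V)) ∧
      N T y * N T x * N T y = - (N T y * (T y : Module.End ℂ V)) := by
  have hb := h.braid x y hx hy hxy
  have hb' : (T x : Module.End ℂ V) * (T y : Module.End ℂ V) * (T x : Module.End ℂ V)
      = (T y : Module.End ℂ V) * (T x : Module.End ℂ V) * (T y : Module.End ℂ V) := by
    have := congrArg (fun g : (Module.End ℂ V)ˣ => (g : Module.End ℂ V)) hb
    simpa using this
  have hTx : (T x : Module.End ℂ V) = 1 + N T x := by unfold N; abel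
  have hTy : (T y : Module.End ℂ V) = 1 + N T y := by unfold N; abel
  have e : N T x * (1 + N T x + N T y * N T x) = N T y * (1 + N T y + N T x * N T y) := by
    rw [hTx, hTy] at hb'
    have h1 : (1 + N T x) * (1 + N T y) * (1 + N T x)
        = N T x * (1 + N T x + N T y * N T x)
          + (1 + N T x + N T y + N T x * N T y + N T y * N T x) := by noncomm_ring
    have h2 : (1 + N T y) * (1 + N T x) * (1 + N T y)
        = N T y * (1 + N T y + N T x * N T y)
          + (1 + N T x + N T y + N T x * N T y + N T y * N T x) := by noncomm_ring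
    rw [h1, h2] at hb'
    exact add_right_cancel hb'
  have hd := caseB h hx hy hxy
  have z : N T x * (1 + N T x + N T y * N T x) = 0 := by
    refine LinearMap.ext fun u => ?_
    have m1 : (N T x * (1 + N T x + N T y * N T x)) u ∈ EE (T x) := ⟨_, rfl⟩
    have m2 : (N T x * (1 + N T x + N T y * N T x)) u ∈ EE (T y) := by
      rw [e]
      exact ⟨_, rfl⟩
    have m3 := hd.le_bot (Submodule.mem_inf.2 ⟨m1, m2⟩)
    simpa using m3
  have z' : N T y * (1 + N T y + N T x * N T y) = 0 := by rw [← e, z]
  constructor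
  · rw [hTx]
    have : N T x * N T y * N T x + N T x * (1 + N T x) = 0 := by
      rw [← z]; noncomm_ring
    exact eq_neg_of_add_eq_zero_left this
  · rw [hTy]
    have : N T y * N T x * N T y + N T y * (1 + N T y) = 0 := by
      rw [← z']; noncomm_ring
    exact eq_neg_of_add_eq_zero_left this

private theorem A1_comm (x : Fin n → ℕ) (v : V) :
    N T x ((T x : Module.End ℂ V) v) = (T x : Module.End ℂ V) (N T x v) := by
  simp [N]

/-- PROOF. Write a = N x, b = N y. The braid relation gives a (b a + a + 1) = b (a b + b + 1) (T = 1 + N). The left side has its range in EE (T x), the right side in EE (T y); they are disjoint (caseB), so both sides are 0: a b a = - a (1 + a) = - a T x, b a b = - b T y. For v = a z: a b v = a b a z = - a T x z = - T x v. (1).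
(2) T y (b v) = b (T x v): b a b v = - b T y v = - T y (b v), and b (a b v) = - b (T x v) by (1). -/
theorem rel_edge (h : Nm l T) {x y : Fin n → ℕ} (hx : Ind l x) (hy : Ind l y) (hxy : Adj x y)
    (v : V) (hv : v ∈ EE (T x)) :
    N T x (N T y v) = - (T x : Module.End ℂ V) v ∧
      (T y : Module.End ℂ V) (N T y v) = N T y ((T x : Module.End ℂ V) v) := by
  obtain ⟨k1, k2⟩ := A1_key h hx hy hxy
  obtain ⟨z, rfl⟩ := hv
  have e1 : N T x (N T y ((((T x : Module.End ℂ V) - 1) : Module.End ℂ V) z))
      = - (T x : Module.End ℂ V) ((((T x : Module.End ℂ V) - 1) : Module.End ℂ V) z) := by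
    have h1 := LinearMap.congr_fun k1 z
    simp only [Module.End.mul_apply, LinearMap.neg_apply] at h1
    have h2 := A1_comm (T := T) x z
    change N T x (N T y (N T x z)) = - (T x : Module.End ℂ V) (N T x z)
    rw [h1, h2]
  refine ⟨e1, ?_⟩
  set v := (((T x : Module.End ℂ V) - 1) : Module.End ℂ V) z with hvd
  have h3 := LinearMap.congr_fun k2 v
  simp only [Module.End.mul_apply, LinearMap.neg_apply] at h3
  rw [e1, map_neg, A1_comm (T := T) y v] at h3
  exact (neg_injective h3).symm

/-- PROOF. (z > y > x.) N2: NZ (T x) (T y T z (T y)⁻¹), commuting (Cyc), so T y T z (T y)⁻¹ v = v (NZ_fix), T z ((T y)⁻¹ v) = (T y)⁻¹ v, N z ((T y)⁻¹ v) = 0. T y (N y v) = q N y v (rel_edge (2), T x v = q v), so (T y)⁻¹ (N y v) = q⁻¹ N y v and (T y)⁻¹ v = v - (T y)⁻¹ (N y v) = v - q⁻¹ N y v (T y v = v + N y v). So N z v = q⁻¹ N z (N y v). -/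
theorem rel_tri (h : Nm l T) {x y z : Fin n → ℕ} (hx : Ind l x) (hy : Ind l y) (hz : Ind l z)
    (hxy : Lt x y) (hyz : Lt y z) (hxz : Lt x z) (q : ℂ) (hq : q ≠ 0) (v : V)
    (hv : v ∈ EE (T x)) (hqv : (T x : Module.End ℂ V) v = q • v) :
    N T z (N T y v) = q • N T z v := by
  obtain ⟨hz1, -, -⟩ := tri_pairs h hx hy hz hxy hyz hxz
  have hc : T x * (T y * T z * (T y)⁻¹) = T y * T z * (T y)⁻¹ * T x := h.tri x y z hx hy hz hxy hyz hxz
  have hf := NZ_fix hc hz1 v hv
  obtain ⟨-, h2⟩ := rel_edge h hx hy (Or.inl hxy) v hv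
  rw [hqv, map_smul] at h2
  have hinv : ∀ u : V, ((T y)⁻¹ : (Module.End ℂ V)ˣ).val ((T y : Module.End ℂ V) u) = u := by
    intro u
    have := LinearMap.congr_fun (Units.inv_mul (T y)) u
    exact this
  have hinv' : ∀ u : V, (T y : Module.End ℂ V) (((T y)⁻¹ : (Module.End ℂ V)ˣ).val u) = u := by
    intro u
    have := LinearMap.congr_fun (Units.mul_inv (T y)) u
    exact this
  set r := ((T y)⁻¹ : (Module.End ℂ V)ˣ).val v with hr
  -- `T z` fixes `r`
  have hzr : (T z : Module.End ℂ V) r = r := by
    have h3 : (T y : Module.End ℂ V) ((T z : Module.End ℂ V) r) = v := by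
      have h4 := hf
      simp only [Units.val_mul, Module.End.mul_apply] at h4
      exact h4
    have h5 := congrArg (((T y)⁻¹ : (Module.End ℂ V)ˣ).val) h3
    rw [hinv] at h5
    rw [h5]
  have hr2 : q • r = q • v - N T y v := by
    have h6 : (T y : Module.End ℂ V) v = v + N T y v := by simp [N]
    have h7 := congrArg (((T y)⁻¹ : (Module.End ℂ V)ˣ).val) h6
    rw [hinv, map_add] at h7
    have h8 := congrArg (((T y)⁻¹ : (Module.End ℂ V)ˣ).val) h2
    rw [hinv, map_smul] at h8
    rw [← hr] at h7
    have h9 : q • v = q • r + N T y v := by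
      rw [h8, ← smul_add, ← h7]
    rw [h9]; abel
  have h10 : N T z (q • r) = 0 := by
    rw [map_smul]
    have : N T z r = 0 := by simp [N, hzr]
    rw [this, smul_zero]
  rw [hr2, map_sub, map_smul] at h10
  exact (sub_eq_zero.1 h10).symm
-- END A1

-- MODULE A2
private theorem A2_one (h : Nm l T) (h0 : (T 0 : Module.End ℂ V) = 1) (x : Fin n → ℕ)
    (hx : Ind l x) : T x = 1 := by
  have hl : ∀ i, 0 < l i := fun i => by have := h.six i; omega
  have hI : ∀ y : Fin n → ℕ, Bx (0 : Fin n → ℕ) (fun i => l i - 1) y ↔ Ind l y := by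
    intro y
    constructor
    · intro hy i
      have h1 := (hy i).2
      have h2 := hl i
      simp only at h1
      omega
    · intro hy i
      have h1 := hy i
      refine ⟨Nat.zero_le _, ?_⟩
      show y i ≤ l i - 1
      omega
  have hst : ∀ a b : Fin n → ℕ, Ind l a → Ind l b → Adj a b → T a = 1 → T b = 1 := by
    intro a b ha hb hab h1
    have h2 := h.braid a b ha hb hab
    rw [h1, one_mul, mul_one] at h2
    exact mul_eq_left.1 h2.symm
  refine box_ind (0 : Fin n → ℕ) (fun i => l i - 1) (fun y => T y = 1) ?_ 0 x ?_ ?_ ?_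
  · intro y i hy hyi
    have h1 := (hI y).1 hy
    have h2 : Ind l (up y i) := by
      intro j
      by_cases hj : j = i
      · subst hj
        have h3 := hl j
        simp only [up, Function.update_self]
        omega
      · simp only [up, Function.update_of_ne hj]
        exact h1 j
    exact ⟨hst y (up y i) h1 h2 (Or.inl (Lt_up y i)), hst (up y i) y h2 h1 (Or.inr (Lt_up y i))⟩
  · exact (hI 0).2 hl
  · exact (hI x).2 hx
  · exact Units.ext h0

private theorem A2_bot (h : Nm l T) : EE (T 0) ≠ ⊥ := by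
  intro hb
  have h0 : (T 0 : Module.End ℂ V) = 1 := by
    unfold EE at hb
    rw [LinearMap.range_eq_bot] at hb
    exact sub_eq_zero.1 hb
  have h1 := A2_one h h0
  have hd := h.dim
  have : Nontrivial V := Module.nontrivial_of_finrank_pos (R := ℂ) (by omega)
  obtain ⟨v, hv⟩ := exists_ne (0 : V)
  rcases h.irr (Submodule.span ℂ {v}) (fun x hx w hw => by rw [h1 x hx]; simpa using hw) with h2 | h2
  · exact hv (Submodule.span_singleton_eq_bot.1 h2)
  · have h3 : Module.finrank ℂ (Submodule.span ℂ {v} : Submodule ℂ V) ≤ 1 := by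
      rw [finrank_span_singleton hv]
    rw [h2, finrank_top] at h3
    omega

/-- PROOF. N 0 ≠ 0 (otherwise R x y := .. all T x are 1: if N x = 0 and y is adjacent to x then N y = 0 by the braid relation T y T y = T y.. (T x = 1: T y = T y T y, so T y = 1), box_ind; then every line is stable, contradiction to dim ≥ 2). EE (T 0) ≠ ⊥ is stable under T 0, so (V finite dimensional) it contains an eigenvector (Module.End.exists_eigenvalue for the restriction); the eigenvalue is not 0 as T 0 is invertible. -/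
theorem exists_start (h : Nm l T) : ∃ (q : ℂ) (v : V), q ≠ 0 ∧ v ≠ 0 ∧ v ∈ EE (T 0) ∧
    (T 0 : Module.End ℂ V) v = q • v := by
  have hd := h.dim
  have hfin : Module.Finite ℂ V := Module.finite_of_finrank_pos (by omega)
  have hst : ∀ w ∈ EE (T 0), (T 0 : Module.End ℂ V) w ∈ EE (T 0) := by
    rintro w ⟨u, rfl⟩
    exact ⟨(T 0 : Module.End ℂ V) u, by simp⟩
  have hnt : Nontrivial (EE (T 0) : Submodule ℂ V) :=
    Submodule.nontrivial_iff_ne_bot.2 (A2_bot h)
  obtain ⟨q, hq⟩ := Module.End.exists_eigenvalue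
    ((T 0 : Module.End ℂ V).restrict hst : Module.End ℂ (EE (T 0) : Submodule ℂ V))
  obtain ⟨w, hw⟩ := hq.exists_hasEigenvector
  have hw1 : (T 0 : Module.End ℂ V) (w : V) = q • (w : V) := by
    have h1 := hw.apply_eq_smul
    have h2 := congrArg (Subtype.val) h1
    simpa using h2
  have hw0 : (w : V) ≠ 0 := by
    intro h1
    exact hw.2 (Subtype.ext h1)
  refine ⟨q, w, ?_, hw0, w.2, hw1⟩
  rintro rfl
  rw [zero_smul] at hw1
  apply hw0
  have h1 := LinearMap.congr_fun (Units.inv_mul (T 0)) (w : V)
  rw [Module.End.mul_apply, hw1, map_zero] at h1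
  exact h1.symm
-- END A2

-- MODULE A3
private theorem A3_ind {l x : Fin n → ℕ} (hx : Ind l x) (i : Fin n) : Ind l (dn x i) := by
  intro j
  by_cases hj : j = i
  · subst hj
    have := hx j
    simp [dn]
    omega
  · simp [dn, Function.update_of_ne hj]
    exact hx j

private theorem A3_sum (x : Fin n → ℕ) (i : Fin n) (hi : 0 < x i) :
    ∑ j, dn x i j + 1 = ∑ j, x j := by
  have h1 : ∑ j, dn x i j = (x i - 1) + ∑ j ∈ Finset.univ \ {i}, x j := by
    rw [Finset.sum_update_of_mem (Finset.mem_univ i)]
  have h2 : ∑ j, x j = x i + ∑ j ∈ Finset.univ \ {i}, x j := by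
    rw [← Finset.sum_update_of_mem (Finset.mem_univ i) x (x i), Function.update_eq_self]
  rw [h1, h2]
  omega

open Classical in
private noncomputable def A3_f (T : (Fin n → ℕ) → (Module.End ℂ V)ˣ) (q : ℂ) (v0 : V) :
    ℕ → (Fin n → ℕ) → V
  | 0, _ => v0
  | m + 1, x => if h : ∃ i, 0 < x i then q⁻¹ • N T x (A3_f T q v0 m (dn x h.choose)) else v0

/-- PROOF. Define v by well-founded recursion on ∑ x: v 0 = v0 (more precisely for x without positive coordinate), v x = q⁻¹ • N x (v (dn x i)) with i = the least (or any chosen) coordinate with 0 < x i. By strong induction on ∑ i, x i (Ind l x): v x ∈ EE (T x); T x (v x) = q v x (rel_edge (2) for dn x i, x); and for EVERY j with 0 < x j: v x = q⁻¹ • N x (v (dn x j)): for j ≠ i (the chosen one) put w = dn (dn x i) j; induction for dn x i and dn x j: v (dn x i) = q⁻¹ N (dn x i) (v w), v (dn x j) = q⁻¹ N (dn x j) (v w); rel_tri for w < dn x i < x and w < dn x j < x: both q⁻¹ N x (v (dn x i)) and q⁻¹ N x (v (dn x j)) are q⁻¹ N x (v w). -/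
theorem exists_family (h : Nm l T) (q : ℂ) (hq : q ≠ 0) (v0 : V) (h0 : v0 ∈ EE (T 0))
    (hv0 : (T 0 : Module.End ℂ V) v0 = q • v0) :
    ∃ v : (Fin n → ℕ) → V, v 0 = v0 ∧ (∀ x, Ind l x → v x ∈ EE (T x)) ∧
      (∀ x, Ind l x → (T x : Module.End ℂ V) (v x) = q • v x) ∧
      ∀ x i, Ind l x → 0 < x i → N T x (v (dn x i)) = q • v x := by
  classical
  let v : (Fin n → ℕ) → V := fun x => A3_f T q v0 (∑ j, x j) x
  have hv1 : v 0 = v0 := by
    show A3_f T q v0 (∑ j : Fin n, (0 : Fin n → ℕ) j) 0 = v0
    have h2 : ∑ j : Fin n, (0 : Fin n → ℕ) j = 0 := by simp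
    rw [h2]
    rfl
  have hv2 : ∀ x : Fin n → ℕ, (∃ i, 0 < x i) →
      ∃ i, 0 < x i ∧ v x = q⁻¹ • N T x (v (dn x i)) := by
    intro x hx
    refine ⟨hx.choose, hx.choose_spec, ?_⟩
    have h3 := A3_sum x hx.choose hx.choose_spec
    show A3_f T q v0 (∑ j, x j) x =
      q⁻¹ • N T x (A3_f T q v0 (∑ j, dn x hx.choose j) (dn x hx.choose))
    rw [← h3]
    show (if h : ∃ i, 0 < x i then
      q⁻¹ • N T x (A3_f T q v0 (∑ j, dn x hx.choose j) (dn x h.choose)) else v0) = _
    rw [dif_pos hx]
  have hmain : ∀ m : ℕ, ∀ x : Fin n → ℕ, ∑ j, x j = m → Ind l x →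
      v x ∈ EE (T x) ∧ (T x : Module.End ℂ V) (v x) = q • v x ∧
        ∀ i, 0 < x i → N T x (v (dn x i)) = q • v x := by
    intro m
    induction m using Nat.strong_induction_on with
    | _ m ih =>
    intro x hm hx
    by_cases hx0 : ∃ i, 0 < x i
    · obtain ⟨i, hi, hvi⟩ := hv2 x hx0
      have hsi := A3_sum x i hi
      obtain ⟨a1, a2, a3⟩ := ih (∑ j, dn x i j) (by omega) (dn x i) rfl (A3_ind hx i)
      have hNi : N T x (v (dn x i)) = q • v x := by
        rw [hvi, smul_smul, mul_inv_cancel₀ hq, one_smul]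
      refine ⟨?_, ?_, ?_⟩
      · rw [hvi]
        exact Submodule.smul_mem _ _ ⟨v (dn x i), rfl⟩
      · have h4 := (rel_edge h (A3_ind hx i) hx (Or.inl (Lt_dn x i hi)) _ a1).2
        rw [a2, map_smul, hNi, map_smul] at h4
        have h5 : q⁻¹ • q • ((T x : Module.End ℂ V) (v x)) = q⁻¹ • q • q • v x := by rw [h4]
        rwa [smul_smul, smul_smul, inv_mul_cancel₀ hq, one_smul, one_smul] at h5
      · intro j hj
        by_cases hji : j = i
        · rw [hji, hNi]
        have hij : i ≠ j := fun h => hji h.symm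
        have hjj : 0 < dn x i j := by
          simp only [dn, Function.update_of_ne hji]
          exact hj
        have hii : 0 < dn x j i := by
          simp only [dn, Function.update_of_ne hij]
          exact hi
        have hsj := A3_sum x j hj
        have hsw := A3_sum (dn x i) j hjj
        obtain ⟨b1, b2, b3⟩ := ih (∑ k, dn x j k) (by omega) (dn x j) rfl (A3_ind hx j)
        have hw : dn (dn x j) i = dn (dn x i) j := by
          show Function.update (Function.update x j (x j - 1)) i
            (Function.update x j (x j - 1) i - 1) = Function.update (Function.update x i (x i - 1)) j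
            (Function.update x i (x i - 1) j - 1)
          rw [Function.update_of_ne hij, Function.update_of_ne hji, Function.update_comm hij]
        obtain ⟨c1, c2, c3⟩ := ih (∑ k, dn (dn x i) j k) (by omega) (dn (dn x i) j) rfl
          (A3_ind (A3_ind hx i) j)
        have hlt : Lt (dn (dn x i) j) x := by
          refine ⟨fun h6 => ?_, fun k => ?_⟩
          · rw [h6] at hsw
            omega
          · by_cases hk : k = j
            · subst hk
              simp only [dn, Function.update_self, Function.update_of_ne hji]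
              omega
            · by_cases hk2 : k = i
              · subst hk2
                simp only [dn, Function.update_self, Function.update_of_ne hk]
                omega
              · simp only [dn, Function.update_of_ne hk, Function.update_of_ne hk2]
                omega
        have e1 := rel_tri h (A3_ind (A3_ind hx i) j) (A3_ind hx i) hx (Lt_dn (dn x i) j hjj)
          (Lt_dn x i hi) hlt q hq _ c1 c2
        have hlt2 : Lt (dn (dn x i) j) (dn x j) := by
          rw [← hw]
          exact Lt_dn (dn x j) i hii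
        have e2 := rel_tri h (A3_ind (A3_ind hx i) j) (A3_ind hx j) hx hlt2
          (Lt_dn x j hj) hlt q hq _ c1 c2
        have e3 := a3 j hjj
        have e4 := b3 i hii
        rw [hw] at e4
        rw [e3, map_smul] at e1
        rw [e4, map_smul] at e2
        have e5 : q⁻¹ • q • N T x (v (dn x j)) = q⁻¹ • q • N T x (v (dn x i)) := by rw [e1, e2]
        rw [smul_smul, smul_smul, inv_mul_cancel₀ hq, one_smul, one_smul] at e5
        rw [e5, hNi]
    · have hx1 : x = 0 := by
        funext i
        by_contra h6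
        exact hx0 ⟨i, Nat.pos_of_ne_zero h6⟩
      subst hx1
      refine ⟨by rw [hv1]; exact h0, by rw [hv1]; exact hv0, fun i hi => ?_⟩
      exact absurd ⟨i, hi⟩ hx0
  exact ⟨v, hv1, fun x hx => (hmain _ x rfl hx).1, fun x hx => (hmain _ x rfl hx).2.1,
    fun x i hx hi => (hmain _ x rfl hx).2.2 i hi⟩
-- END A3

-- MODULE A4
private theorem lon_A4_N (T : (Fin n → ℕ) → (Module.End ℂ V)ˣ) (x : Fin n → ℕ) (w : V) :
    N T x w = (T x : Module.End ℂ V) w - w := by
  simp [N]

private theorem lon_A4_up (h : Nm l T) (q : ℂ) (hq : q ≠ 0) (v : (Fin n → ℕ) → V)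
    (h1 : ∀ x, Ind l x → v x ∈ EE (T x))
    (h2 : ∀ x, Ind l x → (T x : Module.End ℂ V) (v x) = q • v x)
    (h3 : ∀ x i, Ind l x → 0 < x i → N T x (v (dn x i)) = q • v x) (m : ℕ) :
    ∀ x y : Fin n → ℕ, Ind l x → Ind l y → Lt x y → ∑ i, y i ≤ ∑ i, x i + m →
      N T y (v x) = q • v y := by
  induction m with
  | zero =>
    intro x y hx hy hxy hs
    exfalso
    apply hxy.1
    funext i
    have h4 : ∑ i, x i ≤ ∑ i, y i := Finset.sum_le_sum fun i _ => (hxy.2 i).1
    have h5 : ∑ i, x i = ∑ i, y i := le_antisymm h4 (by simpa using hs)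
    exact (Finset.sum_eq_sum_iff_of_le fun i _ => (hxy.2 i).1).1 h5 i (Finset.mem_univ i)
  | succ m ih =>
    intro x y hx hy hxy hs
    obtain ⟨i, hi⟩ : ∃ i, x i ≠ y i := Function.ne_iff.1 hxy.1
    have hi1 := (hxy.2 i).1
    have hi2 := (hxy.2 i).2
    have hyi : y i = x i + 1 := by omega
    have hdn : dn (up x i) i = x := by
      simp [up, dn]
    by_cases hyy : up x i = y
    · subst hyy
      have h4 := h3 (up x i) i hy (by rw [hyi]; omega)
      rwa [hdn] at h4
    · have hup : ∀ j, up x i j ≤ y j ∧ y j ≤ up x i j + 1 := by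
        intro j
        by_cases hj : j = i
        · subst hj
          simp only [up, Function.update_self]
          omega
        · simp only [up, Function.update_of_ne hj]
          exact hxy.2 j
      have hy' : Ind l (up x i) := fun j => lt_of_le_of_lt (hup j).1 (hy j)
      have hlt : Lt (up x i) y := ⟨hyy, hup⟩
      have e1 := rel_tri h hx hy' hy (Lt_up x i) hlt hxy q hq (v x) (h1 x hx) (h2 x hx)
      have e2 : N T (up x i) (v x) = q • v (up x i) := by
        have h4 := h3 (up x i) i hy' (by simp only [up, Function.update_self]; omega)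
        rwa [hdn] at h4
      rw [e2, map_smul] at e1
      have e3 : N T y (v (up x i)) = N T y (v x) := smul_right_injective V hq e1
      rw [← e3]
      refine ih (up x i) y hy' hy hlt ?_
      have h6 : ∑ j, up x i j = ∑ j, x j + 1 := by
        rw [Finset.sum_update_of_mem (Finset.mem_univ i)]
        rw [← Finset.sum_erase_add _ _ (Finset.mem_univ i), Finset.sdiff_singleton_eq_erase]
        ring
      omega

/-- PROOF. (1) Lt x y: N y (v x) = q v y, by induction on the number of i with x i ≠ y i (or on ∑ y - ∑ x): if exactly one i: x = dn y i. Otherwise choose i with y i = x i + 1, y' = up x i = x with i-th coordinate increased, Lt x y', Lt y' y (y' ≠ y), so rel_tri: N y (N y' (v x)) = q N y (v x), and N y' (v x) = q v y' (x = dn y' i), so N y (v y') = N y (v x), = q v y by induction. (2) Lt x y: N x (v y) = - v x: rel_edge (1): N x (N y (v x)) = - T x (v x) = - q v x, and N y (v x) = q v y, cancel q. (3) x ≠ y not adjacent: v y ∈ EE (T y), NZ_fix: T x (v y) = v y. (4) x = y: T x (v x) = q v x. -/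
theorem family_rel (h : Nm l T) (q : ℂ) (hq : q ≠ 0) (v : (Fin n → ℕ) → V)
    (h1 : ∀ x, Ind l x → v x ∈ EE (T x))
    (h2 : ∀ x, Ind l x → (T x : Module.End ℂ V) (v x) = q • v x)
    (h3 : ∀ x i, Ind l x → 0 < x i → N T x (v (dn x i)) = q • v x)
    (x y : Fin n → ℕ) (hx : Ind l x) (hy : Ind l y) :
    (x = y → N T x (v y) = (q - 1) • v x) ∧ (Lt y x → N T x (v y) = q • v x) ∧
      (Lt x y → N T x (v y) = - v x) ∧ (x ≠ y → ¬ Adj x y → N T x (v y) = 0) := by
  refine ⟨?_, ?_, ?_, ?_⟩
  · rintro rfl
    rw [lon_A4_N, h2 x hx, sub_smul, one_smul]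
  · intro hyx
    exact lon_A4_up h q hq v h1 h2 h3 (∑ i, x i) y x hy hx hyx (by omega)
  · intro hxy
    have e1 := (rel_edge h hx hy (Or.inl hxy) (v x) (h1 x hx)).1
    rw [lon_A4_up h q hq v h1 h2 h3 (∑ i, y i) x y hx hy hxy (by omega), map_smul, h2 x hx,
      ← smul_neg] at e1
    exact smul_right_injective V hq e1
  · intro hne hadj
    have hadj' : ¬ Adj y x := fun h4 => hadj h4.symm
    have e1 := NZ_fix (h.comm y x hy hx hadj') (h.zero y x hy hx hne.symm hadj') (v y) (h1 y hy)
    rw [lon_A4_N, e1, sub_self]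
-- END A4

-- MODULE A5
/-- PROOF. A2, A3, A4; the span of the v x (Ind l x) is stable under all T x = 1 + N x and contains v 0 ≠ 0, so it is ⊤. -/
theorem caseA (h : Nm l T) : ∃ (q : ℂ) (v : (Fin n → ℕ) → V), q ≠ 0 ∧
    Submodule.span ℂ (v '' {x | Ind l x}) = ⊤ ∧
    ∀ x y, Ind l x → Ind l y →
      (x = y → N T x (v y) = (q - 1) • v x) ∧ (Lt y x → N T x (v y) = q • v x) ∧
      (Lt x y → N T x (v y) = - v x) ∧ (x ≠ y → ¬ Adj x y → N T x (v y) = 0) := by
  obtain ⟨q, v0, hq, hv0, h0, hT0⟩ := exists_start h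
  obtain ⟨v, e0, e1, e2, e3⟩ := exists_family h q hq v0 h0 hT0
  have hrel := fun x y hx hy => family_rel h q hq v e1 e2 e3 x y hx hy
  refine ⟨q, v, hq, ?_, hrel⟩
  have hst : ∀ x, Ind l x → ∀ w ∈ Submodule.span ℂ (v '' {x | Ind l x}),
      (T x : Module.End ℂ V) w ∈ Submodule.span ℂ (v '' {x | Ind l x}) := by
    intro x hx w hw
    induction hw using Submodule.span_induction with
    | mem w hw =>
      obtain ⟨y, hy, rfl⟩ := hw
      have hvx : v x ∈ Submodule.span ℂ (v '' {x | Ind l x}) := Submodule.subset_span ⟨x, hx, rfl⟩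
      have hvy : v y ∈ Submodule.span ℂ (v '' {x | Ind l x}) := Submodule.subset_span ⟨y, hy, rfl⟩
      have h1 : (T x : Module.End ℂ V) (v y) = v y + N T x (v y) := by
        show _ = v y + ((T x : Module.End ℂ V) - 1) (v y)
        rw [LinearMap.sub_apply, Module.End.one_apply, add_sub_cancel]
      rw [h1]
      apply Submodule.add_mem _ hvy
      obtain ⟨r1, r2, r3, r4⟩ := hrel x y hx hy
      by_cases a1 : x = y
      · rw [r1 a1]; exact Submodule.smul_mem _ _ hvx
      by_cases a2 : Lt y x
      · rw [r2 a2]; exact Submodule.smul_mem _ _ hvx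
      by_cases a3 : Lt x y
      · rw [r3 a3]; exact Submodule.neg_mem _ hvx
      rw [r4 a1 (fun h5 => h5.elim a3 a2)]
      exact Submodule.zero_mem _
    | zero => rw [map_zero]; exact Submodule.zero_mem _
    | add a b _ _ ha hb => rw [map_add]; exact Submodule.add_mem _ ha hb
    | smul c a _ ha => rw [map_smul]; exact Submodule.smul_mem _ _ ha
  rcases h.irr _ hst with h1 | h1
  · exfalso
    apply hv0
    have h2 : v 0 ∈ Submodule.span ℂ (v '' {x | Ind l x}) :=
      Submodule.subset_span ⟨0, fun i => lt_of_lt_of_le (by norm_num) (h.six i), rfl⟩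
    rw [h1, Submodule.mem_bot, e0] at h2
    exact h2
  · exact h1
-- END A5

end Pool.Agent.Lon
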