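import Pool.Agent.Lon.Nrm

/-!
# The ranges of adjacent `T x - 1` meet in zero
-/

set_option autoImplicit false
set_option linter.all false

namespace Pool.Agent.Lon

universe u

variable {n : ℕ} {V : Type u} [AddCommGroup V] [Module ℂ V]

-- MODULE B1
private theorem lon_B1_sm (g : (Module.End ℂ V)ˣ) (w : V) : (g : Module.End ℂ V) w = g • w := rfl

private theorem lon_B1_nz {g h : (Module.End ℂ V)ˣ} (hz : NZ g h) (u : V) :
    g • (h • u - u) = h • u - u := by
  have h1 := congrArg (fun f : Module.End ℂ V => f u) hz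
  simp only [Module.End.mul_apply, LinearMap.sub_apply, Module.End.one_apply, LinearMap.zero_apply,
    lon_B1_sm] at h1
  exact sub_eq_zero.1 h1

private theorem lon_B1_nz' {g h : (Module.End ℂ V)ˣ} (hz : NZ g h) (hc : g * h = h * g) (u : V) :
    h • (g • u - u) = g • u - u := by
  have h1 := lon_B1_nz hz u
  rw [smul_sub, smul_smul, hc, ← smul_smul] at h1
  rw [smul_sub, sub_eq_sub_iff_add_eq_add]
  rw [sub_eq_sub_iff_add_eq_add] at h1
  rw [h1, add_comm]

private theorem lon_B1_ee {g : (Module.End ℂ V)ˣ} {w : V} : w ∈ EE g ↔ ∃ u, g • u - u = w := by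
  constructor
  · rintro ⟨u, hu⟩
    exact ⟨u, by simpa [lon_B1_sm] using hu⟩
  · rintro ⟨u, hu⟩
    exact ⟨u, by simpa [lon_B1_sm] using hu⟩

/-- conjugated form -/
private theorem lon_B1_conj {g h k : (Module.End ℂ V)ˣ} (hz : NZ g h) (hc : g * h = h * g) (u : V) :
    (k * h * k⁻¹) • ((k * g * k⁻¹) • u - u) = (k * g * k⁻¹) • u - u := by
  have h1 := lon_B1_nz' hz hc (k⁻¹ • u)
  have h2 := congrArg (fun x => k • x) h1
  simp only [smul_sub, ← mul_smul, mul_inv_cancel, one_smul, mul_assoc] at h2 ⊢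
  simp only [inv_mul_cancel_left] at h2 ⊢
  exact h2

/-- A vector in the ranges of a - 1 and v - 1 where v is the centre of a D_4 with leaves a, b, c. PROOF (w2 = the vector of the statement; operators written as letters).
w1 = a w2 ∈ EE a ∩ EE (a v a⁻¹) (EE_conj). a v a⁻¹ = v⁻¹ a v. NZ (v⁻¹ a v) (v⁻¹ b v) (NZ_conj by v⁻¹), these commute, so v⁻¹ b v w1 = w1; v⁻¹ b v = b v b⁻¹ and b w1 = w1 (NZ_fix, w1 ∈ EE a), so v w1 = w1. Also c w1 = w1, b w2 = w2, c w2 = w2 (w2 ∈ EE a).
w3 = v⁻¹ w2 ∈ EE v. a w3 = a v⁻¹ a⁻¹ w1 = v⁻¹ a⁻¹ v w1 = v⁻¹ a⁻¹ w1 = w3.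
w4 = b⁻¹ w3: v⁻¹ w4 = v⁻¹ b⁻¹ v⁻¹ w2 = b⁻¹ v⁻¹ b⁻¹ w2 = w4, so v w4 = w4. w4 ∈ EE (b⁻¹ v b), b⁻¹ v b = v b v⁻¹, and NZ (v b v⁻¹) (v c v⁻¹), v c v⁻¹ = c⁻¹ v c: so c⁻¹ v c w4 = w4, v (c w4) = c w4. (c - 1) w4 = (c - 1) b⁻¹ w3 = (c - 1) w3 =: R' (as (b - 1)(c - 1) = 0: b⁻¹ (c - 1) = c - 1). So v R' = R' (v c w4 = c w4, v w4 = w4).
v R' = v c v⁻¹ w2 - w2 and v c v⁻¹ w2 = c⁻¹ v c w2 = c⁻¹ v w2; so c⁻¹ v w2 - w2 = R' = (c - 1) w3; apply c: v w2 = w2 + c (c - 1) w3. By symmetry in b, c: v w2 = w2 + b (b - 1) w3. So R := c (c - 1) w3 = b (b - 1) w3; (c - 1) R = b ((c - 1)(b - 1)) w3 = 0; so (c - 1)(c - 1) w3 = 0, c (c - 1) w3 = (c - 1) w3, R = R'. v R = R.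
v w2 = w2 + R, apply v⁻¹: w2 = w3 + R. (c - 1) w3 = (c - 1) w2 - (c - 1) R = 0, so R = R' = 0. So v w2 = w2, w3 = w2, a w2 = a w3 = w3 = w2. -/
theorem caseB_local (a b c v : (Module.End ℂ V)ˣ) (hav : a * v * a = v * a * v)
    (hbv : b * v * b = v * b * v) (hcv : c * v * c = v * c * v) (hab : a * b = b * a)
    (hac : a * c = c * a) (hbc : b * c = c * b) (nab : NZ a b) (nac : NZ a c) (nbc : NZ b c)
    (w : V) (ha : w ∈ EE a) (hv : w ∈ EE v) :
    (a : Module.End ℂ V) w = w ∧ (v : Module.End ℂ V) w = w := by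
  rw [lon_B1_sm, lon_B1_sm]
  have hbw : b • w = w := by
    obtain ⟨u, rfl⟩ := lon_B1_ee.1 ha
    exact lon_B1_nz' nab hab u
  have hcw : c • w = w := by
    obtain ⟨u, rfl⟩ := lon_B1_ee.1 ha
    exact lon_B1_nz' nac hac u
  -- w1
  have hbw1 : b • a • w = a • w := by
    rw [smul_smul, ← hab, mul_smul, hbw]
  have hH1 : v • a • w = a • w := by
    obtain ⟨u, hu⟩ := lon_B1_ee.1 hv
    have h1 := lon_B1_conj (k := v⁻¹) nab hab (a • u)
    have e1 : (v⁻¹ * a * v⁻¹⁻¹) • a • u = a • v • u := by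
      rw [smul_smul, smul_smul]
      congr 1
      rw [inv_inv, mul_assoc, mul_assoc, inv_mul_eq_iff_eq_mul, ← mul_assoc, ← mul_assoc, ← hav]
    rw [e1, ← smul_sub, hu] at h1
    have e2 : v⁻¹ * b * v⁻¹⁻¹ = b * v * b⁻¹ := by
      rw [inv_inv, mul_assoc, inv_mul_eq_iff_eq_mul, eq_comm, ← mul_assoc, ← mul_assoc, ← hbv]
      group
    rw [e2, mul_smul, mul_smul, inv_smul_eq_iff.2 hbw1.symm] at h1
    have h3 := congrArg (fun x => b⁻¹ • x) h1
    simp only [inv_smul_smul] at h3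
    rw [h3, inv_smul_eq_iff, hbw1]
  -- w3
  have hH2 : a • v⁻¹ • w = v⁻¹ • w := by
    have e : a * v⁻¹ = v⁻¹ * a⁻¹ * v * a := by
      have : v * (a * v⁻¹) * v = v * (v⁻¹ * a⁻¹ * v * a) * v := by
        have h5 : v * (v⁻¹ * a⁻¹ * v * a) * v = a⁻¹ * (v * a * v) := by group
        rw [h5, ← hav]
        group
      exact mul_left_cancel (mul_right_cancel this)
    rw [smul_smul, e, mul_smul, mul_smul, hH1, mul_smul, inv_smul_smul]
  have hw3 : ∃ x, v • x - x = v⁻¹ • w := by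
    obtain ⟨u, rfl⟩ := lon_B1_ee.1 hv
    refine ⟨v⁻¹ • u, ?_⟩
    rw [smul_sub, inv_smul_smul, smul_inv_smul]
  -- the symmetric part
  have main : ∀ b c : (Module.End ℂ V)ˣ, b * v * b = v * b * v → c * v * c = v * c * v → b * c = c * b →
      NZ b c → b • w = w → c • w = w →
      v • (c • v⁻¹ • w - v⁻¹ • w) = c • v⁻¹ • w - v⁻¹ • w ∧
      v • w = w + c • (c • v⁻¹ • w - v⁻¹ • w) := by
    intro b c hbv hcv hbc nbc hbw hcw
    have hbw' : b⁻¹ • w = w := by rw [inv_smul_eq_iff, hbw]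
    have hH3 : v • b⁻¹ • v⁻¹ • w = b⁻¹ • v⁻¹ • w := by
      rw [eq_comm, ← inv_smul_eq_iff]
      have e : v⁻¹ * b⁻¹ * v⁻¹ = b⁻¹ * v⁻¹ * b⁻¹ := by
        have := congrArg (fun x => x⁻¹) hbv
        simp only [mul_inv_rev, ← mul_assoc] at this
        rw [this]
      rw [← mul_smul, ← mul_smul, e, mul_smul, mul_smul, hbw']
    have hH4 : v • c • b⁻¹ • v⁻¹ • w = c • b⁻¹ • v⁻¹ • w := by
      obtain ⟨x, hx⟩ := hw3
      have h1 := lon_B1_conj (k := v) nbc hbc (b⁻¹ • x)
      have e1 : (v * b * v⁻¹) • b⁻¹ • x = b⁻¹ • v • x := by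
        rw [smul_smul, smul_smul]
        congr 1
        have h5 : b * (v * b * v⁻¹ * b⁻¹) * v = (b * v * b) * v⁻¹ * b⁻¹ * v := by group
        have h6 : (v * b * v) * v⁻¹ * b⁻¹ * v = b * (b⁻¹ * v) * v := by group
        have : b * (v * b * v⁻¹ * b⁻¹) * v = b * (b⁻¹ * v) * v := by rw [h5, hbv, h6]
        exact mul_left_cancel (mul_right_cancel this)
      rw [e1, ← smul_sub, hx] at h1
      have e2 : v * c * v⁻¹ = c⁻¹ * v * c := by
        have h5 : c * (v * c * v⁻¹) * v = c * v * c := by group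
        have h6 : c * (c⁻¹ * v * c) * v = v * c * v := by group
        have : c * (v * c * v⁻¹) * v = c * (c⁻¹ * v * c) * v := by rw [h5, h6, hcv]
        exact mul_left_cancel (mul_right_cancel this)
      rw [e2, mul_smul, mul_smul, inv_smul_eq_iff] at h1
      exact h1
    have hR : c • b⁻¹ • v⁻¹ • w - b⁻¹ • v⁻¹ • w = c • v⁻¹ • w - v⁻¹ • w := by
      have h1 := lon_B1_nz nbc (v⁻¹ • w)
      have h2 : b⁻¹ • (c • v⁻¹ • w - v⁻¹ • w) = c • v⁻¹ • w - v⁻¹ • w := by
        rw [inv_smul_eq_iff, h1]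
      rw [← h2, smul_sub]
      congr 1
      rw [smul_smul, smul_smul b⁻¹]
      congr 1
      rw [eq_inv_mul_iff_mul_eq, ← mul_assoc, hbc]
      group
    have hH5 : v • (c • v⁻¹ • w - v⁻¹ • w) = c • v⁻¹ • w - v⁻¹ • w := by
      rw [← hR, smul_sub, hH4, hH3]
    refine ⟨hH5, ?_⟩
    have e2 : v * c * v⁻¹ = c⁻¹ * v * c := by
      have h5 : c * (v * c * v⁻¹) * v = c * v * c := by group
      have h6 : c * (c⁻¹ * v * c) * v = v * c * v := by group
      have : c * (v * c * v⁻¹) * v = c * (c⁻¹ * v * c) * v := by rw [h5, h6, hcv]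
      exact mul_left_cancel (mul_right_cancel this)
    have h7 : v • c • v⁻¹ • w = c⁻¹ • v • w := by
      rw [← mul_smul, ← mul_smul, e2, mul_smul, mul_smul, hcw]
    have h8 : c⁻¹ • v • w - w = c • v⁻¹ • w - v⁻¹ • w := by
      rw [← h7, ← hH5, smul_sub, smul_inv_smul]
    have h9 := congrArg (fun x => c • x) h8
    rw [smul_sub, smul_inv_smul, hcw] at h9
    rw [← h9]
    abel
  obtain ⟨m1, m2⟩ := main b c hbv hcv hbc nbc hbw hcw
  have ncb : NZ c b := by
    unfold NZ at nbc ⊢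
    have e : (b : Module.End ℂ V) * c = c * b := by
      have := congrArg (fun x : (Module.End ℂ V)ˣ => (x : Module.End ℂ V)) hbc
      simpa using this
    have e2 : ((c : Module.End ℂ V) - 1) * ((b : Module.End ℂ V) - 1)
        = ((b : Module.End ℂ V) - 1) * ((c : Module.End ℂ V) - 1) := by
      simp only [sub_mul, mul_sub, mul_one, one_mul, e]
      abel
    rw [e2, nbc]
  obtain ⟨m3, m4⟩ := main c b hcv hbv hbc.symm ncb hcw hbw
  -- R
  have r1 : c • (c • v⁻¹ • w - v⁻¹ • w) = b • (b • v⁻¹ • w - v⁻¹ • w) := by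
    have := m2.symm.trans m4
    exact add_left_cancel this
  have r2 : c • (c • (c • v⁻¹ • w - v⁻¹ • w)) = c • (c • v⁻¹ • w - v⁻¹ • w) := by
    rw [r1, smul_smul, ← hbc, mul_smul, lon_B1_nz ncb]
  have r3 : c • (c • v⁻¹ • w - v⁻¹ • w) = c • v⁻¹ • w - v⁻¹ • w := by
    have := congrArg (fun x => c⁻¹ • x) r2
    simpa only [inv_smul_smul] using this
  rw [r3] at m2
  have r4 : w = v⁻¹ • w + (c • v⁻¹ • w - v⁻¹ • w) := by
    have h1 := congrArg (fun x => v⁻¹ • x) m2
    simp only [inv_smul_smul, smul_add] at h1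
    have h2 : v⁻¹ • (c • v⁻¹ • w - v⁻¹ • w) = c • v⁻¹ • w - v⁻¹ • w := by
      rw [inv_smul_eq_iff, m1]
    rw [h2] at h1
    exact h1
  have r5 : c • v⁻¹ • w - v⁻¹ • w = 0 := by
    have h1 := congrArg (fun x => c • x) r4
    rw [smul_add, hcw, r3] at h1
    have h3 : w - w = (c • v⁻¹ • w + (c • v⁻¹ • w - v⁻¹ • w)) - (v⁻¹ • w + (c • v⁻¹ • w - v⁻¹ • w)) := by
      rw [← h1, ← r4]
    rw [sub_self] at h3
    rw [h3]
    abel
  rw [r5, add_zero] at m2 r4
  refine ⟨?_, m2⟩
  have := hH2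
  rwa [← r4] at this
-- END B1

-- MODULE B2
private theorem lon_B2_cyclic {x y z : Fin n → ℕ} (h1 : Lt x y) (h2 : Lt y z) (h3 : Lt z x) : False := by
  apply h1.1
  funext i
  have a1 := h1.2 i
  have a2 := h2.2 i
  have a3 := h3.2 i
  omega

private theorem lon_B2_tri {l : Fin n → ℕ} {T : (Fin n → ℕ) → (Module.End ℂ V)ˣ} (h : Nm l T)
    {x y z : Fin n → ℕ} (hx : Ind l x) (hy : Ind l y) (hz : Ind l z) (hxy : Adj x y)
    (hyz : Adj y z) (hxz : Adj x z) : Cyc (T x) (T y) (T z) ∨ Cyc (T z) (T y) (T x) := by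
  rcases hxy with h1 | h1 <;> rcases hyz with h2 | h2 <;> rcases hxz with h3 | h3
  · exact Or.inl (h.tri x y z hx hy hz h1 h2 h3)
  · exact (lon_B2_cyclic h1 h2 h3).elim
  · exact Or.inr (cyc_rot _ _ _ (h.braid z y hz hy (Or.inl h2)) (h.tri x z y hx hz hy h3 h2 h1))
  · exact Or.inl (cyc_rot _ _ _ (h.braid x y hx hy (Or.inl h1)) (h.tri z x y hz hx hy h3 h1 h2))
  · exact Or.inr (cyc_rot _ _ _ (h.braid z y hz hy (Or.inr h2))
      (cyc_rot _ _ _ (h.braid x z hx hz (Or.inl h3)) (h.tri y x z hy hx hz h1 h3 h2)))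
  · exact Or.inl (cyc_rot _ _ _ (h.braid x y hx hy (Or.inr h1))
      (cyc_rot _ _ _ (h.braid z x hz hx (Or.inl h3)) (h.tri y z x hy hz hx h2 h3 h1)))
  · exact (lon_B2_cyclic h1 h3 h2).elim
  · exact Or.inr (h.tri z y x hz hy hx h2 h1 h3)

private theorem lon_B2_slide {l : Fin n → ℕ} {T : (Fin n → ℕ) → (Module.End ℂ V)ˣ} (h : Nm l T)
    {x y z : Fin n → ℕ} (hx : Ind l x) (hy : Ind l y) (hz : Ind l z) (hxy : Adj x y)
    (hyz : Adj y z) (hd : Disjoint (EE (T x)) (EE (T y))) : Disjoint (EE (T y)) (EE (T z)) := by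
  have hs : T x * T z = T z * T x ∨ (T x * T z * T x = T z * T x * T z ∧
      (Cyc (T x) (T y) (T z) ∨ Cyc (T z) (T y) (T x))) := by
    by_cases hxz : Adj x z
    · exact Or.inr ⟨h.braid x z hx hz hxz, lon_B2_tri h hx hy hz hxy hyz hxz⟩
    · exact Or.inl (h.comm x z hx hz hxz)
  obtain ⟨k, -, k1, k2⟩ := slide (T x) (T y) (T z) (h.braid x y hx hy hxy) (h.braid y z hy hz hyz) hs
  rw [Submodule.disjoint_def] at hd ⊢
  intro w w1 w2
  have e : (k : Module.End ℂ V) ((k⁻¹ : (Module.End ℂ V)ˣ) • w) = w := smul_inv_smul k w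
  have h0 := hd ((k⁻¹ : (Module.End ℂ V)ˣ) • w) ((EE_conj k k1 _).1 (by rw [e]; exact w1))
    ((EE_conj k k2 _).1 (by rw [e]; exact w2))
  rw [← e, h0, map_zero]

private theorem lon_B2_all {l : Fin n → ℕ} {T : (Fin n → ℕ) → (Module.End ℂ V)ˣ} (h : Nm l T)
    {a v x : Fin n → ℕ} (ha : Ind l a) (hv : Ind l v) (hx : Ind l x) (hav : Lt v a) {w : V}
    (wa : w ∈ EE (T a)) (wv : w ∈ EE (T v)) (fa : (T a : Module.End ℂ V) w = w)
    (fv : (T v : Module.End ℂ V) w = w) : (T x : Module.End ℂ V) w = w := by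
  have fin : ∀ k g : (Module.End ℂ V)ˣ, (k : Module.End ℂ V) w = w →
      ((k * g * k⁻¹ : (Module.End ℂ V)ˣ) : Module.End ℂ V) w = w → (g : Module.End ℂ V) w = w := by
    intro k g hk hg
    have hk' : k • w = w := hk
    have hg' : (k * g * k⁻¹) • w = w := hg
    rw [mul_smul, mul_smul, inv_smul_eq_iff.2 hk'.symm] at hg'
    have : g • w = w := by
      have h1 := congrArg (fun y => k⁻¹ • y) hg'
      simp only [inv_smul_smul] at h1
      rw [h1, inv_smul_eq_iff, hk']
    exact this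
  by_cases exa : x = a
  · rw [exa, fa]
  by_cases exv : x = v
  · rw [exv, fv]
  by_cases nxa : Adj a x
  · by_cases nxv : Adj v x
    · rcases nxv with h1 | h1
      · rcases nxa with h2 | h2
        · -- v < a < x
          have hp := tri_pairs h hv ha hx hav h2 h1
          have hc := h.tri v a x hv ha hx hav h2 h1
          exact fin _ _ fa (NZ_fix hc hp.1 w wv)
        · -- v < x < a
          have hp := tri_pairs h hv hx ha h1 h2 hav
          have hc := cyc_rot _ _ _ (h.braid a v ha hv (Or.inr hav))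
            (cyc_rot _ _ _ (h.braid x a hx ha (Or.inl h2)) (h.tri v x a hv hx ha h1 h2 hav))
          exact fin _ _ fv (NZ_fix hc hp.2.2 w wa)
      · rcases nxa with h2 | h2
        · exact (lon_B2_cyclic h1 hav h2).elim
        · -- x < v < a
          have hp := tri_pairs h hx hv ha h1 hav h2
          have hc := cyc_rot _ _ _ (h.braid v a hv ha (Or.inl hav)) (h.tri x v a hx hv ha h1 hav h2)
          exact fin _ _ fa (NZ_fix hc hp.2.1 w wv)
    · exact NZ_fix (h.comm v x hv hx nxv) (h.zero v x hv hx (Ne.symm exv) nxv) w wv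
  · exact NZ_fix (h.comm a x ha hx nxa) (h.zero a x ha hx (Ne.symm exa) nxa) w wa

/-- PROOF. Suppose 0 ≠ w' ∈ EE (T x') ∩ EE (T y') for an edge x' y'. R x y := Disjoint (EE (T x)) (EE (T y)) is symmetric and passes along slides (k from `slide` in the units: k * T x = T y * k, k * T y = T z * k; EE_conj; the hypothesis of `slide` for a = T x, b = T y, c = T z: as Lonne.triangle, from Nm.tri and cyc_rot), so by edge_ind (lo = 0, hi = l - 1) R fails also for the edge a v of the D_4: i = coordinate 0, j = coordinate 1, v = update (update 0 0 1) 1 1, a = up v 0, b = up v 1, c = 0 (pairwise not adjacent, all adjacent to v). So there is 0 ≠ w ∈ EE (T a) ∩ EE (T v), and by B1 T a w = w, T v w = w.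
Every T x fixes w: x = a, v clear. x ≠ a not adjacent to a: NZ_fix (w ∈ EE (T a)); x ≠ v not adjacent to v: the same with v. x adjacent to both: {a, v, x} is a triangle; by N2 (in sorted order, one of the three pairs) either NZ (T a) (T v T x (T v)⁻¹) (a commutes with it): T v T x (T v)⁻¹ w = w, so T x w = w as T v w = w; or NZ (T v) (T a T x (T a)⁻¹): T x w = w. [If (a, v, x) is a cyclic rotation of the sorted triple the first, otherwise (v, a, x) is, the second.]
So span {w} is stable, non-zero, so it is ⊤ and dim V ≤ 1: contradiction. -/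
theorem caseB {l : Fin n → ℕ} {T : (Fin n → ℕ) → (Module.End ℂ V)ˣ} (h : Nm l T)
    {x y : Fin n → ℕ} (hx : Ind l x) (hy : Ind l y) (hxy : Adj x y) :
    Disjoint (EE (T x)) (EE (T y)) := by
  have hn := h.two
  have hl := h.six
  set i0 : Fin n := ⟨0, by omega⟩ with hi0
  set i1 : Fin n := ⟨1, by omega⟩ with hi1
  have hne : i0 ≠ i1 := by
    rw [hi0, hi1]; intro hc; simp at hc
  set c : Fin n → ℕ := fun _ => 0 with hcdef
  set v : Fin n → ℕ := Function.update (Function.update c i0 1) i1 1 with hvdef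
  have v0 : v i0 = 1 := by rw [hvdef, Function.update_of_ne hne, Function.update_self]
  have v1 : v i1 = 1 := by rw [hvdef, Function.update_self]
  have vj : ∀ j, j ≠ i0 → j ≠ i1 → v j = 0 := by
    intro j h0 h1
    rw [hvdef, Function.update_of_ne h1, Function.update_of_ne h0]
  have vle : ∀ j, v j ≤ 1 := by
    intro j
    by_cases h1 : j = i1
    · rw [h1, v1]
    · by_cases h0 : j = i0
      · rw [h0, v0]
      · rw [vj j h0 h1]; omega
  have hv : Ind l v := fun j => by have := vle j; have := hl j; omega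
  have hup : ∀ i, Ind l (up v i) := by
    intro i j
    have := vle j
    have := hl j
    by_cases hj : j = i
    · subst hj; simp [up]; omega
    · simp only [up, Function.update_of_ne hj]; omega
  have hc : Ind l c := fun j => by have := hl j; simp only [hcdef]; omega
  have a0 : up v i0 i0 = 2 := by simp [up, v0]
  have a1 : up v i0 i1 = 1 := by simp only [up, Function.update_of_ne hne.symm, v1]
  have b0 : up v i1 i0 = 1 := by simp only [up, Function.update_of_ne hne, v0]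
  have b1 : up v i1 i1 = 2 := by simp [up, v1]
  have hLa : Lt v (up v i0) := Lt_up v i0
  have hLb : Lt v (up v i1) := Lt_up v i1
  have hLc : Lt c v := by
    refine ⟨fun h0 => ?_, fun j => ?_⟩
    · have := congrFun h0 i0
      rw [v0] at this
      simp [hcdef] at this
    · have := vle j
      simp only [hcdef]
      omega
  have nab : ¬ Adj (up v i0) (up v i1) := by
    rintro (h1 | h1)
    · have := h1.2 i0; omega
    · have := h1.2 i1; omega
  have nac : ¬ Adj (up v i0) c := by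
    intro h1
    have := h1.le i0
    simp only [hcdef] at this
    omega
  have nbc : ¬ Adj (up v i1) c := by
    intro h1
    have := h1.le i1
    simp only [hcdef] at this
    omega
  have eab : up v i0 ≠ up v i1 := by
    intro h1
    have := congrFun h1 i0
    omega
  have eac : up v i0 ≠ c := by
    intro h1
    have := congrFun h1 i0
    simp only [hcdef] at this
    omega
  have ebc : up v i1 ≠ c := by
    intro h1
    have := congrFun h1 i1
    simp only [hcdef] at this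
    omega
  have base : Disjoint (EE (T (up v i0))) (EE (T v)) := by
    rw [Submodule.disjoint_def]
    intro w wa wv
    by_contra hw
    obtain ⟨fa, fv⟩ := caseB_local (T (up v i0)) (T (up v i1)) (T c) (T v)
      (h.braid _ _ (hup i0) hv (Or.inr hLa)) (h.braid _ _ (hup i1) hv (Or.inr hLb))
      (h.braid _ _ hc hv (Or.inl hLc)) (h.comm _ _ (hup i0) (hup i1) nab)
      (h.comm _ _ (hup i0) hc nac) (h.comm _ _ (hup i1) hc nbc)
      (h.zero _ _ (hup i0) (hup i1) eab nab) (h.zero _ _ (hup i0) hc eac nac)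
      (h.zero _ _ (hup i1) hc ebc nbc) w wa wv
    have hW := h.irr (Submodule.span ℂ {w}) (by
      intro x hx u hu
      obtain ⟨r, rfl⟩ := Submodule.mem_span_singleton.1 hu
      rw [map_smul, lon_B2_all h (hup i0) hv hx hLa wa wv fa fv]
      exact hu)
    rcases hW with hW | hW
    · exact hw (Submodule.span_singleton_eq_bot.1 hW)
    · have h1 := finrank_span_singleton (K := ℂ) hw
      rw [hW, finrank_top] at h1
      have := h.dim
      omega
  have hB : ∀ z, Bx (fun _ => 0) (fun i => l i - 1) z ↔ Ind l z := by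
    intro z
    constructor
    · intro hz j
      have := hz j
      have := hl j
      simp only at *
      omega
    · intro hz j
      have := hz j
      simp only
      omega
  exact edge_ind (fun _ => 0) (fun i => l i - 1) (fun x y => Disjoint (EE (T x)) (EE (T y)))
    (fun x y hd => hd.symm)
    (fun x y z bx by' bz hxy hyz _ hd => lon_B2_slide h ((hB x).1 bx) ((hB y).1 by') ((hB z).1 bz) hxy hyz hd)
    (up v i0) v x y ((hB _).2 (hup i0)) ((hB _).2 hv) ((hB _).2 hx) ((hB _).2 hy) (Or.inr hLa) hxy base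
-- END B2

end Pool.Agent.Lon
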