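import Pool.Agent.Lon.Defs

/-!
# Combinatorics of the box
-/

set_option autoImplicit false
set_option linter.all false

namespace Pool.Agent.Lon

variable {n : ℕ}

/-- the box between `lo` and `hi` -/
def Bx (lo hi x : Fin n → ℕ) : Prop := ∀ j, lo j ≤ x j ∧ x j ≤ hi j

-- MODULE C1
private theorem C1_one (lo hi : Fin n → ℕ) (P : (Fin n → ℕ) → Prop)
    (hP : ∀ x i, Bx lo hi x → x i < hi i → (P x ↔ P (up x i))) (x : Fin n → ℕ)
    (hx : Bx lo hi x) (i : Fin n) (a : ℕ) (ha : lo i ≤ a) : ∀ d, a + d ≤ hi i →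
    (P (Function.update x i a) ↔ P (Function.update x i (a + d))) := by
  intro d
  induction d with
  | zero => intro _; rfl
  | succ d ih =>
    intro hd
    refine (ih (by omega)).trans ?_
    have hb : Bx lo hi (Function.update x i (a + d)) := by
      intro j
      by_cases hj : j = i
      · subst hj; rw [Function.update_self]; omega
      · rw [Function.update_of_ne hj]; exact hx j
    have h1 := hP (Function.update x i (a + d)) i hb (by rw [Function.update_self]; omega)
    rw [up, Function.update_self, Function.update_idem] at h1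
    exact h1

private theorem C1_step (lo hi : Fin n → ℕ) (P : (Fin n → ℕ) → Prop)
    (hP : ∀ x i, Bx lo hi x → x i < hi i → (P x ↔ P (up x i))) (x : Fin n → ℕ)
    (hx : Bx lo hi x) (i : Fin n) (b : ℕ) (hb : lo i ≤ b ∧ b ≤ hi i) :
    P x ↔ P (Function.update x i b) := by
  have h0 : Function.update x i (x i) = x := Function.update_eq_self i x
  have h1 := C1_one lo hi P hP x hx i (lo i) le_rfl (x i - lo i) (by have := hx i; omega)
  have h2 := C1_one lo hi P hP x hx i (lo i) le_rfl (b - lo i) (by omega)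
  rw [show lo i + (x i - lo i) = x i by have := hx i; omega, h0] at h1
  rw [show lo i + (b - lo i) = b by omega] at h2
  exact h1.symm.trans h2

theorem box_ind (lo hi : Fin n → ℕ) (P : (Fin n → ℕ) → Prop)
    (hP : ∀ x i, Bx lo hi x → x i < hi i → (P x ↔ P (up x i))) (x y : Fin n → ℕ)
    (hx : Bx lo hi x) (hy : Bx lo hi y) (h : P x) : P y := by
  classical
  have key : ∀ S : Finset (Fin n), P (fun j => if j ∈ S then y j else x j) := by
    intro S
    induction S using Finset.induction_on with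
    | empty => simpa using h
    | insert i S hiS ih =>
      have hb : Bx lo hi (fun j => if j ∈ S then y j else x j) := by
        intro j
        by_cases hj : j ∈ S
        · simp only [if_pos hj]; exact hy j
        · simp only [if_neg hj]; exact hx j
      have h1 := (C1_step lo hi P hP _ hb i (y i) (hy i)).1 ih
      have e : Function.update (fun j => if j ∈ S then y j else x j) i (y i) =
          fun j => if j ∈ insert i S then y j else x j := by
        funext j
        by_cases hj : j = i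
        · subst hj; simp
        · rw [Function.update_of_ne hj]; simp [Finset.mem_insert, hj]
      rwa [e] at h1
  have := key Finset.univ
  simpa using this
-- END C1

-- MODULE C2
theorem edge_ind (lo hi : Fin n → ℕ) (R : (Fin n → ℕ) → (Fin n → ℕ) → Prop)
    (hsym : ∀ x y, R x y → R y x)
    (hslide : ∀ x y z, Bx lo hi x → Bx lo hi y → Bx lo hi z → Adj x y → Adj y z → x ≠ z →
      R x y → R y z)
    (x y x' y' : Fin n → ℕ) (hx : Bx lo hi x) (hy : Bx lo hi y) (hx' : Bx lo hi x')
    (hy' : Bx lo hi y') (hxy : Adj x y) (hxy' : Adj x' y') (h : R x y) : R x' y' := by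
  have h1 : ∀ u v, Bx lo hi u → Bx lo hi v → Adj u v → R u v →
      ∀ w, Bx lo hi w → Adj v w → R v w := by
    intro u v hu hv huv hR w hw hvw
    by_cases huw : u = w
    · subst huw; exact hsym _ _ hR
    · exact hslide u v w hu hv hw huv hvw huw hR
  have hB : ∀ v, Bx lo hi v → ∀ w, Bx lo hi w → Adj v w → R v w := by
    intro v hv
    refine box_ind lo hi (fun v => ∀ w, Bx lo hi w → Adj v w → R v w) ?_ y v hy hv
      (h1 x y hx hy hxy h)
    intro u i hu hui
    have hup : Bx lo hi (up u i) := by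
      intro j
      by_cases hj : j = i
      · subst hj; rw [up, Function.update_self]; have := hu j; omega
      · rw [up, Function.update_of_ne hj]; exact hu j
    have hadj : Adj u (up u i) := Or.inl (Lt_up u i)
    constructor
    · intro hu2
      exact h1 u (up u i) hu hup hadj (hu2 _ hup hadj)
    · intro hu2
      exact h1 (up u i) u hup hu hadj.symm (hu2 _ hu hadj.symm)
  exact hB x' hx' y' hy' hxy'
-- END C2

/-- `c` is at distance at least two from `a` and `b`, on the same side, in some coordinate -/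
def Sp (a b c : Fin n → ℕ) : Prop :=
  ∃ i, (a i + 2 ≤ c i ∧ b i + 2 ≤ c i) ∨ (c i + 2 ≤ a i ∧ c i + 2 ≤ b i)

/-- the pairs `a, b` and `c, d` are separated in some coordinate -/
def SE (a b c d : Fin n → ℕ) : Prop :=
  ∃ i, (a i + 2 ≤ c i ∧ b i + 2 ≤ c i ∧ a i + 2 ≤ d i ∧ b i + 2 ≤ d i) ∨
    (c i + 2 ≤ a i ∧ c i + 2 ≤ b i ∧ d i + 2 ≤ a i ∧ d i + 2 ≤ b i)

theorem Sp.not_adj {a b c : Fin n → ℕ} (h : Sp a b c) :
    ¬ Adj c a ∧ ¬ Adj c b ∧ ¬ Adj a c ∧ ¬ Adj b c ∧ a ≠ c ∧ b ≠ c := by
  obtain ⟨i, hi⟩ := h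
  refine ⟨fun h1 => ?_, fun h1 => ?_, fun h1 => ?_, fun h1 => ?_, fun h1 => ?_, fun h1 => ?_⟩
  · have := h1.le i; omega
  · have := h1.le i; omega
  · have := h1.le i; omega
  · have := h1.le i; omega
  · subst h1; omega
  · subst h1; omega

theorem SE.symm {a b c d : Fin n → ℕ} (h : SE a b c d) : SE c d a b := by
  obtain ⟨i, hi⟩ := h
  exact ⟨i, by omega⟩

theorem SE.swap {a b c d : Fin n → ℕ} (h : SE a b c d) : SE b a c d := by
  obtain ⟨i, hi⟩ := h
  exact ⟨i, by omega⟩

-- MODULE C3
/-- For an edge a b and any w: w is separated from a, b, or some c separated from a, b is also separated from w together with a and with b. PROOF. Put i = ⟨0, _⟩ (n ≥ 2). If w i ≥ max (a i, b i) + 2 or w i + 2 ≤ min: first case (Sp with this i). Otherwise the three numbers a i, b i, w i have difference at most 2 (a i, b i differ by at most 1). If all are ≥ 2: c = 0 (c i + 2 ≤ all). Otherwise all are ≤ 3 (min ≤ 1): c = update 0 i 5 (in the box as l i ≥ 6). -/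
theorem choose_far {l : Fin n → ℕ} (hn : 2 ≤ n) (hl : ∀ i, 6 ≤ l i) (a b w : Fin n → ℕ)
    (hab : Adj a b) : Sp a b w ∨ ∃ c, Ind l c ∧ Sp a b c ∧ Sp b w c ∧ Sp a w c := by
  have hle := hab.le (⟨0, by omega⟩ : Fin n)
  by_cases h1 : (a ⟨0, by omega⟩ + 2 ≤ w ⟨0, by omega⟩ ∧ b ⟨0, by omega⟩ + 2 ≤ w ⟨0, by omega⟩) ∨
      (w ⟨0, by omega⟩ + 2 ≤ a ⟨0, by omega⟩ ∧ w ⟨0, by omega⟩ + 2 ≤ b ⟨0, by omega⟩)
  · exact Or.inl ⟨⟨0, by omega⟩, h1⟩
  · right
    by_cases h2 : 2 ≤ a ⟨0, by omega⟩ ∧ 2 ≤ b ⟨0, by omega⟩ ∧ 2 ≤ w ⟨0, by omega⟩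
    · refine ⟨0, fun j => ?_, ⟨⟨0, by omega⟩, Or.inr ?_⟩, ⟨⟨0, by omega⟩, Or.inr ?_⟩,
        ⟨⟨0, by omega⟩, Or.inr ?_⟩⟩
      · have := hl j
        show 0 < l j
        omega
      · simp only [Pi.zero_apply]; omega
      · simp only [Pi.zero_apply]; omega
      · simp only [Pi.zero_apply]; omega
    · refine ⟨Function.update 0 ⟨0, by omega⟩ 5, fun j => ?_, ⟨⟨0, by omega⟩, Or.inl ?_⟩,
        ⟨⟨0, by omega⟩, Or.inl ?_⟩, ⟨⟨0, by omega⟩, Or.inl ?_⟩⟩
      · have := hl j
        by_cases hj : j = (⟨0, by omega⟩ : Fin n)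
        · have := hl (⟨0, by omega⟩ : Fin n)
          rw [hj, Function.update_self]
          omega
        · rw [Function.update_of_ne hj, Pi.zero_apply]
          omega
      · rw [Function.update_self]; omega
      · rw [Function.update_self]; omega
      · rw [Function.update_self]; omega
-- END C3

end Pool.Agent.Lon
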