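import Pool.Agent.Lon.Rad

/-!
# Cyclic covers: the vanishing homology of `f + y ^ N`
-/

set_option autoImplicit false
set_option linter.all false

namespace Pool.Agent.Lon

universe u

variable {n : ℕ}

/-- one coordinate of `U` -/
noncomputable def uu (i j : ℕ) : ℂ := if i ≤ j ∧ j ≤ i + 1 then 1 else 0

theorem U_snoc (x y : Fin n → ℕ) (i j : ℕ) :
    U (Fin.snoc x i : Fin (n + 1) → ℕ) (Fin.snoc y j) = U x y * uu i j := by
  unfold U uu
  rw [ite_zero_mul_ite_zero, one_mul]
  congr 1
  rw [Fin.forall_fin_succ']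
  simp only [Fin.snoc_castSucc, Fin.snoc_last]

theorem cf_snoc (e : ℂ) (x y : Fin n → ℕ) (i j : ℕ) :
    cf e (Fin.snoc x i : Fin (n + 1) → ℕ) (Fin.snoc y j) =
      e * (U y x * uu j i) - U x y * uu i j := by
  rw [cf, U_snoc, U_snoc]

/-- alternating sums of powers -/
def cc (w : ℂ) : ℕ → ℂ
  | 0 => 1
  | i + 1 => w ^ (i + 1) - cc w i

theorem cc_eq (w : ℂ) (i : ℕ) : (1 + w) * cc w i = w ^ (i + 1) + (-1) ^ i := by
  induction i with
  | zero => simp [cc, add_comm]
  | succ i ih =>
    rw [cc, mul_sub, ih]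
    ring

theorem cc_zero {w : ℂ} {N : ℕ} (hN : 1 ≤ N) (h : (-w) ^ N = 1) (h1 : w ≠ -1) : cc w (N - 1) = 0 := by
  have h2 := cc_eq w (N - 1)
  have h3 : (1 + w) ≠ 0 := fun h => h1 (by linear_combination h)
  have h4 : w ^ (N - 1 + 1) + (-1) ^ (N - 1) = 0 := by
    obtain ⟨M, rfl⟩ : ∃ M, N = M + 1 := ⟨N - 1, by omega⟩
    rw [Nat.add_sub_cancel]
    rw [neg_pow] at h
    have h5 : (-1 : ℂ) ^ (M + 1) * (-1) ^ (M + 1) = 1 := by
      rw [← mul_pow]; norm_num
    have h6 : w ^ (M + 1) = (-1) ^ (M + 1) := by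
      calc w ^ (M + 1) = ((-1 : ℂ) ^ (M + 1) * (-1) ^ (M + 1)) * w ^ (M + 1) := by rw [h5, one_mul]
        _ = (-1 : ℂ) ^ (M + 1) * ((-1) ^ (M + 1) * w ^ (M + 1)) := by ring
        _ = _ := by rw [h, mul_one]
    rw [h6, pow_succ]
    ring
  rw [h4] at h2
  exact (mul_eq_zero.1 h2).resolve_left h3

variable {V : Type u} [AddCommGroup V] [Module ℂ V]

/-- the map -/
noncomputable def phi (w : ℂ) (v : (Fin n → ℕ) → V) : ((Fin (n + 1) → ℕ) →₀ ℂ) →ₗ[ℂ] V :=
  Finsupp.linearCombination ℂ fun z => w ^ z (Fin.last n) • v (Fin.init z)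

theorem phi_single (w : ℂ) (v : (Fin n → ℕ) → V) (x : Fin n → ℕ) (k : ℕ) (a : ℂ) :
    phi w v (Finsupp.single (Fin.snoc x k) a) = a • w ^ k • v x := by
  rw [phi, Finsupp.linearCombination_single]
  congr 2
  · rw [Fin.snoc_last]
  · rw [Fin.init_snoc]

theorem PL_apply (e : ℂ) (x : Fin n → ℕ) (a : (Fin n → ℕ) →₀ ℂ) :
    PL e x a = a + Finsupp.single x (Finsupp.linearCombination ℂ (cf e x) a) := by
  rw [PL, LinearMap.add_apply, Module.End.one_apply, LinearMap.comp_apply, Finsupp.lsingle_apply]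

theorem phi_prod (e w : ℂ) (v : (Fin n → ℕ) → V) (x : Fin n → ℕ) (M : ℕ) :
    ∀ a : (Fin (n + 1) → ℕ) →₀ ℂ,
    phi w v (((List.range M).map fun j => PL e (Fin.snoc x j)).prod a) =
      phi w v a + (∑ i ∈ Finset.range M, cc w i *
        Finsupp.linearCombination ℂ (cf e (Fin.snoc x i : Fin (n + 1) → ℕ)) a) • v x := by
  induction M with
  | zero => intro a; simp
  | succ M ih =>
    intro a
    rw [List.range_succ, List.map_append, List.prod_append, List.map_singleton,
      List.prod_singleton, Module.End.mul_apply, PL_apply, map_add, map_add, ih a, ih,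
      phi_single, Finset.sum_range_succ, add_smul, add_assoc]
    congr 2
    -- the coefficient
    set b := Finsupp.linearCombination ℂ (cf e (Fin.snoc x M : Fin (n + 1) → ℕ)) a with hb
    have h1 : ∑ i ∈ Finset.range M, cc w i *
        Finsupp.linearCombination ℂ (cf e (Fin.snoc x i : Fin (n + 1) → ℕ))
          (Finsupp.single (Fin.snoc x M) b) = b * (cc w M - w ^ M) := by
      have h2 : ∀ i ∈ Finset.range M, cc w i *
          Finsupp.linearCombination ℂ (cf e (Fin.snoc x i : Fin (n + 1) → ℕ))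
            (Finsupp.single (Fin.snoc x M) b) = if i + 1 = M then - (b * cc w i) else 0 := by
        intro i hi
        rw [Finset.mem_range] at hi
        rw [Finsupp.linearCombination_single, cf_snoc, U_self]
        unfold uu
        rw [if_neg (by omega)]
        split_ifs with h3 h4 h4
        · rw [smul_eq_mul]; ring
        · omega
        · omega
        · rw [smul_eq_mul]; ring
      rw [Finset.sum_congr rfl h2]
      cases M with
      | zero => simp [cc]
      | succ M =>
        rw [Finset.sum_eq_single_of_mem M (by simp)]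
        · rw [if_pos rfl, cc]; ring
        · intro i hi hne
          rw [if_neg (by omega)]
    rw [h1, smul_smul, ← add_smul]
    congr 1
    ring

theorem sum_uu_left (w : ℂ) {M k : ℕ} (hk : k < M) (hM : cc w M = 0) :
    ∑ i ∈ Finset.range M, cc w i * uu k i = w ^ (k + 1) := by
  have h1 : ∀ i ∈ Finset.range M, cc w i * uu k i =
      (if i = k then cc w i else 0) + if i = k + 1 then cc w i else 0 := by
    intro i _
    unfold uu
    split_ifs with h1 h2 h3 h3 <;> first | omega | simp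
  rw [Finset.sum_congr rfl h1, Finset.sum_add_distrib, Finset.sum_ite_eq', Finset.sum_ite_eq',
    if_pos (Finset.mem_range.2 hk)]
  have h2 : cc w (k + 1) = w ^ (k + 1) - cc w k := rfl
  split_ifs with h3
  · rw [h2]; ring
  · have h4 : k + 1 = M := by
      rw [Finset.mem_range] at h3
      omega
    rw [← h4, h2] at hM
    linear_combination -hM

theorem sum_uu_right (w : ℂ) {M k : ℕ} (hk : k < M) :
    ∑ i ∈ Finset.range M, cc w i * uu i k = w ^ k := by
  have h1 : ∀ i ∈ Finset.range M, cc w i * uu i k =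
      (if i = k then cc w i else 0) + if i + 1 = k then cc w i else 0 := by
    intro i _
    unfold uu
    split_ifs with h1 h2 h3 h3 <;> first | omega | simp
  rw [Finset.sum_congr rfl h1, Finset.sum_add_distrib, Finset.sum_ite_eq',
    if_pos (Finset.mem_range.2 hk)]
  cases k with
  | zero =>
    rw [Finset.sum_eq_zero]
    · simp [cc]
    · intro i _
      rw [if_neg (by omega)]
  | succ k =>
    rw [Finset.sum_eq_single_of_mem k (by rw [Finset.mem_range]; omega)]
    · rw [if_pos rfl, cc]; ring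
    · intro i _ hne
      rw [if_neg (by omega)]

/-- THE COLUMN. -/
theorem phi_col {e w : ℂ} {N : ℕ} (hN : 2 ≤ N) (hw : (-w) ^ N = 1) (hw1 : w ≠ -1)
    (v : (Fin n → ℕ) → V) (x y : Fin n → ℕ) {k : ℕ} (hk : k < N - 1) (a : ℂ) :
    phi w v (col e N x (Finsupp.single (Fin.snoc y k) a)) =
      a • w ^ k • (v y + cf (e * w) x y • v x) := by
  rw [col, phi_prod, phi_single]
  have hz := cc_zero (by omega) hw hw1
  have h1 : ∑ i ∈ Finset.range (N - 1), cc w i *
      Finsupp.linearCombination ℂ (cf e (Fin.snoc x i : Fin (n + 1) → ℕ))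
        (Finsupp.single (Fin.snoc y k) a) = a * w ^ k * cf (e * w) x y := by
    have h2 : ∀ i ∈ Finset.range (N - 1), cc w i *
        Finsupp.linearCombination ℂ (cf e (Fin.snoc x i : Fin (n + 1) → ℕ))
          (Finsupp.single (Fin.snoc y k) a) =
        a * e * U y x * (cc w i * uu k i) - a * U x y * (cc w i * uu i k) := by
      intro i _
      rw [Finsupp.linearCombination_single, cf_snoc, smul_eq_mul]
      ring
    rw [Finset.sum_congr rfl h2, Finset.sum_sub_distrib, ← Finset.mul_sum, ← Finset.mul_sum,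
      sum_uu_left w hk hz, sum_uu_right w hk, cf]
    ring
  rw [h1, smul_add, smul_add, smul_smul (w ^ k), smul_smul a (w ^ k * _), mul_assoc]

theorem Ind_snoc {l : Fin n → ℕ} {M : ℕ} {x : Fin n → ℕ} {k : ℕ} :
    Ind (Fin.snoc l M : Fin (n + 1) → ℕ) (Fin.snoc x k) ↔ Ind l x ∧ k < M := by
  unfold Ind
  rw [Fin.forall_fin_succ']
  simp only [Fin.snoc_castSucc, Fin.snoc_last]

theorem vanishing_of {G : Type*} [Group G] {l : Fin n → ℕ} {t : (Fin n → ℕ) → G}
    {ρ : G →* Module.End ℂ V} {lam q : ℂ} (hlam : ∃ r, 0 < r ∧ lam ^ r = 1)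
    (hq : ∃ r, 0 < r ∧ q ^ r = 1) {v : (Fin n → ℕ) → V}
    (hs : Submodule.span ℂ (v '' {x | Ind l x}) = ⊤)
    (hv : ∀ x y, Ind l x → Ind l y → ρ (t x) (v y) = lam • (v y + cf q x y • v x)) :
    Vanishing l t ρ := by
  obtain ⟨r, hr, hqr⟩ := hq
  obtain ⟨N, e, w, hN, he, hew, hw, hw1⟩ : ∃ (N : ℕ) (e w : ℂ), 2 ≤ N ∧ (e = 1 ∨ e = -1) ∧
      e * w = q ∧ (-w) ^ N = 1 ∧ w ≠ -1 := by
    by_cases h : q = -1
    · refine ⟨2, -1, 1, le_refl _, Or.inr rfl, ?_, by norm_num, by norm_num⟩
      rw [h]; norm_num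
    · refine ⟨2 * r, 1, q, by omega, Or.inl rfl, one_mul _, ?_, h⟩
      rw [pow_mul, neg_sq, ← pow_mul, mul_comm 2 r, pow_mul, hqr, one_pow]
  refine ⟨N, e, lam, phi w v, hN, he, hlam, ?_, ?_⟩
  · apply top_unique
    rw [← hs, Submodule.span_le]
    rintro _ ⟨x, hx, rfl⟩
    refine ⟨Finsupp.single (Fin.snoc x 0) 1, ?_, ?_⟩
    · exact Finsupp.single_mem_supported ℂ 1 (Ind_snoc.2 ⟨hx, by omega⟩)
    · rw [phi_single, pow_zero, one_smul, one_smul]
  · intro x hx a ha
    rw [HH, Finsupp.supported_eq_span_single] at ha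
    induction ha using Submodule.span_induction with
    | mem a ha =>
      obtain ⟨z, hz, rfl⟩ := ha
      have hz1 : z = Fin.snoc (Fin.init z) (z (Fin.last n)) := (Fin.snoc_init_self z).symm
      rw [Set.mem_setOf_eq, hz1, Ind_snoc] at hz
      dsimp only
      rw [hz1, phi_single, phi_col hN hw hw1 v x _ hz.2, one_smul, one_smul, map_smul,
        hv x _ hx hz.1, hew, smul_comm]
    | zero => simp
    | add a b _ _ ha hb => rw [map_add, map_add, map_add, map_add, ha, hb, smul_add]
    | smul c a _ ha => rw [map_smul, map_smul, map_smul, map_smul, ha, smul_comm]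

end Pool.Agent.Lon
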