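import Mathlib

/-!
# The group of Loenne attached to a Brieskorn-Pham singularity

Generators `t x`, `x` in the box `∏ {0, ..., l i - 1}`; `Lt x y`: `y - x` has coordinates `0`
or `1`, and is not `0`. Two generators satisfy the braid relation if they are adjacent
(`Lt x y` or `Lt y x`) and commute otherwise; every triangle gives one more relation.
-/

set_option autoImplicit false
set_option linter.all false

namespace Pool.Agent.Lon

universe u

variable {n : ℕ}

/-- all coordinates of `y - x` are `0` or `1`, and `x ≠ y` -/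
def Lt (x y : Fin n → ℕ) : Prop := x ≠ y ∧ ∀ i, x i ≤ y i ∧ y i ≤ x i + 1

/-- the index set: the box with sides `l` -/
def Ind (l x : Fin n → ℕ) : Prop := ∀ i, x i < l i

/-- `G` is generated by the `t x`, `x` in the box, and these satisfy the relations of Loenne -/
structure Lonne {G : Type*} [Group G] (l : Fin n → ℕ) (t : (Fin n → ℕ) → G) : Prop where
  comm : ∀ x y, Ind l x → Ind l y → ¬ Lt x y → ¬ Lt y x → t x * t y = t y * t x
  braid : ∀ x y, Ind l x → Ind l y → Lt x y → t x * t y * t x = t y * t x * t y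
  tri : ∀ x y z, Ind l x → Ind l y → Ind l z → Lt x y → Lt y z → Lt x z →
    t x * t y * t z * t x = t y * t z * t x * t y
  gen : Subgroup.closure {g | ∃ x, Ind l x ∧ g = t x} = ⊤

open Classical in
/-- `1` if all coordinates of `y - x` are `0` or `1`, otherwise `0` -/
noncomputable def U (x y : Fin n → ℕ) : ℂ := if ∀ i, x i ≤ y i ∧ y i ≤ x i + 1 then 1 else 0

/-- the coefficients of the reflection representation with parameter `q` -/
noncomputable def cf (q : ℂ) (x y : Fin n → ℕ) : ℂ := q * U y x - U x y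

/-- the points of the box -/
def pts (l : Fin n → ℕ) : Finset (Fin n → ℕ) := Fintype.piFinset fun i => Finset.range (l i)

/-- the Picard-Lefschetz transformation of the vanishing cycle `x`, on the space with basis
`ℕ ^ n`: `y ↦ y + (e * U y x - U x y) x` -/
noncomputable def PL (e : ℂ) (x : Fin n → ℕ) : Module.End ℂ ((Fin n → ℕ) →₀ ℂ) :=
  1 + (Finsupp.lsingle x).comp (Finsupp.linearCombination ℂ (cf e x))

/-- the product of the Picard-Lefschetz transformations of `(x, 0), (x, 1), ..., (x, N - 2)` -/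
noncomputable def col (e : ℂ) (N : ℕ) (x : Fin n → ℕ) :
    Module.End ℂ ((Fin (n + 1) → ℕ) →₀ ℂ) :=
  ((List.range (N - 1)).map fun j => PL e (Fin.snoc x j)).prod

/-- the space with basis the box with sides `l` and `N - 1` -/
noncomputable def HH (l : Fin n → ℕ) (N : ℕ) : Submodule ℂ ((Fin (n + 1) → ℕ) →₀ ℂ) :=
  Finsupp.supported ℂ ℂ {z | Ind (Fin.snoc l (N - 1)) z}

section rep

variable {G : Type*} [Group G] {V : Type u} [AddCommGroup V] [Module ℂ V]

/-- up to a character of finite order, the representation is a quotient of the space `HH l N` on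
which the generator `t x` acts by `col e N x` -/
def Vanishing (l : Fin n → ℕ) (t : (Fin n → ℕ) → G) (ρ : G →* Module.End ℂ V) : Prop :=
  ∃ (N : ℕ) (e lam : ℂ) (φ : ((Fin (n + 1) → ℕ) →₀ ℂ) →ₗ[ℂ] V), 2 ≤ N ∧ (e = 1 ∨ e = -1) ∧
    (∃ r, 0 < r ∧ lam ^ r = 1) ∧ (HH l N).map φ = ⊤ ∧
    ∀ x, Ind l x → ∀ a ∈ HH l N, ρ (t x) (φ a) = lam • φ (col e N x a)

/-- up to the factor `lam`, the representation is the reflection representation with parameter
`q`, with basis the points of the box and `t x : y ↦ y + cf q x y • x`, modulo its radical -/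
def Refl (l : Fin n → ℕ) (t : (Fin n → ℕ) → G) (ρ : G →* Module.End ℂ V) : Prop :=
  ∃ (lam q : ℂ) (v : (Fin n → ℕ) → V), lam ≠ 0 ∧ q ≠ 0 ∧
    Submodule.span ℂ (v '' {x | Ind l x}) = ⊤ ∧
    (∀ x y, Ind l x → Ind l y → ρ (t x) (v y) = lam • (v y + cf q x y • v x)) ∧
    ∀ a : (Fin n → ℕ) → ℂ, ∑ y ∈ pts l, a y • v y = 0 ↔
      ∀ x, Ind l x → ∑ y ∈ pts l, a y * cf q x y = 0

/-- `n = 1` (the braid group on `l + 1` strands): `t x` exchanges two of the lines of
`w 0, ..., w l` and is scalar on the others -/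
def Mono (l : Fin n → ℕ) (t : (Fin n → ℕ) → G) (ρ : G →* Module.End ℂ V) : Prop :=
  n = 1 ∧ ∃ (lam chi : ℂ) (w : ℕ → V), lam ≠ 0 ∧ chi ≠ 0 ∧ (∀ j, j ≤ ∑ i, l i → w j ≠ 0) ∧
    Submodule.span ℂ {v | ∃ j, j ≤ ∑ i, l i ∧ v = w j} = ⊤ ∧
    ∀ x, Ind l x → ∀ j, j ≤ ∑ i, l i → ρ (t x) (w j) =
      if j = ∑ i, x i then w (j + 1) else if j = ∑ i, x i + 1 then chi • w (j - 1) else lam • w j

/-- all eigenvalues of the generators are roots of unity -/
def QU (l : Fin n → ℕ) (t : (Fin n → ℕ) → G) (ρ : G →* Module.End ℂ V) : Prop :=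
  ∀ x, Ind l x → ∀ c : ℂ, (ρ (t x)).HasEigenvalue c → ∃ r, 0 < r ∧ c ^ r = 1

end rep

/-- the range of dimensions -/
def InRange (l : Fin n → ℕ) (d : ℕ) : Prop :=
  (∃ k m, 12 ≤ k ∧ 2 ≤ m ∧ 2 ^ (n - 1) * (m * k - 1) ≤ ∏ i, l i ∧
    2 * d < m * (m - 1) * (k - 2) ^ 2) ∨
  ∃ i0 s m, 11 ≤ s ∧ 2 ≤ m ∧ m * (s + 1) ≤ l i0 + 1 ∧
    2 * d < m * (m - 1) * ((s - 1) * ∏ i ∈ Finset.univ.erase i0, l i) ^ 2

/-- adjacent vertices -/
def Adj (x y : Fin n → ℕ) : Prop := Lt x y ∨ Lt y x

theorem Adj.symm {x y : Fin n → ℕ} (h : Adj x y) : Adj y x := Or.symm h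

theorem Adj.ne {x y : Fin n → ℕ} (h : Adj x y) : x ≠ y := by
  rcases h with h | h
  · exact h.1
  · exact h.1.symm

/-- adjacent points differ by at most one in each coordinate -/
theorem Adj.le {x y : Fin n → ℕ} (h : Adj x y) (i : Fin n) : x i ≤ y i + 1 ∧ y i ≤ x i + 1 := by
  rcases h with h | h
  · have := h.2 i; omega
  · have := h.2 i; omega

/-- `x` with the `i`-th coordinate increased by one -/
abbrev up (x : Fin n → ℕ) (i : Fin n) : Fin n → ℕ := Function.update x i (x i + 1)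

/-- `x` with the `i`-th coordinate decreased by one -/
abbrev dn (x : Fin n → ℕ) (i : Fin n) : Fin n → ℕ := Function.update x i (x i - 1)

theorem Lt_up (x : Fin n → ℕ) (i : Fin n) : Lt x (up x i) := by
  refine ⟨fun h => ?_, fun j => ?_⟩
  · have := congrFun h i
    simp [up] at this
  · by_cases hj : j = i
    · subst hj; simp [up]
    · simp [up, Function.update_of_ne hj]

theorem Lt_dn (x : Fin n → ℕ) (i : Fin n) (h : 0 < x i) : Lt (dn x i) x := by
  refine ⟨fun h' => ?_, fun j => ?_⟩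
  · have := congrFun h' i
    simp [dn] at this
    omega
  · by_cases hj : j = i
    · subst hj; simp [dn]; omega
    · simp [dn, Function.update_of_ne hj]

end Pool.Agent.Lon
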