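import Pool.Agent.Lon.Sep

/-!
# Distant generators act by a scalar on the augmentation spaces
-/

set_option autoImplicit false
set_option linter.all false

namespace Pool.Agent.Lon

open Pool.Agent.HG13

universe u

variable {n : ℕ} {G : Type*} [Group G] {l : Fin n → ℕ} {t : (Fin n → ℕ) → G}
  {V : Type u} [AddCommGroup V] [Module ℂ V]

/-- irreducible representation of dimension at least two, in which all separated pairs of edges
annihilate each other -/
structure Bas (l : Fin n → ℕ) (t : (Fin n → ℕ) → G) (π : G →* Module.End ℂ V) : Prop where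
  two : 2 ≤ n
  six : ∀ i, 6 ≤ l i
  lon : Lonne l t
  irr : Irr π
  dim : 2 ≤ Module.finrank ℂ V
  sep : ∀ a b c d, Ind l a → Ind l b → Ind l c → Ind l d → Adj a b → Adj c d → SE a b c d →
    PP t π a b c d

-- MODULE F1
private theorem F1_ind (hl : ∀ i, 6 ≤ l i) (x : Fin n → ℕ) :
    Bx (0 : Fin n → ℕ) (fun i => l i - 1) x ↔ Ind l x := by
  constructor
  · intro hx i
    have h1 := (hx i).2
    have h2 := hl i
    simp only at h1
    omega
  · intro hx i
    have h1 := hx i
    refine ⟨Nat.zero_le _, ?_⟩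
    show x i ≤ l i - 1
    omega

private theorem F1_up {x : Fin n → ℕ} (hx : Ind l x) (i : Fin n) (hi : x i + 1 < l i) :
    Ind l (up x i) := by
  intro j
  by_cases hj : j = i
  · subst hj
    simpa [up] using hi
  · simpa [up, Function.update_of_ne hj] using hx j

/-- PROOF. As QB54.stable_bot_top (Two.lean, TW1). -/
theorem stable_bot_top {π : G →* Module.End ℂ V} (h : Bas l t π) (W : Submodule ℂ V)
    (hW : ∀ x, Ind l x → ∀ w ∈ W, π (t x) w ∈ W) : W = ⊥ ∨ W = ⊤ := by
  have hfd : FiniteDimensional ℂ V := FiniteDimensional.of_finrank_pos (by have := h.dim; omega)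
  have key : ∀ x : G, (∀ w ∈ W, π x w ∈ W) ∧ ∀ w ∈ W, π x⁻¹ w ∈ W := by
    intro x
    have hx : x ∈ Subgroup.closure {g | ∃ x, Ind l x ∧ g = t x} := by
      rw [h.lon.gen]
      exact Subgroup.mem_top x
    induction hx using Subgroup.closure_induction with
    | mem x hx =>
      obtain ⟨i, hi, rfl⟩ := hx
      refine ⟨hW i hi, fun w hw => ?_⟩
      have hinj : Function.Injective ((π (t i)).restrict (hW i hi)) := by
        intro a b hab
        have h1 : π (t i) (a : V) = π (t i) (b : V) := congrArg Subtype.val hab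
        have h2 := congrArg (π (t i)⁻¹) h1
        rw [← Module.End.mul_apply, ← Module.End.mul_apply, ← map_mul, inv_mul_cancel, map_one,
          Module.End.one_apply, Module.End.one_apply] at h2
        exact Subtype.ext h2
      obtain ⟨w', hw'⟩ := LinearMap.surjective_of_injective hinj ⟨w, hw⟩
      have h1 : π (t i) (w' : V) = w := congrArg Subtype.val hw'
      rw [← h1, ← Module.End.mul_apply, ← map_mul, inv_mul_cancel, map_one, Module.End.one_apply]
      exact w'.2
    | one =>
      rw [inv_one, map_one]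
      exact ⟨fun w hw => hw, fun w hw => hw⟩
    | mul x y _ _ hx hy =>
      refine ⟨fun w hw => ?_, fun w hw => ?_⟩
      · rw [map_mul, Module.End.mul_apply]
        exact hx.1 _ (hy.1 _ hw)
      · rw [mul_inv_rev, map_mul, Module.End.mul_apply]
        exact hy.2 _ (hx.2 _ hw)
    | inv x _ hx =>
      rw [inv_inv]
      exact ⟨hx.2, hx.1⟩
  exact h.irr.2 W fun x => (key x).1

/-- The generators do not all act in the same way. PROOF. As QB54.not_all_equal (TW2): if adjacent generators act in the same way then all π (t x) are equal to π (t 0) (box_ind with lo = 0, hi = l - 1: P x := π (t x) = π (t 0)); an eigenspace of π (t 0) is stable, so everything is scalar, so a line is everything. -/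
theorem not_all_equal {π : G →* Module.End ℂ V} (h : Bas l t π)
    (he : ∀ x y, Ind l x → Ind l y → Adj x y → π (t x) = π (t y)) : False := by
  have hfd : FiniteDimensional ℂ V := FiniteDimensional.of_finrank_pos (by have := h.dim; omega)
  have hnt : Nontrivial V := h.irr.1
  have hz : Ind l (0 : Fin n → ℕ) := fun i => by
    have := h.six i
    show 0 < l i
    omega
  have h0 : ∀ x, Ind l x → π (t x) = π (t 0) := by
    intro x hx
    refine box_ind (0 : Fin n → ℕ) (fun i => l i - 1) (fun x => π (t x) = π (t 0)) ?_ 0 x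
      ((F1_ind h.six _).2 hz) ((F1_ind h.six _).2 hx) rfl
    intro y i hy hi
    have hy' := (F1_ind h.six _).1 hy
    have hi' : y i + 1 < l i := by
      have := h.six i
      omega
    have h2 := he y (up y i) hy' (F1_up hy' i hi') (Or.inl (Lt_up y i))
    rw [h2]
  obtain ⟨c, hc⟩ := Module.End.exists_eigenvalue (π (t 0))
  have h1 : Module.End.eigenspace (π (t 0)) c = ⊤ := by
    refine (stable_bot_top h _ fun i hi w hw => ?_).resolve_left hc
    rw [h0 i hi]
    have h2 := Module.End.mem_eigenspace_iff.1 hw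
    rw [h2]
    exact Submodule.smul_mem _ _ hw
  have h3 : ∀ i, Ind l i → ∀ v, π (t i) v = c • v := by
    intro i hi v
    rw [h0 i hi]
    refine Module.End.mem_eigenspace_iff.1 ?_
    rw [h1]
    exact Submodule.mem_top
  obtain ⟨v, hv⟩ := exists_ne (0 : V)
  have h4 : Submodule.span ℂ {v} = ⊤ := by
    refine (stable_bot_top h _ fun i hi w hw => ?_).resolve_left fun h5 => hv ?_
    · rw [h3 i hi]
      exact Submodule.smul_mem _ _ hw
    · have := Submodule.mem_span_singleton_self (R := ℂ) v
      rw [h5] at this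
      exact (Submodule.mem_bot ℂ).1 this
  have h5 := finrank_span_singleton (K := ℂ) hv
  rw [h4, finrank_top] at h5
  have := h.dim
  omega
-- END F1

/-- the augmentation space of the edge `a b` -/
def UU (t : (Fin n → ℕ) → G) (π : G →* Module.End ℂ V) (a b : Fin n → ℕ) : Submodule ℂ V :=
  Submodule.span ℂ {v | ∃ x ∈ KK (t a) (t b), ∃ u, v = π x u - u}

theorem UU_symm (π : G →* Module.End ℂ V) (a b : Fin n → ℕ) : UU t π a b = UU t π b a := by
  unfold UU
  rw [KK_symm]

-- MODULE F2
private theorem F2_aux (π : G →* Module.End ℂ V) {a b a' b' : Fin n → ℕ} {g : G}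
    (hg : ∀ x ∈ KK (t a) (t b), g * x * g⁻¹ ∈ KK (t a') (t b')) (u : V) (hu : u ∈ UU t π a b) :
    π g u ∈ UU t π a' b' := by
  have h : UU t π a b ≤ (UU t π a' b').comap (π g) := by
    refine Submodule.span_le.2 ?_
    rintro _ ⟨x, hx, v, rfl⟩
    change π g (π x v - v) ∈ UU t π a' b'
    have h1 : π g (π x v - v) = π (g * x * g⁻¹) (π g v) - π g v := by
      rw [map_sub, ← Module.End.mul_apply, ← map_mul, ← Module.End.mul_apply, ← map_mul,
        inv_mul_cancel_right]
    rw [h1]
    exact Submodule.subset_span ⟨_, hg x hx, _, rfl⟩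
  exact h hu

/-- PROOF. span_induction and KK_norm: π g (π x u - u) = π (g x g⁻¹) (π g u) - π g u, g = t w (as QB54 TW3, TW4). -/
theorem UU_same (h : Lonne l t) (π : G →* Module.End ℂ V) {a b w : Fin n → ℕ} (ha : Ind l a)
    (hb : Ind l b) (hw : Ind l w) (hc : w = a ∨ w = b ∨ (¬ Adj w a ∧ ¬ Adj w b)) (u : V)
    (hu : u ∈ UU t π a b) : π (t w) u ∈ UU t π a b := by
  refine F2_aux π (fun x hx => KK_norm (t a) (t b) (t w) ?_ x hx) u hu
  rcases hc with rfl | rfl | ⟨h1, h2⟩
  · exact Or.inl rfl
  · exact Or.inr (Or.inl rfl)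
  · exact Or.inr (Or.inr ⟨h.com hw ha h1, h.com hw hb h2⟩)

/-- PROOF. t w = κ * t b with κ = t w * (t b)⁻¹ ∈ KK (t b) (t w) (diff_mem_KK); v = π (t b) u ∈ UU a b (UU_same); π (t w) u = (π κ v - v) + v. -/
theorem UU_move (h : Lonne l t) (π : G →* Module.End ℂ V) {a b w : Fin n → ℕ} (ha : Ind l a)
    (hb : Ind l b) (hw : Ind l w) (hbw : Adj b w) (u : V)
    (hu : u ∈ UU t π a b) : π (t w) u ∈ UU t π a b ⊔ UU t π b w := by
  have hv := UU_same h π ha hb hb (Or.inr (Or.inl rfl)) u hu
  have hk := (diff_mem_KK (t b) (t w) (h.brd hb hw hbw)).2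
  have e : π (t w) u = (π (t w * (t b)⁻¹) (π (t b) u) - π (t b) u) + π (t b) u := by
    rw [sub_add_cancel, ← Module.End.mul_apply, ← map_mul, inv_mul_cancel_right]
  rw [e]
  exact Submodule.add_mem _ (Submodule.mem_sup_right (Submodule.subset_span ⟨_, hk, _, rfl⟩))
    (Submodule.mem_sup_left hv)

/-- PROOF. As QB54 TW6: UU a b ≤ ker (π y - 1), from PP c d a b. -/
theorem UU_fixed {π : G →* Module.End ℂ V} (h : Bas l t π) {a b c d : Fin n → ℕ} (ha : Ind l a)
    (hb : Ind l b) (hc : Ind l c) (hd : Ind l d) (hab : Adj a b) (hcd : Adj c d)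
    (hs : SE a b c d) (u : V) (hu : u ∈ UU t π a b) (y : G) (hy : y ∈ KK (t c) (t d)) :
    π y u = u := by
  have hP := h.sep c d a b hc hd ha hb hcd hab hs.symm
  have h1 : UU t π a b ≤ LinearMap.ker (π y - 1) := by
    refine Submodule.span_le.2 ?_
    rintro _ ⟨x, hx, v, rfl⟩
    exact LinearMap.mem_ker.2 (LinearMap.congr_fun (hP y hy x hx) v)
  exact sub_eq_zero.1 (LinearMap.mem_ker.1 (h1 hu))
-- END F2

-- MODULE F3
private theorem F3_eq {π : G →* Module.End ℂ V} (h : Lonne l t) {a b : Fin n → ℕ} (ha : Ind l a)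
    (hb : Ind l b) (hab : Adj a b) (hx : ∀ x ∈ KK (t a) (t b), π x = 1) :
    π (t a) = π (t b) := by
  have h1 := hx _ (diff_mem_KK (t a) (t b) (h.brd ha hb hab)).1
  have h2 : π (t a) = π (t a * (t b)⁻¹) * π (t b) := by
    rw [← map_mul, inv_mul_cancel_right]
  rw [h2, h1, one_mul]

/-- PROOF. (1) The sum of all UU a b (edges in the box) is stable under all π (t w) (UU_same, UU_move; w adjacent to a or b), so it is ⊥ or ⊤ (F1). If ⊥: π x = 1 for x ∈ KK (t a) (t b), so π (t a) = π (t b) for all edges (diff_mem_KK): contradiction to not_all_equal. (2) If π x = 1 for all x ∈ KK (t a) (t b) for one edge, then for all edges (edge_ind with lo = 0, hi = l - 1, R x y := ∀ g ∈ KK (t x) (t y), π g = 1; Lonne.slide and KK_conj), same contradiction. -/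
theorem UU_top {π : G →* Module.End ℂ V} (h : Bas l t π) :
    (∀ W : Submodule ℂ V, (∀ a b, Ind l a → Ind l b → Adj a b → UU t π a b ≤ W) → W = ⊤) ∧
    ∀ a b, Ind l a → Ind l b → Adj a b → ∃ x ∈ KK (t a) (t b), π x ≠ 1 := by
  constructor
  · intro W hW
    have hle : ∀ a b, Ind l a → Ind l b → Adj a b →
        UU t π a b ≤ ⨆ (a : Fin n → ℕ) (b : Fin n → ℕ) (_ : Ind l a ∧ Ind l b ∧ Adj a b),
          UU t π a b := fun a b ha hb hab =>
      le_iSup_of_le a (le_iSup_of_le b (le_iSup_of_le ⟨ha, hb, hab⟩ le_rfl))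
    have hst : ∀ w, Ind l w →
        ∀ v ∈ ⨆ (a : Fin n → ℕ) (b : Fin n → ℕ) (_ : Ind l a ∧ Ind l b ∧ Adj a b), UU t π a b,
        π (t w) v ∈ ⨆ (a : Fin n → ℕ) (b : Fin n → ℕ) (_ : Ind l a ∧ Ind l b ∧ Adj a b),
          UU t π a b := by
      intro w hw
      have h1 : (⨆ (a : Fin n → ℕ) (b : Fin n → ℕ) (_ : Ind l a ∧ Ind l b ∧ Adj a b), UU t π a b) ≤
          (⨆ (a : Fin n → ℕ) (b : Fin n → ℕ) (_ : Ind l a ∧ Ind l b ∧ Adj a b),
            UU t π a b).comap (π (t w)) := by
        refine iSup_le fun a => iSup_le fun b => iSup_le fun hab => ?_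
        obtain ⟨ha, hb, hab⟩ := hab
        intro u hu
        rw [Submodule.mem_comap]
        by_cases hc : w = a ∨ w = b ∨ (¬ Adj w a ∧ ¬ Adj w b)
        · exact hle a b ha hb hab (UU_same h.lon π ha hb hw hc u hu)
        · by_cases hwb : Adj w b
          · exact sup_le (hle a b ha hb hab) (hle b w hb hw hwb.symm)
              (UU_move h.lon π ha hb hw hwb.symm u hu)
          · have hwa : Adj w a := by
              by_contra h2
              exact hc (Or.inr (Or.inr ⟨h2, hwb⟩))
            rw [UU_symm] at hu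
            exact sup_le (hle b a hb ha hab.symm) (hle a w ha hw hwa.symm)
              (UU_move h.lon π hb ha hw hwa.symm u hu)
      exact fun v hv => h1 hv
    rcases stable_bot_top h _ hst with hb | ht
    · exfalso
      refine not_all_equal h fun x y hx hy hxy => F3_eq h.lon hx hy hxy fun g hg => ?_
      ext v
      have h1 := hle x y hx hy hxy (Submodule.subset_span ⟨g, hg, v, rfl⟩)
      rw [hb] at h1
      exact sub_eq_zero.1 ((Submodule.mem_bot ℂ).1 h1)
    · rw [eq_top_iff, ← ht]
      exact iSup_le fun a => iSup_le fun b => iSup_le fun hab => hW a b hab.1 hab.2.1 hab.2.2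
  · intro a b ha hb hab
    by_contra hcon
    push Not at hcon
    have hall : ∀ x y, Ind l x → Ind l y → Adj x y → ∀ g ∈ KK (t x) (t y), π g = 1 := by
      intro x y hx hy hxy
      refine edge_ind (0 : Fin n → ℕ) (fun i => l i - 1)
        (fun x y => ∀ g ∈ KK (t x) (t y), π g = 1) ?_ ?_ a b x y ((F1_ind h.six _).2 ha)
        ((F1_ind h.six _).2 hb) ((F1_ind h.six _).2 hx) ((F1_ind h.six _).2 hy) hab hxy hcon
      · intro x y h1 g hg
        rw [KK_symm] at hg
        exact h1 g hg
      · intro x y z hx hy hz hxy hyz _ h1 g hg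
        obtain ⟨k, -, k0, k1⟩ := h.lon.slide ((F1_ind h.six _).1 hx) ((F1_ind h.six _).1 hy)
          ((F1_ind h.six _).1 hz) hxy hyz
        have e : g = k * (k⁻¹ * g * k) * k⁻¹ := by group
        rw [e] at hg
        have h2 := h1 _ ((KK_conj (t x) (t y) (t y) (t z) k k0 k1 _).1 hg)
        rw [e, map_mul, map_mul, h2, mul_one, ← map_mul, mul_inv_cancel, map_one]
    exact not_all_equal h fun x y hx hy hxy => F3_eq h.lon hx hy hxy (hall x y hx hy hxy)
-- END F3

-- MODULE F4
private theorem F4_box {π : G →* Module.End ℂ V} (h : Bas l t π) {a b : Fin n → ℕ} (ha : Ind l a)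
    (hb : Ind l b) (hab : Adj a b) (lo hi : Fin n → ℕ) (hI : ∀ x, Bx lo hi x → Ind l x)
    (hS : ∀ x y, Bx lo hi x → Bx lo hi y → SE a b x y) (hSp : ∀ x, Bx lo hi x → Sp a b x)
    {c c' : Fin n → ℕ} (hc : Bx lo hi c) (hc' : Bx lo hi c') (u : V) (hu : u ∈ UU t π a b) :
    π (t c) u = π (t c') u := by
  refine (box_ind lo hi (fun x => π (t x) u = π (t c) u) ?_ c c' hc hc' rfl).symm
  intro x k hx hk
  have hx' : Bx lo hi (up x k) := by
    intro j
    by_cases hj : j = k
    · subst hj
      have := (hx j).1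
      simp only [up, Function.update_self]
      omega
    · simp only [up, Function.update_of_ne hj]
      exact hx j
  have key : π (t x) u = π (t (up x k)) u := by
    have hadj : Adj x (up x k) := Or.inl (Lt_up x k)
    have hk1 := (diff_mem_KK (t x) (t (up x k)) (h.lon.brd (hI x hx) (hI _ hx') hadj)).1
    have hn := (hSp _ hx').not_adj
    have hv := UU_same h.lon π ha hb (hI _ hx') (Or.inr (Or.inr ⟨hn.1, hn.2.1⟩)) u hu
    have hf := UU_fixed h ha hb (hI x hx) (hI _ hx') hab hadj (hS x _ hx hx') _ hv _ hk1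
    rw [← Module.End.mul_apply, ← map_mul, inv_mul_cancel_right] at hf
    exact hf
  rw [key]

private theorem F4_same {π : G →* Module.End ℂ V} (h : Bas l t π) {a b : Fin n → ℕ} (ha : Ind l a)
    (hb : Ind l b) (hab : Adj a b) (i : Fin n) {c c' : Fin n → ℕ} (hc : Ind l c) (hc' : Ind l c')
    (hcc : ((a i + 2 ≤ c i ∧ b i + 2 ≤ c i) ∧ (a i + 2 ≤ c' i ∧ b i + 2 ≤ c' i)) ∨
      ((c i + 2 ≤ a i ∧ c i + 2 ≤ b i) ∧ (c' i + 2 ≤ a i ∧ c' i + 2 ≤ b i)))
    (u : V) (hu : u ∈ UU t π a b) : π (t c) u = π (t c') u := by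
  rcases hcc with ⟨h1, h2⟩ | ⟨h1, h2⟩
  · have hB : ∀ x, Bx (Function.update (0 : Fin n → ℕ) i (max (a i) (b i) + 2))
        (fun j => l j - 1) x → Ind l x ∧ a i + 2 ≤ x i ∧ b i + 2 ≤ x i := by
      intro x hx
      refine ⟨fun j => ?_, ?_, ?_⟩
      · have h3 := (hx j).2
        have h4 := h.six j
        simp only at h3
        omega
      · have h3 := (hx i).1
        rw [Function.update_self] at h3
        omega
      · have h3 := (hx i).1
        rw [Function.update_self] at h3
        omega
    have hB' : ∀ x, Ind l x → a i + 2 ≤ x i → b i + 2 ≤ x i →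
        Bx (Function.update (0 : Fin n → ℕ) i (max (a i) (b i) + 2)) (fun j => l j - 1) x := by
      intro x hx h3 h4 j
      refine ⟨?_, ?_⟩
      · by_cases hj : j = i
        · subst hj
          rw [Function.update_self]
          omega
        · rw [Function.update_of_ne hj]
          exact Nat.zero_le _
      · have := hx j
        simp only
        omega
    exact F4_box h ha hb hab _ _ (fun x hx => (hB x hx).1)
      (fun x y hx hy => ⟨i, Or.inl ⟨(hB x hx).2.1, (hB x hx).2.2, (hB y hy).2.1, (hB y hy).2.2⟩⟩)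
      (fun x hx => ⟨i, Or.inl (hB x hx).2⟩) (hB' c hc h1.1 h1.2) (hB' c' hc' h2.1 h2.2) u hu
  · have hB : ∀ x, Bx (0 : Fin n → ℕ)
        (Function.update (fun j => l j - 1) i (min (a i) (b i) - 2)) x →
        Ind l x ∧ x i + 2 ≤ a i ∧ x i + 2 ≤ b i := by
      intro x hx
      have h5 := (hx i).2
      rw [Function.update_self] at h5
      refine ⟨fun j => ?_, ?_, ?_⟩
      · by_cases hj : j = i
        · subst hj
          have := ha j
          omega
        · have h3 := (hx j).2
          have h4 := h.six j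
          rw [Function.update_of_ne hj] at h3
          omega
      · omega
      · omega
    have hB' : ∀ x, Ind l x → x i + 2 ≤ a i → x i + 2 ≤ b i →
        Bx (0 : Fin n → ℕ) (Function.update (fun j => l j - 1) i (min (a i) (b i) - 2)) x := by
      intro x hx h3 h4 j
      refine ⟨Nat.zero_le _, ?_⟩
      by_cases hj : j = i
      · subst hj
        rw [Function.update_self]
        omega
      · rw [Function.update_of_ne hj]
        have := hx j
        omega
    exact F4_box h ha hb hab _ _ (fun x hx => (hB x hx).1)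
      (fun x y hx hy => ⟨i, Or.inr ⟨(hB x hx).2.1, (hB x hx).2.2, (hB y hy).2.1, (hB y hy).2.2⟩⟩)
      (fun x hx => ⟨i, Or.inr (hB x hx).2⟩) (hB' c hc h1.1 h1.2) (hB' c' hc' h2.1 h2.2) u hu

private theorem F4_diff {π : G →* Module.End ℂ V} (h : Bas l t π) {a b : Fin n → ℕ} (ha : Ind l a)
    (hb : Ind l b) (hab : Adj a b) (i j : Fin n) (hij : i ≠ j) {c c' : Fin n → ℕ} (hc : Ind l c)
    (hc' : Ind l c') (h1 : (a i + 2 ≤ c i ∧ b i + 2 ≤ c i) ∨ (c i + 2 ≤ a i ∧ c i + 2 ≤ b i))
    (h2 : (a j + 2 ≤ c' j ∧ b j + 2 ≤ c' j) ∨ (c' j + 2 ≤ a j ∧ c' j + 2 ≤ b j))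
    (u : V) (hu : u ∈ UU t π a b) : π (t c) u = π (t c') u := by
  have e1 : Function.update c' i (c i) i = c i := Function.update_self _ _ _
  have e2 : Function.update c' i (c i) j = c' j := Function.update_of_ne hij.symm _ _
  have hI : Ind l (Function.update c' i (c i)) := by
    intro k
    by_cases hk : k = i
    · subst hk
      rw [Function.update_self]
      exact hc k
    · rw [Function.update_of_ne hk]
      exact hc' k
  rw [F4_same h ha hb hab i hc hI (by rw [e1]; omega) u hu]
  exact F4_same h ha hb hab j hI hc' (by rw [e2]; omega) u hu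

private theorem F4_pt (hl : ∀ i, 6 ≤ l i) {a b : Fin n → ℕ} (hab : Adj a b) (j : Fin n) :
    ∃ c, Ind l c ∧ ((a j + 2 ≤ c j ∧ b j + 2 ≤ c j) ∨ (c j + 2 ≤ a j ∧ c j + 2 ≤ b j)) := by
  by_cases h1 : 2 ≤ a j ∧ 2 ≤ b j
  · refine ⟨0, fun i => ?_, Or.inr ?_⟩
    · have := hl i
      show 0 < l i
      omega
    · show 0 + 2 ≤ a j ∧ 0 + 2 ≤ b j
      omega
  · refine ⟨Function.update (0 : Fin n → ℕ) j 4, fun i => ?_, Or.inl ?_⟩
    · have := hl i
      by_cases hi : i = j
      · subst hi
        rw [Function.update_self]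
        omega
      · rw [Function.update_of_ne hi]
        show 0 < l i
        omega
    · have := hab.le j
      rw [Function.update_self]
      omega

/-- All generators separated from the edge a b act in the same way on UU a b. PROOF. (1) c, c' on the same side in coordinate i (say above: s = max (a i) (b i) + 2 ≤ c i, c' i): box_ind with lo = update 0 i s, hi = l - 1, P x := ∀ u ∈ UU a b, π (t x) u = π (t c) u: x and up x k are adjacent, both in the box, SE a b x (up x k), κ = t x * (t (up x k))⁻¹ ∈ KK (t x) (t (up x k)) fixes UU a b (UU_fixed) and v = π (t (up x k)) u ∈ UU a b (UU_same), so π (t x) u = π κ v = v. The same below (hi = update (l-1) i (min - 2)).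
(2) c separated in coordinate i, c' in coordinate j ≠ i: c'' = update c' i (c i) is on the side of c in coordinate i and on the side of c' in coordinate j. (3) i = j, c above and c' below: choose j ≠ i (n ≥ 2) and a point c'' on one side in coordinate j (a j, b j differ by at most 1 and l j ≥ 6: update 0 j 0 if both ≥ 2, otherwise both ≤ 2, update 0 j 4), use (2) twice. -/
theorem agree {π : G →* Module.End ℂ V} (h : Bas l t π) {a b c c' : Fin n → ℕ} (ha : Ind l a)
    (hb : Ind l b) (hc : Ind l c) (hc' : Ind l c') (hab : Adj a b) (h1 : Sp a b c)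
    (h2 : Sp a b c') (u : V) (hu : u ∈ UU t π a b) : π (t c) u = π (t c') u := by
  obtain ⟨i, h1⟩ := h1
  obtain ⟨j, h2⟩ := h2
  by_cases hij : i = j
  · subst hij
    by_cases hsame : (((a i + 2 ≤ c i ∧ b i + 2 ≤ c i) ∧ (a i + 2 ≤ c' i ∧ b i + 2 ≤ c' i)) ∨
        ((c i + 2 ≤ a i ∧ c i + 2 ≤ b i) ∧ (c' i + 2 ≤ a i ∧ c' i + 2 ≤ b i)))
    · exact F4_same h ha hb hab i hc hc' hsame u hu
    · haveI : Nontrivial (Fin n) := Fin.nontrivial_iff_two_le.mpr h.two
      obtain ⟨j, hj⟩ := exists_ne i
      obtain ⟨c2, hc2, h3⟩ := F4_pt h.six hab j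
      rw [F4_diff h ha hb hab i j hj.symm hc hc2 h1 h3 u hu]
      exact (F4_diff h ha hb hab i j hj.symm hc' hc2 h2 h3 u hu).symm
  · exact F4_diff h ha hb hab i j hij hc hc' h1 h2 u hu
-- END F4

-- MODULE F5
/-- PROOF. As QB54.graph_scalar (TW9). -/
theorem graph_scalar {π : G →* Module.End ℂ V} (h : Bas l t π) (X : Submodule ℂ (V × V))
    (hX : ∀ x, Ind l x → ∀ p ∈ X, (π (t x) p.1, π (t x) p.2) ∈ X)
    (h1 : ∀ v, ∃ v', (v, v') ∈ X) (hd : Module.finrank ℂ X < 2 * Module.finrank ℂ V) :
    ∃ lam : ℂ, ∀ p ∈ X, p.2 = lam • p.1 := by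
  haveI : FiniteDimensional ℂ V := FiniteDimensional.of_finrank_pos (by have := h.dim; omega)
  haveI : Nontrivial V := Module.nontrivial_of_finrank_pos (R := ℂ) (by have := h.dim; omega)
  have hY : X.comap (LinearMap.inr ℂ V V) = ⊥ := by
    rcases stable_bot_top h (X.comap (LinearMap.inr ℂ V V)) (by
      intro i hi w hw
      have h2 := hX i hi _ hw
      simp only [LinearMap.inr_apply, map_zero] at h2
      exact h2) with h2 | h2
    · exact h2
    · exfalso
      have h3 : X = ⊤ := by
        rw [eq_top_iff]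
        rintro ⟨a, b⟩ -
        obtain ⟨b', hb'⟩ := h1 a
        have h4 : (0, b - b') ∈ X := by
          have h5 : b - b' ∈ X.comap (LinearMap.inr ℂ V V) := by rw [h2]; trivial
          exact h5
        have h5 := X.add_mem hb' h4
        rw [Prod.mk_add_mk, add_zero, add_sub_cancel] at h5
        exact h5
      rw [h3, finrank_top, Module.finrank_prod] at hd
      omega
  have huniq : ∀ v a b, (v, a) ∈ X → (v, b) ∈ X → a = b := by
    intro v a b ha hb
    have h2 := X.sub_mem ha hb
    rw [Prod.mk_sub_mk, sub_self] at h2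
    have h3 : a - b ∈ X.comap (LinearMap.inr ℂ V V) := h2
    rw [hY, Submodule.mem_bot] at h3
    exact sub_eq_zero.1 h3
  choose f hf using h1
  let T : V →ₗ[ℂ] V :=
    { toFun := f
      map_add' := fun v w => huniq _ _ _ (hf _) (X.add_mem (hf v) (hf w))
      map_smul' := fun r v => huniq _ _ _ (hf _) (X.smul_mem r (hf v)) }
  have hT : ∀ v, T v = f v := fun _ => rfl
  have hcomm : ∀ i, Ind l i → ∀ v, T (π (t i) v) = π (t i) (T v) := fun i hi v =>
    huniq _ _ _ (hf _) (hX i hi _ (hf v))
  obtain ⟨lam, hlam⟩ := Module.End.exists_eigenvalue T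
  have hE : Module.End.eigenspace T lam = ⊤ := by
    rcases stable_bot_top h (Module.End.eigenspace T lam) (by
      intro i hi w hw
      rw [Module.End.mem_eigenspace_iff] at hw ⊢
      rw [hcomm i hi, hw, map_smul]) with h2 | h2
    · exact absurd h2 hlam
    · exact h2
  refine ⟨lam, ?_⟩
  rintro ⟨a, b⟩ hp
  have h2 : a ∈ Module.End.eigenspace T lam := by rw [hE]; trivial
  rw [Module.End.mem_eigenspace_iff] at h2
  rw [← h2]
  exact huniq _ _ _ hp (hf a)
-- END F5

-- MODULE F6
/-- The map `v ↦ (v, π (t c) v)`. -/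
private def F6_L (t : (Fin n → ℕ) → G) (π : G →* Module.End ℂ V) (c : Fin n → ℕ) :
    V →ₗ[ℂ] V × V :=
  LinearMap.prod LinearMap.id (π (t c))

private theorem F6_L_apply (π : G →* Module.End ℂ V) (c : Fin n → ℕ) (v : V) :
    F6_L t π c v = (v, π (t c) v) := rfl

/-- The subspace. -/
private def F6_X (l : Fin n → ℕ) (t : (Fin n → ℕ) → G) (π : G →* Module.End ℂ V) :
    Submodule ℂ (V × V) :=
  ⨆ (a : Fin n → ℕ) (b : Fin n → ℕ) (c : Fin n → ℕ)
    (_ : Ind l a ∧ Ind l b ∧ Ind l c ∧ Adj a b ∧ Sp a b c), (UU t π a b).map (F6_L t π c)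

private theorem F6_mem (π : G →* Module.End ℂ V) {a b c : Fin n → ℕ} (ha : Ind l a)
    (hb : Ind l b) (hc : Ind l c) (hab : Adj a b) (hs : Sp a b c) (u : V)
    (hu : u ∈ UU t π a b) : F6_L t π c u ∈ F6_X l t π := by
  refine Submodule.mem_iSup_of_mem a (Submodule.mem_iSup_of_mem b (Submodule.mem_iSup_of_mem c
    (Submodule.mem_iSup_of_mem ⟨ha, hb, hc, hab, hs⟩ ?_)))
  exact Submodule.mem_map_of_mem hu

private theorem F6_le (π : G →* Module.End ℂ V) (W : Submodule ℂ (V × V))
    (hW : ∀ a b c, Ind l a → Ind l b → Ind l c → Adj a b → Sp a b c → ∀ u ∈ UU t π a b,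
      F6_L t π c u ∈ W) : F6_X l t π ≤ W := by
  refine iSup_le fun a => iSup_le fun b => iSup_le fun c => iSup_le fun hh => ?_
  rintro _ ⟨u, hu, rfl⟩
  exact hW a b c hh.1 hh.2.1 hh.2.2.1 hh.2.2.2.1 hh.2.2.2.2 u hu

private theorem F6_stab {π : G →* Module.End ℂ V} (h : Bas l t π) (w : Fin n → ℕ) (hw : Ind l w)
    (p : V × V) (hp : p ∈ F6_X l t π) : (π (t w) p.1, π (t w) p.2) ∈ F6_X l t π := by
  have hcm : ∀ a b v, t a * t b = t b * t a → π (t a) (π (t b) v) = π (t b) (π (t a) v) := by
    intro a b v hab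
    rw [← Module.End.mul_apply, ← map_mul, hab, map_mul, Module.End.mul_apply]
  have key : F6_X l t π ≤ (F6_X l t π).comap ((π (t w)).prodMap (π (t w))) := by
    refine F6_le π _ ?_
    intro a b c ha hb hc hab hs u hu
    rw [Submodule.mem_comap]
    have hL : ∀ c', Ind l c' → Sp a b c' → F6_L t π c u = F6_L t π c' u := by
      intro c' hc' h2
      rw [F6_L_apply, F6_L_apply, agree h ha hb hc hc' hab hs h2 u hu]
    have hM : ∀ c', t w * t c' = t c' * t w →
        (π (t w)).prodMap (π (t w)) (F6_L t π c' u) = F6_L t π c' (π (t w) u) := by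
      intro c' hcc
      rw [F6_L_apply, F6_L_apply, LinearMap.prodMap_apply]
      simp only
      rw [hcm w c' u hcc]
    rcases choose_far h.two h.six a b w hab with h1 | ⟨c', hc', s1, s2, s3⟩
    · rw [hL w hw h1, hM w rfl]
      have hn := h1.not_adj
      exact F6_mem π ha hb hw hab h1 _
        (UU_same h.lon π ha hb hw (Or.inr (Or.inr ⟨hn.1, hn.2.1⟩)) u hu)
    · have hcc : t w * t c' = t c' * t w := h.lon.com hw hc' s2.not_adj.2.2.2.1
      rw [hL c' hc' s1, hM c' hcc]
      by_cases hq : w = a ∨ w = b ∨ (¬ Adj w a ∧ ¬ Adj w b)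
      · exact F6_mem π ha hb hc' hab s1 _ (UU_same h.lon π ha hb hw hq u hu)
      · by_cases hwb : Adj w b
        · obtain ⟨p, hp, q, hq, hpq⟩ := Submodule.mem_sup.1
            (UU_move h.lon π ha hb hw hwb.symm u hu)
          rw [← hpq, map_add]
          exact Submodule.add_mem _ (F6_mem π ha hb hc' hab s1 _ hp)
            (F6_mem π hb hw hc' hwb.symm s2 _ hq)
        · have hwa : Adj w a := by
            by_contra h2
            exact hq (Or.inr (Or.inr ⟨h2, hwb⟩))
          rw [UU_symm] at hu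
          obtain ⟨p, hp, q, hq, hpq⟩ := Submodule.mem_sup.1
            (UU_move h.lon π hb ha hw hwa.symm u hu)
          rw [UU_symm] at hp
          rw [← hpq, map_add]
          exact Submodule.add_mem _ (F6_mem π ha hb hc' hab s1 _ hp)
            (F6_mem π ha hw hc' hwa.symm s3 _ hq)
  exact key hp

/-- PROOF (as QB54 TW10). X = sum over the edges a b and the c with Sp a b c (all in the box) of the image of UU a b under v ↦ (v, π (t c) v). Stable under t w: let u ∈ UU a b, Sp a b c. C3: (i) Sp a b w: by `agree` replace c by w; π (t w) u ∈ UU a b (UU_same, w not adjacent to a, b), image = (u', π (t w) u'). (ii) otherwise c' with Sp a b c', Sp b w c', Sp a w c': replace c by c' (agree); t w, t c' commute (c' not adjacent to w and ≠ w by Sp b w c'). If w = a or w = b or w not adjacent to both: UU_same. If Adj b w: π (t w) u = p + q, p ∈ UU a b, q ∈ UU b w (UU_move), (p, π (t c') p) + (q, π (t c') q) ∈ X. If Adj a w: the same with UU b a = UU a b (UU_symm).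
Dimension: i0 = coordinate 0, j = coordinate 1 (n ≥ 2); a0 = 0, b0 = update 0 j 1, x ∈ KK (t a0) (t b0) with π x ≠ 1 (F3). For an edge a b: if a i0, b i0 ≥ 2 then SE a0 b0 a b (coordinate i0), so UU a b ≤ ker (π x - 1) (UU_fixed) and Sp a b a0: the elements are (u, π (t a0) u) with u ∈ ker (π x - 1). Otherwise a i0, b i0 ≤ 2 and Sp a b c0 with c0 = update 0 i0 4: elements (u, π (t c0) u). So X ≤ map of ⊤ + map of ker (π x - 1), dimension < 2 dim V. First projection of X is ⊤ by F3 (1) (for an edge a b there is a separated c: 0 or c0). F5. -/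
theorem far_scalar {π : G →* Module.End ℂ V} (h : Bas l t π) :
    ∃ lam : ℂ, ∀ a b c, Ind l a → Ind l b → Ind l c → Adj a b → Sp a b c → ∀ u ∈ UU t π a b,
      π (t c) u = lam • u := by
  haveI : FiniteDimensional ℂ V := FiniteDimensional.of_finrank_pos (by have := h.dim; omega)
  obtain ⟨i0, j0, hij⟩ : ∃ i j : Fin n, i ≠ j :=
    ⟨⟨0, by have := h.two; omega⟩, ⟨1, by have := h.two; omega⟩, by simp⟩
  have hI0 : Ind l (0 : Fin n → ℕ) := fun i => by
    have := h.six i
    show 0 < l i
    omega
  have hIu : ∀ (j : Fin n) (a : ℕ), a ≤ 4 → Ind l (Function.update (0 : Fin n → ℕ) j a) := by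
    intro j a ha i
    have := h.six i
    by_cases hi : i = j
    · subst hi
      rw [Function.update_self]
      omega
    · rw [Function.update_of_ne hi]
      exact hI0 i
  have hA0 : Adj (0 : Fin n → ℕ) (Function.update (0 : Fin n → ℕ) j0 1) := Or.inl (Lt_up 0 j0)
  obtain ⟨x, hx, hx1⟩ := (UU_top h).2 _ _ hI0 (hIu j0 1 (by omega)) hA0
  have e0 : (Function.update (0 : Fin n → ℕ) j0 1) i0 = 0 := by
    rw [Function.update_of_ne hij]
    rfl
  have hQ : ∀ a b, Ind l a → Ind l b → Adj a b → 2 ≤ a i0 → 2 ≤ b i0 →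
      UU t π a b ≤ LinearMap.ker (π x - 1) := by
    intro a b ha hb hab h2 h3 u hu
    have hs : SE a b 0 (Function.update (0 : Fin n → ℕ) j0 1) := by
      refine ⟨i0, Or.inr ?_⟩
      rw [e0]
      show 0 + 2 ≤ a i0 ∧ 0 + 2 ≤ b i0 ∧ 0 + 2 ≤ a i0 ∧ 0 + 2 ≤ b i0
      omega
    rw [LinearMap.mem_ker, LinearMap.sub_apply, Module.End.one_apply,
      UU_fixed h ha hb hI0 (hIu j0 1 (by omega)) hab hA0 hs u hu x hx, sub_self]
  have hQt : LinearMap.ker (π x - 1) < ⊤ := by
    rw [lt_top_iff_ne_top]
    intro h2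
    rw [LinearMap.ker_eq_top, sub_eq_zero] at h2
    exact hx1 h2
  have hXle : F6_X l t π ≤
      (⊤ : Submodule ℂ V).map (F6_L t π (Function.update (0 : Fin n → ℕ) i0 4)) ⊔
      (LinearMap.ker (π x - 1)).map (F6_L t π 0) := by
    refine F6_le π _ ?_
    intro a b c ha hb hc hab hs u hu
    by_cases h2 : 2 ≤ a i0 ∧ 2 ≤ b i0
    · have hs' : Sp a b 0 := ⟨i0, Or.inr h2⟩
      refine Submodule.mem_sup_right ⟨u, hQ a b ha hb hab h2.1 h2.2 hu, ?_⟩
      rw [F6_L_apply, F6_L_apply, agree h ha hb hc hI0 hab hs hs' u hu]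
    · have hs' : Sp a b (Function.update (0 : Fin n → ℕ) i0 4) := by
        refine ⟨i0, Or.inl ?_⟩
        have := hab.le i0
        rw [Function.update_self]
        omega
      refine Submodule.mem_sup_left ⟨u, trivial, ?_⟩
      rw [F6_L_apply, F6_L_apply, agree h ha hb hc (hIu i0 4 le_rfl) hab hs hs' u hu]
  have hd : Module.finrank ℂ (F6_X l t π) < 2 * Module.finrank ℂ V := by
    have d1 := Submodule.finrank_mono hXle
    have d2 := Submodule.finrank_add_le_finrank_add_finrank
      ((⊤ : Submodule ℂ V).map (F6_L t π (Function.update (0 : Fin n → ℕ) i0 4)))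
      ((LinearMap.ker (π x - 1)).map (F6_L t π 0))
    have d3 := Submodule.finrank_map_le (F6_L t π (Function.update (0 : Fin n → ℕ) i0 4))
      (⊤ : Submodule ℂ V)
    have d4 := Submodule.finrank_map_le (F6_L t π 0) (LinearMap.ker (π x - 1))
    have d5 := Submodule.finrank_lt hQt.ne
    rw [finrank_top] at d3
    omega
  obtain ⟨lam, hlam⟩ := graph_scalar h (F6_X l t π)
    (fun w hw p hp => F6_stab h w hw p hp) (by
      intro v
      have h2 : (F6_X l t π).map (LinearMap.fst ℂ V V) = ⊤ := by
        refine (UU_top h).1 _ ?_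
        intro a b ha hb hab u hu
        obtain ⟨c, hc, h3⟩ := F4_pt h.six hab i0
        exact ⟨_, F6_mem π ha hb hc hab ⟨i0, h3⟩ u hu, rfl⟩
      have h3 : v ∈ (F6_X l t π).map (LinearMap.fst ℂ V V) := by rw [h2]; trivial
      obtain ⟨⟨a, b⟩, hp, hab⟩ := h3
      refine ⟨b, ?_⟩
      have h4 : a = v := hab
      rw [← h4]
      exact hp) hd
  refine ⟨lam, fun a b c ha hb hc hab hs u hu => ?_⟩
  exact hlam _ (F6_mem π ha hb hc hab hs u hu)
-- END F6

/-- `π g - lam` -/
def nn (π : G →* Module.End ℂ V) (lam : ℂ) (g : G) : Module.End ℂ V := π g - lam • 1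

-- MODULE F7
private theorem F7_conj (π : G →* Module.End ℂ V) (lam : ℂ) {p q p' q' g : G}
    (h0 : g * p = p' * g) (h1 : g * q = q' * g) (hz : nn π lam p * nn π lam q = 0) :
    nn π lam p' * nn π lam q' = 0 := by
  have key : ∀ a b, g * a = b * g → π g * nn π lam a = nn π lam b * π g := by
    intro a b hab
    unfold nn
    rw [mul_sub, sub_mul, ← map_mul, hab, map_mul, mul_smul_comm, smul_mul_assoc, mul_one, one_mul]
  have h2 : nn π lam p' * nn π lam q' * π g = 0 := by
    rw [mul_assoc, ← key q q' h1, ← mul_assoc, ← key p p' h0, mul_assoc, hz, mul_zero]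
  calc nn π lam p' * nn π lam q' = nn π lam p' * nn π lam q' * (π g * π g⁻¹) := by
        rw [← map_mul, mul_inv_cancel, map_one, mul_one]
    _ = 0 := by rw [← mul_assoc, h2, zero_mul]

private theorem F7_comm (π : G →* Module.End ℂ V) (lam : ℂ) {p q : G} (h : p * q = q * p) :
    nn π lam p * nn π lam q = nn π lam q * nn π lam p := by
  have h1 : π p * π q = π q * π p := by rw [← map_mul, h, map_mul]
  unfold nn
  rw [sub_mul, mul_sub, mul_sub, sub_mul, mul_sub, mul_sub, h1]
  simp only [mul_smul_comm, smul_mul_assoc, mul_one, one_mul]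
  abel

private theorem F7_imp (h : Lonne l t) {x x' y : Fin n → ℕ} (hx : Ind l x) (hx' : Ind l x')
    (hy : Ind l y) (hxx : Adj x x') (h1 : ¬ Adj x y) (h2 : ¬ Adj x' y) :
    t x * t x' * t x = t x' * (t x * t x') ∧ t x * t x' * t y = t y * (t x * t x') := by
  refine ⟨?_, ?_⟩
  · rw [h.brd hx hx' hxx, mul_assoc]
  · rw [mul_assoc, h.com hx' hy h2, ← mul_assoc, h.com hx hy h1, mul_assoc]

private theorem F7_left (h : Lonne l t) (π : G →* Module.End ℂ V) (lam : ℂ)
    {x x' y : Fin n → ℕ} (hx : Ind l x) (hx' : Ind l x') (hy : Ind l y) (hxx : Adj x x')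
    (h1 : ¬ Adj x y) (h2 : ¬ Adj x' y) :
    nn π lam (t x) * nn π lam (t y) = 0 ↔ nn π lam (t x') * nn π lam (t y) = 0 := by
  constructor
  · obtain ⟨e1, e2⟩ := F7_imp h hx hx' hy hxx h1 h2
    exact F7_conj π lam e1 e2
  · obtain ⟨e1, e2⟩ := F7_imp h hx' hx hy hxx.symm h2 h1
    exact F7_conj π lam e1 e2

private theorem F7_right (h : Lonne l t) (π : G →* Module.End ℂ V) (lam : ℂ)
    {x y y' : Fin n → ℕ} (hx : Ind l x) (hy : Ind l y) (hy' : Ind l y') (hyy : Adj y y')
    (h1 : ¬ Adj x y) (h2 : ¬ Adj x y') :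
    nn π lam (t x) * nn π lam (t y) = 0 ↔ nn π lam (t x) * nn π lam (t y') = 0 := by
  rw [F7_comm π lam (h.com hx hy h1), F7_comm π lam (h.com hx hy' h2)]
  exact F7_left h π lam hy hy' hx hyy (fun h3 => h1 h3.symm) (fun h3 => h2 h3.symm)

/-- PROOF. lam from F6. ⊤ = l - 1. (1) nn (t 0) * nn (t ⊤) = 0: it kills UU a b for every edge (UU_top (1), W = ker): with i = coordinate 0: if a i, b i ≥ 2 then Sp a b 0, otherwise a i, b i ≤ 2 and l i ≥ 6, Sp a b ⊤; the two operators commute (0 and ⊤ are not adjacent). (2) lam ≠ 0 as in QB54 TH1. (3) Conjugation: g * t x = t x' * g, g * t y = t y * g: nn x * nn y = 0 → nn x' * nn y = 0 (QB54 TH1_conj).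
For x, x' adjacent, both not adjacent to y and different from y: g = t x * t x' (braid relation). (4) If x i + 2 ≤ y i for some i: move x inside {x i ≤ s}, s = x i, to 0 (box_ind with P x := nn (t x) * nn (t y) = 0), and y inside {s + 2 ≤ y i} to ⊤; box_ind backwards from (1). Symmetric if y i + 2 ≤ x i (the operators commute). (5) Otherwise all coordinates of x, y differ by at most 1, x ≠ y, not adjacent: there are i, j with y i = x i + 1, x j = y j + 1. If y i + 1 < l i: y' = up y i is adjacent to y, x i + 2 ≤ y' i, so nn x * nn y' = 0 by (4), and (3) (x is not adjacent to y', not equal). Otherwise x i ≥ 1 and x' = dn x i, x' i + 2 ≤ y i. -/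
theorem exists_lam {π : G →* Module.End ℂ V} (h : Bas l t π) :
    ∃ lam : ℂ, lam ≠ 0 ∧ ∀ x y, Ind l x → Ind l y → x ≠ y → ¬ Adj x y →
      nn π lam (t x) * nn π lam (t y) = 0 := by
  obtain ⟨lam, hlam⟩ := far_scalar h
  have hI0 : Ind l (0 : Fin n → ℕ) := fun i => by
    have := h.six i
    show 0 < l i
    omega
  have hIt : Ind l (fun i => l i - 1) := fun i => by
    have := h.six i
    show l i - 1 < l i
    omega
  have i0 : Fin n := ⟨0, by have := h.two; omega⟩
  have hn : ∀ a b c, Ind l a → Ind l b → Ind l c → Adj a b → Sp a b c → ∀ u ∈ UU t π a b,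
      nn π lam (t c) u = 0 := by
    intro a b c ha hb hc hab hs u hu
    unfold nn
    rw [LinearMap.sub_apply, hlam a b c ha hb hc hab hs u hu, LinearMap.smul_apply,
      Module.End.one_apply, sub_self]
  have hnadj : ∀ (x y : Fin n → ℕ) (i : Fin n), x i + 2 ≤ y i → ¬ Adj x y := by
    intro x y i h1 h2
    have := h2.le i
    omega
  have hbase : nn π lam (t 0) * nn π lam (t fun i => l i - 1) = 0 := by
    have hcomm : nn π lam (t 0) * nn π lam (t fun i => l i - 1) =
        nn π lam (t fun i => l i - 1) * nn π lam (t 0) := by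
      refine F7_comm π lam (h.lon.com hI0 hIt (hnadj _ _ i0 ?_))
      have := h.six i0
      show 0 + 2 ≤ l i0 - 1
      omega
    have h1 : LinearMap.ker (nn π lam (t 0) * nn π lam (t fun i => l i - 1)) = ⊤ := by
      refine (UU_top h).1 _ ?_
      intro a b ha hb hab u hu
      rw [LinearMap.mem_ker]
      by_cases h2 : 2 ≤ a i0 ∧ 2 ≤ b i0
      · rw [hcomm, Module.End.mul_apply, hn a b 0 ha hb hI0 hab ⟨i0, Or.inr h2⟩ u hu, map_zero]
      · have hs : Sp a b (fun i => l i - 1) := by
          refine ⟨i0, Or.inl ?_⟩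
          have h3 := hab.le i0
          have h4 := h.six i0
          show a i0 + 2 ≤ l i0 - 1 ∧ b i0 + 2 ≤ l i0 - 1
          omega
        rw [Module.End.mul_apply, hn a b _ ha hb hIt hab hs u hu, map_zero]
    rwa [LinearMap.ker_eq_top] at h1
  have hsep : ∀ (i : Fin n) (x y : Fin n → ℕ), Ind l x → Ind l y → x i + 2 ≤ y i →
      nn π lam (t x) * nn π lam (t y) = 0 := by
    intro i x y hx hy hxy
    have hB1 : ∀ z, Bx (0 : Fin n → ℕ) (Function.update (fun j => l j - 1) i (x i)) z →
        Ind l z ∧ z i ≤ x i := by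
      intro z hz
      have h5 := (hz i).2
      rw [Function.update_self] at h5
      refine ⟨fun j => ?_, h5⟩
      by_cases hj : j = i
      · subst hj
        have := hx j
        omega
      · have h3 := (hz j).2
        have h4 := h.six j
        rw [Function.update_of_ne hj] at h3
        omega
    have hB1' : ∀ z, Ind l z → z i ≤ x i →
        Bx (0 : Fin n → ℕ) (Function.update (fun j => l j - 1) i (x i)) z := by
      intro z hz h3 j
      refine ⟨Nat.zero_le _, ?_⟩
      by_cases hj : j = i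
      · subst hj
        rw [Function.update_self]
        exact h3
      · rw [Function.update_of_ne hj]
        have := hz j
        omega
    have hB2 : ∀ z, Bx (Function.update (0 : Fin n → ℕ) i 2) (fun j => l j - 1) z →
        Ind l z ∧ 2 ≤ z i := by
      intro z hz
      refine ⟨fun j => ?_, ?_⟩
      · have h3 := (hz j).2
        have h4 := h.six j
        simp only at h3
        omega
      · have h3 := (hz i).1
        rwa [Function.update_self] at h3
    have hB2' : ∀ z, Ind l z → 2 ≤ z i →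
        Bx (Function.update (0 : Fin n → ℕ) i 2) (fun j => l j - 1) z := by
      intro z hz h3 j
      refine ⟨?_, ?_⟩
      · by_cases hj : j = i
        · subst hj
          rw [Function.update_self]
          exact h3
        · rw [Function.update_of_ne hj]
          exact Nat.zero_le _
      · have := hz j
        simp only
        omega
    have h0y : nn π lam (t 0) * nn π lam (t y) = 0 := by
      refine box_ind _ _ (fun z => nn π lam (t 0) * nn π lam (t z) = 0) ?_ (fun i => l i - 1) y
        (hB2' _ hIt ?_) (hB2' _ hy (by omega)) hbase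
      · intro z k hz hk
        obtain ⟨hz1, hz2⟩ := hB2 z hz
        have hk' : z k + 1 < l k := by
          have := h.six k
          omega
        have hz3 : 2 ≤ up z k i := by
          by_cases hki : i = k
          · subst hki
            simp only [up, Function.update_self]
            omega
          · simp only [up, Function.update_of_ne hki]
            exact hz2
        exact F7_right h.lon π lam hI0 hz1 (F1_up hz1 k hk') (Or.inl (Lt_up z k))
          (hnadj _ _ i (show 0 + 2 ≤ z i by omega)) (hnadj _ _ i (show 0 + 2 ≤ up z k i by omega))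
      · have := h.six i
        show 2 ≤ l i - 1
        omega
    refine box_ind _ _ (fun z => nn π lam (t z) * nn π lam (t y) = 0) ?_ 0 x
      (hB1' _ hI0 (Nat.zero_le _)) (hB1' _ hx le_rfl) h0y
    intro z k hz hk
    obtain ⟨hz1, hz2⟩ := hB1 z hz
    have hz' : Bx (0 : Fin n → ℕ) (Function.update (fun j => l j - 1) i (x i)) (up z k) := by
      intro j
      refine ⟨Nat.zero_le _, ?_⟩
      by_cases hj : j = k
      · subst hj
        simp only [up, Function.update_self]
        omega
      · simp only [up, Function.update_of_ne hj]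
        exact (hz j).2
    obtain ⟨hz3, hz4⟩ := hB1 _ hz'
    exact F7_left h.lon π lam hz1 hz3 hy (Or.inl (Lt_up z k))
      (hnadj _ _ i (by omega)) (hnadj _ _ i (by omega))
  refine ⟨lam, ?_, ?_⟩
  · rintro rfl
    unfold nn at hbase
    rw [zero_smul, sub_zero, sub_zero, ← map_mul] at hbase
    have h2 : (1 : Module.End ℂ V) = 0 := by
      rw [← map_one π, ← mul_inv_cancel (t 0 * t fun i => l i - 1), map_mul, hbase, zero_mul]
    haveI : Nontrivial V := Module.nontrivial_of_finrank_pos (R := ℂ) (by have := h.dim; omega)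
    obtain ⟨v, hv⟩ := exists_ne (0 : V)
    apply hv
    have h3 := LinearMap.congr_fun h2 v
    rw [Module.End.one_apply, LinearMap.zero_apply] at h3
    exact h3
  · intro x y hx hy hne hna
    by_cases h1 : ∃ i, x i + 2 ≤ y i
    · obtain ⟨i, hi⟩ := h1
      exact hsep i x y hx hy hi
    by_cases h2 : ∃ i, y i + 2 ≤ x i
    · obtain ⟨i, hi⟩ := h2
      rw [F7_comm π lam (h.lon.com hx hy hna)]
      exact hsep i y x hy hx hi
    push Not at h1 h2
    have h3 : ¬ Lt x y := fun h3 => hna (Or.inl h3)
    obtain ⟨j, hj⟩ : ∃ j, y j < x j := by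
      by_contra h4
      push Not at h4
      exact h3 ⟨hne, fun i => ⟨h4 i, by have := h1 i; omega⟩⟩
    obtain ⟨i, hi⟩ : ∃ i, x i < y i := by
      by_contra h4
      push Not at h4
      exact hna (Or.inr ⟨hne.symm, fun i => ⟨h4 i, by have := h2 i; omega⟩⟩)
    have hi1 := h1 i
    by_cases hb : y i + 1 < l i
    · have hup := F1_up hy i hb
      have e1 : up y i i = y i + 1 := by simp only [up, Function.update_self]
      have h5 := hsep i x (up y i) hx hup (by omega)
      exact (F7_right h.lon π lam hx hy hup (Or.inl (Lt_up y i)) hna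
        (hnadj _ _ i (by omega))).2 h5
    · have h6 := h.six i
      have h7 := hy i
      have e1 : dn x i i = x i - 1 := by simp only [dn, Function.update_self]
      have hdn : Ind l (dn x i) := by
        intro k
        by_cases hk : k = i
        · subst hk
          have := hx k
          omega
        · simp only [dn, Function.update_of_ne hk]
          exact hx k
      have h5 := hsep i (dn x i) y hdn hy (by omega)
      exact (F7_left h.lon π lam hdn hx hy (Or.inl (Lt_dn x i (by omega)))
        (hnadj _ _ i (by omega)) hna).1 h5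
-- END F7

end Pool.Agent.Lon
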