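import Pool.Agent.QB54.Fin
import Pool.Agent.Lon.Defs

/-!
# Group theory: commutator subgroups of adjacent pairs, triangles
-/

set_option autoImplicit false
set_option linter.all false

namespace Pool.Agent.Lon

variable {G : Type*} [Group G]

/-- the commutator subgroup of the group generated by `g` and `h` -/
def KK (g h : G) : Subgroup G := ⁅Subgroup.closure {g, h}, Subgroup.closure {g, h}⁆

theorem KK_symm (g h : G) : KK g h = KK h g := by
  unfold KK
  rw [Set.pair_comm]

-- MODULE G1
private theorem G1_map (g h g' h' k : G) (h0 : k * g = g' * k) (h1 : k * h = h' * k) :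
    (KK g h).map (MulAut.conj k).toMonoidHom = KK g' h' := by
  have e0 : (MulAut.conj k) g = g' := by
    rw [MulAut.conj_apply, h0]; group
  have e1 : (MulAut.conj k) h = h' := by
    rw [MulAut.conj_apply, h1]; group
  have e2 : (Subgroup.closure {g, h}).map (MulAut.conj k).toMonoidHom
      = Subgroup.closure {g', h'} := by
    rw [MonoidHom.map_closure, Set.image_pair]
    show Subgroup.closure {(MulAut.conj k) g, (MulAut.conj k) h} = _
    rw [e0, e1]
  unfold KK
  rw [Subgroup.map_commutator, e2]

theorem KK_conj (g h g' h' k : G) (h0 : k * g = g' * k) (h1 : k * h = h' * k) (x : G) :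
    k * x * k⁻¹ ∈ KK g' h' ↔ x ∈ KK g h := by
  rw [← G1_map g h g' h' k h0 h1]
  have h2 : k * x * k⁻¹ = (MulAut.conj k).toMonoidHom x := rfl
  rw [h2]
  exact Subgroup.mem_map_iff_mem (MulAut.conj k).injective

theorem diff_mem_KK (g h : G) (hb : g * h * g = h * g * h) : g * h⁻¹ ∈ KK g h ∧ h * g⁻¹ ∈ KK g h := by
  have hA : g ∈ Subgroup.closure {g, h} := Subgroup.subset_closure (by simp)
  have hB : h ∈ Subgroup.closure {g, h} := Subgroup.subset_closure (by simp)
  have h2 : h * g⁻¹ ∈ KK g h := by
    have h3 := Subgroup.commutator_mem_commutator (mul_mem hA hB) hA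
    rw [commutatorElement_def, mul_inv_rev] at h3
    have e : g * h * g * (h⁻¹ * g⁻¹) = h := by
      rw [hb]; group
    rwa [e] at h3
  refine ⟨?_, h2⟩
  have := inv_mem h2
  simpa [mul_inv_rev] using this

theorem KK_le (g h : G) : KK g h ≤ Subgroup.closure {g, h} :=
  Subgroup.commutator_le.2 fun a ha b hb => Subgroup.mul_mem _ (Subgroup.mul_mem _
    (Subgroup.mul_mem _ ha hb) (Subgroup.inv_mem _ ha)) (Subgroup.inv_mem _ hb)

theorem KK_norm (g h k : G) (hk : k = g ∨ k = h ∨ (k * g = g * k ∧ k * h = h * k)) (x : G)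
    (hx : x ∈ KK g h) : k * x * k⁻¹ ∈ KK g h := by
  have hA : g ∈ Subgroup.closure {g, h} := Subgroup.subset_closure (by simp)
  have hB : h ∈ Subgroup.closure {g, h} := Subgroup.subset_closure (by simp)
  have hL : ∀ k ∈ Subgroup.closure {g, h}, k * x * k⁻¹ ∈ KK g h := by
    intro k hk
    have hxL := KK_le g h hx
    have h3 := Subgroup.commutator_mem_commutator hk hxL
    rw [commutatorElement_def] at h3
    have e : k * x * k⁻¹ = (k * x * k⁻¹ * x⁻¹) * x := by group
    rw [e]
    exact mul_mem h3 hx
  rcases hk with rfl | rfl | ⟨h0, h1⟩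
  · exact hL _ hA
  · exact hL _ hB
  · exact (KK_conj g h g h k h0 h1 x).2 hx
-- END G1

/-- elements commuting with the generators commute with the group generated -/
theorem commute_closure {S T : Set G} (h : ∀ a ∈ S, ∀ b ∈ T, a * b = b * a) (x y : G)
    (hx : x ∈ Subgroup.closure S) (hy : y ∈ Subgroup.closure T) : x * y = y * x := by
  have h1 : ∀ a ∈ S, Commute a y := by
    intro a ha
    induction hy using Subgroup.closure_induction with
    | mem y hy => exact h a ha y hy
    | one => exact Commute.one_right a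
    | mul y z _ _ hy hz => exact hy.mul_right hz
    | inv y _ hy => exact hy.inv_right
  have h2 : Commute x y := by
    induction hx using Subgroup.closure_induction with
    | mem x hx => exact h1 x hx
    | one => exact Commute.one_left y
    | mul x z _ _ hx hz => exact hx.mul_left hz
    | inv x _ hx => exact hx.inv_left
  exact h2

/-- `a` commutes with `b * c * b⁻¹` -/
def Cyc (a b c : G) : Prop := a * (b * c * b⁻¹) = b * c * b⁻¹ * a

-- MODULE G2
theorem cyc_of_tri (a b c : G) (hab : a * b * a = b * a * b)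
    (h : a * b * c * a = b * c * a * b) : Cyc a b c := by
  unfold Cyc
  have e1 : a * (b * c * b⁻¹) * (b * a) = b * c * b⁻¹ * a * (b * a) := by
    calc a * (b * c * b⁻¹) * (b * a) = a * b * c * a := by group
      _ = b * c * a * b := h
      _ = b * c * b⁻¹ * (b * a * b) := by group
      _ = b * c * b⁻¹ * (a * b * a) := by rw [hab]
      _ = b * c * b⁻¹ * a * (b * a) := by group
  exact mul_right_cancel e1

theorem cyc_rot (a b c : G) (hbc : b * c * b = c * b * c) (h : Cyc a b c) : Cyc b c a := by
  unfold Cyc at *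
  have e1 : b * c * b⁻¹ = c⁻¹ * b * c := by
    rw [mul_inv_eq_iff_eq_mul, mul_assoc, mul_assoc, ← mul_assoc b c b, hbc]
    group
  rw [e1] at h
  calc b * (c * a * c⁻¹) = c * (c⁻¹ * b * c * a) * c⁻¹ := by group
    _ = c * (a * (c⁻¹ * b * c)) * c⁻¹ := by rw [h]
    _ = c * a * c⁻¹ * b := by group
-- END G2

private theorem G3_p (a b c : G) (hab : a * b * a = b * a * b) (h : Cyc a b c) :
    a * b * c * a = b * c * a * b := by
  unfold Cyc at h
  calc a * b * c * a = a * (b * c * b⁻¹) * (b * a) := by group
    _ = b * c * b⁻¹ * a * (b * a) := by rw [h]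
    _ = b * c * b⁻¹ * (a * b * a) := by group
    _ = b * c * b⁻¹ * (b * a * b) := by rw [hab]
    _ = b * c * a * b := by group

-- MODULE G3
theorem cyc_conj (a b c : G) (hab : a * b * a = b * a * b) (hbc : b * c * b = c * b * c)
    (hca : c * a * c = a * c * a) (h : Cyc a b c) :
    a * b * c * a * b = a * (a * b * c * a) ∧ a * b * c * a * c = b * (a * b * c * a) ∧
      a * b * c * a * a = c * (a * b * c * a) := by
  have h1 := G3_p a b c hab h
  have h2 := G3_p b c a hbc (cyc_rot a b c hbc h)
  have h3 : a * b * c * a = c * a * b * c := h1.trans h2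
  refine ⟨?_, ?_, ?_⟩
  · calc a * b * c * a * b = a * (b * c * a * b) := by group
      _ = a * (a * b * c * a) := by rw [h1]
  · calc a * b * c * a * c = b * c * a * b * c := by rw [h1]
      _ = b * (c * a * b * c) := by group
      _ = b * (a * b * c * a) := by rw [h3]
  · calc a * b * c * a * a = c * a * b * c * a := by rw [h3]
      _ = c * (a * b * c * a) := by group
-- END G3

-- MODULE G4
theorem slide (a b c : G) (hab : a * b * a = b * a * b) (hbc : b * c * b = c * b * c)
    (h : a * c = c * a ∨ (a * c * a = c * a * c ∧ (Cyc a b c ∨ Cyc c b a))) :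
    ∃ k ∈ Subgroup.closure {a, b, c}, k * a = b * k ∧ k * b = c * k := by
  have ha : a ∈ Subgroup.closure {a, b, c} := Subgroup.subset_closure (by simp)
  have hb : b ∈ Subgroup.closure {a, b, c} := Subgroup.subset_closure (by simp)
  have hc : c ∈ Subgroup.closure {a, b, c} := Subgroup.subset_closure (by simp)
  rcases h with h | ⟨h0, h | h⟩
  · refine ⟨a * b * c, mul_mem (mul_mem ha hb) hc, ?_, ?_⟩
    · calc a * b * c * a = a * b * (c * a) := by group
        _ = a * b * (a * c) := by rw [h]
        _ = a * b * a * c := by group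
        _ = b * a * b * c := by rw [hab]
        _ = b * (a * b * c) := by group
    · calc a * b * c * b = a * (b * c * b) := by group
        _ = a * (c * b * c) := by rw [hbc]
        _ = (a * c) * b * c := by group
        _ = (c * a) * b * c := by rw [h]
        _ = c * (a * b * c) := by group
  · obtain ⟨h1, h2, h3⟩ := cyc_conj a b c hab hbc h0.symm h
    refine ⟨(a * b * c * a)⁻¹, inv_mem (mul_mem (mul_mem (mul_mem ha hb) hc) ha), ?_, ?_⟩
    · rw [inv_mul_eq_iff_eq_mul, ← mul_assoc, h1, mul_assoc, mul_inv_cancel, mul_one]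
    · rw [inv_mul_eq_iff_eq_mul, ← mul_assoc, h2, mul_assoc, mul_inv_cancel, mul_one]
  · obtain ⟨h1, h2, h3⟩ := cyc_conj c b a hbc.symm hab.symm h0 h
    exact ⟨c * b * a * c, mul_mem (mul_mem (mul_mem hc hb) ha) hc, h2, h1⟩
-- END G4

variable {n : ℕ} {l : Fin n → ℕ} {t : (Fin n → ℕ) → G}

/-- braid relation of adjacent vertices -/
theorem Lonne.brd (h : Lonne l t) {x y : Fin n → ℕ} (hx : Ind l x) (hy : Ind l y) (ha : Adj x y) :
    t x * t y * t x = t y * t x * t y := by
  rcases ha with ha | ha
  · exact h.braid x y hx hy ha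
  · exact (h.braid y x hy hx ha).symm

theorem Lonne.com (h : Lonne l t) {x y : Fin n → ℕ} (hx : Ind l x) (hy : Ind l y)
    (ha : ¬ Adj x y) : t x * t y = t y * t x :=
  h.comm x y hx hy (fun h1 => ha (Or.inl h1)) (fun h1 => ha (Or.inr h1))

-- MODULE G5
private theorem G5_anti {x y : Fin n → ℕ} (h1 : Lt x y) (h2 : Lt y x) : False := by
  apply h1.1
  funext i
  have := h1.2 i
  have := h2.2 i
  omega

private theorem G5_cyc3 {x y z : Fin n → ℕ} (h1 : Lt x y) (h2 : Lt y z) (h3 : Lt z x) : False := by
  apply h1.1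
  funext i
  have := h1.2 i
  have := h2.2 i
  have := h3.2 i
  omega

private theorem G5_sorted (h : Lonne l t) {x y z : Fin n → ℕ} (hx : Ind l x) (hy : Ind l y)
    (hz : Ind l z) (hxy : Lt x y) (hyz : Lt y z) (hxz : Lt x z) :
    Cyc (t x) (t y) (t z) ∧ Cyc (t y) (t z) (t x) ∧ Cyc (t z) (t x) (t y) := by
  have h1 : Cyc (t x) (t y) (t z) :=
    cyc_of_tri _ _ _ (h.braid x y hx hy hxy) (h.tri x y z hx hy hz hxy hyz hxz)
  have h2 : Cyc (t y) (t z) (t x) := cyc_rot _ _ _ (h.braid y z hy hz hyz) h1
  have h3 : Cyc (t z) (t x) (t y) := cyc_rot _ _ _ (h.braid x z hx hz hxz).symm h2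
  exact ⟨h1, h2, h3⟩

/-- In a triangle x, y, z one of the two orientations is cyclic. PROOF. The three pairs are comparable for Lt; Lt x y ∧ Lt y z ∧ Lt x z etc.: the six (transitive) orders: sorted order a < b < c gives Cyc (t a) (t b) (t c) (cyc_of_tri), and by cyc_rot the rotations; (x, y, z) is a rotation of (a, b, c) or of (c, b, a) (the two cyclic patterns Lt x y, Lt y z, Lt z x are impossible: sum of coordinates increases strictly; show: Lt is antisymmetric in the sense that sums satisfy Σ x < Σ y, or use coordinates: x ≤ y ≤ z ≤ x implies equality). -/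
theorem Lonne.triangle (h : Lonne l t) {x y z : Fin n → ℕ} (hx : Ind l x) (hy : Ind l y)
    (hz : Ind l z) (hxy : Adj x y) (hyz : Adj y z) (hxz : Adj x z) :
    Cyc (t x) (t y) (t z) ∨ Cyc (t z) (t y) (t x) := by
  rcases hxy with a | a
  · rcases hyz with b | b
    · rcases hxz with c | c
      · exact Or.inl (G5_sorted h hx hy hz a b c).1
      · exact (G5_cyc3 a b c).elim
    · rcases hxz with c | c
      · exact Or.inr (G5_sorted h hx hz hy c b a).2.1
      · exact Or.inl (G5_sorted h hz hx hy c a b).2.1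
  · rcases hyz with b | b
    · rcases hxz with c | c
      · exact Or.inr (G5_sorted h hy hx hz a c b).2.2
      · exact Or.inl (G5_sorted h hy hz hx b c a).2.2
    · rcases hxz with c | c
      · exact (G5_cyc3 b a c).elim
      · exact Or.inr (G5_sorted h hz hy hx b a c).1

/-- slide along x, y, z (z ≠ x). PROOF. G4; if x, z not adjacent they commute (com); otherwise triangle. -/
theorem Lonne.slide (h : Lonne l t) {x y z : Fin n → ℕ} (hx : Ind l x) (hy : Ind l y)
    (hz : Ind l z) (hxy : Adj x y) (hyz : Adj y z) :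
    ∃ k ∈ Subgroup.closure {t x, t y, t z}, k * t x = t y * k ∧ k * t y = t z * k := by
  by_cases hxz : Adj x z
  · exact Pool.Agent.Lon.slide _ _ _ (h.brd hx hy hxy) (h.brd hy hz hyz)
      (Or.inr ⟨h.brd hx hz hxz, h.triangle hx hy hz hxy hyz hxz⟩)
  · exact Pool.Agent.Lon.slide _ _ _ (h.brd hx hy hxy) (h.brd hy hz hyz)
      (Or.inl (h.com hx hz hxz))
-- END G5

end Pool.Agent.Lon
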