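import Pool.Agent.Lon.Rad
import Pool.Agent.Lon.Grp

/-!
# The case of one variable: the braid group
-/

set_option autoImplicit false
set_option linter.all false

namespace Pool.Agent.Lon

open Pool.Agent.HG13 Pool.Agent.QB54

universe u

variable {G : Type*} [Group G] {l : Fin 1 → ℕ} {t : (Fin 1 → ℕ) → G} {V : Type u}
  [AddCommGroup V] [Module ℂ V]

/-- the point with coordinate `i` -/
abbrev pt (i : ℕ) : Fin 1 → ℕ := fun _ => i

theorem eq_pt (x : Fin 1 → ℕ) : x = pt (x 0) := by
  funext i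
  rw [Subsingleton.elim i 0]

theorem Ind_pt (i : ℕ) : Ind l (pt i) ↔ i < l 0 := by
  constructor
  · intro h; exact h 0
  · intro h j
    rw [Subsingleton.elim j 0]; exact h

theorem Lt_pt (i j : ℕ) : Lt (pt i) (pt j) ↔ j = i + 1 := by
  constructor
  · rintro ⟨h1, h2⟩
    have h3 : i ≤ j ∧ j ≤ i + 1 := h2 0
    have h4 : i ≠ j := fun e => h1 (by rw [e])
    omega
  · rintro rfl
    refine ⟨fun e => ?_, fun k => ?_⟩
    · have h5 : i = i + 1 := congrFun e 0
      omega
    · exact ⟨Nat.le_succ i, le_refl _⟩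

theorem base_one (h : Lonne l t) {π : G →* Module.End ℂ V} (hirr : Irr π)
    (hdim : 2 ≤ Module.finrank ℂ V) : Base (l 0) (fun i => t (pt i)) π := by
  refine ⟨⟨fun i hi => ?_, fun i j hij hj => ?_⟩, ?_, hirr, hdim⟩
  · exact h.braid _ _ ((Ind_pt i).2 (by omega)) ((Ind_pt (i + 1)).2 hi) ((Lt_pt i (i + 1)).2 rfl)
  · refine h.comm _ _ ((Ind_pt i).2 (by omega)) ((Ind_pt j).2 hj) ?_ ?_
    · rw [Lt_pt]; omega
    · rw [Lt_pt]; omega
  · rw [← h.gen]
    congr 1
    ext g
    constructor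
    · rintro ⟨i, hi, rfl⟩
      exact ⟨pt i, (Ind_pt i).2 hi, rfl⟩
    · rintro ⟨x, hx, rfl⟩
      exact ⟨x 0, hx 0, by rw [← eq_pt]⟩

/-- `V` has a generating family permuted by the generators up to scalars -/
def IsMono (l : Fin 1 → ℕ) (t : (Fin 1 → ℕ) → G) (π : G →* Module.End ℂ V) : Prop :=
  ∃ (lam chi : ℂ) (w : ℕ → V), lam ≠ 0 ∧ chi ≠ 0 ∧ (∀ i, i ≤ l 0 → w i ≠ 0) ∧
    Submodule.span ℂ {v | ∃ i, i ≤ l 0 ∧ v = w i} = ⊤ ∧
    ∀ i j, i < l 0 → j ≤ l 0 → π (t (pt i)) (w j) =
      if j = i then w (i + 1) else if j = i + 1 then chi • w i else lam • w j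

theorem one_case (h : Lonne l t) (hl : 7 ≤ l 0) {π : G →* Module.End ℂ V} (hirr : Irr π)
    (hdim : 2 ≤ Module.finrank ℂ V) (hS : St (l 0) (fun i => t (pt i)) π) :
    (∃ (lam q : ℂ) (v : (Fin 1 → ℕ) → V), lam ≠ 0 ∧ q ≠ 0 ∧
      Submodule.span ℂ (v '' {x | Ind l x}) = ⊤ ∧
      ∀ x y, Ind l x → Ind l y → π (t x) (v y) = lam • (v y + cf q x y • v x)) ∨
    IsMono l t π := by
  have hB := base_one h hirr hdim
  obtain ⟨lam, hlam, hf⟩ := exists_lam hB hS hl
  have hF : Fo (l 0) (fun i => t (pt i)) π lam := ⟨hB, by omega, hlam, hf⟩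
  by_cases hA : LinearMap.range (nn (fun i => t (pt i)) π lam 0) ⊓
      LinearMap.range (nn (fun i => t (pt i)) π lam 1) = ⊥
  · left
    obtain ⟨v, mu, hmu, h1, h2⟩ := caseA_seq hF hA
    have hnn : ∀ j w, π (t (pt j)) w = lam • w + nn (fun i => t (pt i)) π lam j w := by
      intro j w
      rw [nn, LinearMap.sub_apply, LinearMap.smul_apply, Module.End.one_apply]
      abel
    have hact : ∀ i j, i < l 0 → j < l 0 → π (t (pt i)) ((mu⁻¹) ^ j • v j) =
        lam • ((mu⁻¹) ^ j • v j + cf (lam⁻¹ * mu) (pt i) (pt j) • (mu⁻¹) ^ i • v i) := by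
      intro i j hi hj
      rw [map_smul]
      by_cases e1 : i = j
      · subst e1
        rw [(h1 i hi).2.2, cf_self, smul_add, smul_smul, smul_smul, smul_smul, smul_smul, ← add_smul]
        congr 1
        field_simp
        ring
      by_cases e2 : i = j + 1
      · subst e2
        rw [cf_gt _ ((Lt_pt j (j + 1)).2 rfl), hnn, (h2 j hi).1]
        rw [smul_add, smul_add, smul_smul, smul_smul, smul_smul, smul_smul]
        congr 1
        · rw [mul_comm]
        · congr 1
          rw [pow_succ]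
          field_simp
      by_cases e3 : j = i + 1
      · subst e3
        rw [cf_lt _ ((Lt_pt i (i + 1)).2 rfl), hnn, (h2 i hj).2]
        rw [smul_add, smul_add, smul_smul, smul_smul, smul_smul, smul_smul, smul_smul]
        congr 1
        · rw [mul_comm]
        · congr 1
          rw [pow_succ]
          field_simp
      · have hc : cf (lam⁻¹ * mu) (pt i) (pt j) = 0 := by
          refine cf_far _ (fun e => e1 (congrFun e 0)) ?_ ?_
          · rw [Lt_pt]; exact e3
          · rw [Lt_pt]; exact e2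
        rw [hc, zero_smul, add_zero, hnn,
          (hF.fixed j i hj hi (by omega) (v j) (h1 j hj).2.1).2, add_zero, smul_comm]
    refine ⟨lam, lam⁻¹ * mu, fun x => (mu⁻¹) ^ (x 0) • v (x 0), hlam,
      mul_ne_zero (inv_ne_zero hlam) hmu, ?_, ?_⟩
    · refine (Pool.Agent.QB54.stable_bot_top hB _ ?_).resolve_left ?_
      · intro i hi
        have hle : Submodule.span ℂ ((fun x : Fin 1 → ℕ => (mu⁻¹) ^ (x 0) • v (x 0)) '' {x | Ind l x}) ≤
            (Submodule.span ℂ ((fun x : Fin 1 → ℕ => (mu⁻¹) ^ (x 0) • v (x 0)) '' {x | Ind l x})).comap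
              (π (t (pt i))) := by
          rw [Submodule.span_le]
          rintro _ ⟨x, hx, rfl⟩
          rw [SetLike.mem_coe, Submodule.mem_comap]
          show π (t (pt i)) ((mu⁻¹) ^ (x 0) • v (x 0)) ∈
            Submodule.span ℂ ((fun x : Fin 1 → ℕ => (mu⁻¹) ^ (x 0) • v (x 0)) '' {x | Ind l x})
          rw [hact i (x 0) hi (hx 0)]
          exact Submodule.smul_mem _ _ (Submodule.add_mem _ (Submodule.subset_span ⟨x, hx, rfl⟩)
            (Submodule.smul_mem _ _ (Submodule.subset_span ⟨pt i, (Ind_pt i).2 hi, rfl⟩)))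
        exact fun w hw => hle hw
      · intro hb
        have h3 : (mu⁻¹) ^ 0 • v 0 ∈ Submodule.span ℂ ((fun x : Fin 1 → ℕ => (mu⁻¹) ^ (x 0) • v (x 0)) '' {x | Ind l x}) :=
          Submodule.subset_span ⟨pt 0, (Ind_pt 0).2 (by omega), rfl⟩
        rw [hb, pow_zero, one_smul] at h3
        exact (h1 0 (by omega)).1 ((Submodule.mem_bot ℂ).1 h3)
    · intro x y hx hy
      have := hact (x 0) (y 0) (hx 0) (hy 0)
      rw [← eq_pt x, ← eq_pt y] at this
      exact this
  · right
    obtain ⟨w, chi, hchi, hne, hout, hin⟩ := caseB_seq hF hA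
    have hact : ∀ i j, i < l 0 → j ≤ l 0 → π (t (pt i)) (w j) =
        if j = i then w (i + 1) else if j = i + 1 then chi • w i else lam • w j := by
      intro i j hi hj
      split_ifs with e1 e2
      · subst e1; exact (hin j hi).1
      · subst e2; exact (hin i hi).2
      · exact hout j i hj hi (fun e => e1 e.symm) (fun e => e2 e.symm)
    refine ⟨lam, chi, w, hlam, hchi, hne, ?_, hact⟩
    refine (Pool.Agent.QB54.stable_bot_top hB _ ?_).resolve_left ?_
    · intro i hi
      have hle : Submodule.span ℂ {v | ∃ i, i ≤ l 0 ∧ v = w i} ≤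
          (Submodule.span ℂ {v | ∃ i, i ≤ l 0 ∧ v = w i}).comap (π (t (pt i))) := by
        rw [Submodule.span_le]
        rintro _ ⟨j, hj, rfl⟩
        rw [SetLike.mem_coe, Submodule.mem_comap, hact i j hi hj]
        split_ifs with e1 e2
        · exact Submodule.subset_span ⟨i + 1, by omega, rfl⟩
        · exact Submodule.smul_mem _ _ (Submodule.subset_span ⟨i, by omega, rfl⟩)
        · exact Submodule.smul_mem _ _ (Submodule.subset_span ⟨j, hj, rfl⟩)
      exact fun w hw => hle hw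
    · intro hb
      have h3 : w 0 ∈ Submodule.span ℂ {v | ∃ i, i ≤ l 0 ∧ v = w i} :=
        Submodule.subset_span ⟨0, by omega, rfl⟩
      rw [hb] at h3
      exact hne 0 (by omega) ((Submodule.mem_bot ℂ).1 h3)

end Pool.Agent.Lon
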