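import Pool.Agent.Lon.Cyc
import Pool.Agent.Lon.OneD

/-!
# Finite images
-/

set_option autoImplicit false
set_option linter.all false

namespace Pool.Agent.Lon

universe u

section fin

variable {G : Type*} [Group G] {V : Type u} [AddCommGroup V] [Module ℂ V]

/-- if a finite generating set of the space is mapped to itself by generators of the group then
the image of the group is finite -/
theorem finite_range (π : G →* Module.End ℂ V) {S : Set G} (hS : Subgroup.closure S = ⊤)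
    {X : Set V} (hX : X.Finite) (hsp : Submodule.span ℂ X = ⊤)
    (hm : ∀ g ∈ S, ∀ w ∈ X, π g w ∈ X) : (Set.range π).Finite := by
  have hinj : ∀ g : G, Function.Injective (π g) := by
    intro g a b hab
    have h1 : ∀ c, π g⁻¹ (π g c) = c := by
      intro c
      rw [← Module.End.mul_apply, ← map_mul, inv_mul_cancel, map_one, Module.End.one_apply]
    rw [← h1 a, hab, h1]
  have hall : ∀ g : G, ∀ w ∈ X, π g w ∈ X := by
    intro g
    have hg : g ∈ Subgroup.closure S := by rw [hS]; exact Subgroup.mem_top g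
    induction hg using Subgroup.closure_induction with
    | mem g hg => exact hm g hg
    | one => intro w hw; rw [map_one]; exact hw
    | mul a b _ _ ha hb =>
      intro w hw
      rw [map_mul, Module.End.mul_apply]
      exact ha _ (hb w hw)
    | inv a _ ha =>
      intro w hw
      have h1 : Set.SurjOn (π a) X X := by
        have h2 : Set.MapsTo (π a) X X := ha
        intro y hy
        obtain ⟨x, hx, hxy⟩ := Set.surj_on_of_inj_on_of_ncard_le (fun x _ => π a x)
          (fun x hx => h2 hx) (fun x y _ _ h => hinj a h) le_rfl hX y hy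
        exact ⟨x, hx, hxy.symm⟩
      obtain ⟨x, hx, rfl⟩ := h1 hw
      have h3 : π a⁻¹ (π a x) = x := by
        rw [← Module.End.mul_apply, ← map_mul, inv_mul_cancel, map_one, Module.End.one_apply]
      rw [h3]
      exact hx
  have : Finite X := hX
  let F : Set.range π → (X → X) := fun A w => ⟨A.1 w.1, by
    obtain ⟨g, hg⟩ := A.2
    rw [← hg]
    exact hall g w.1 w.2⟩
  have hF : Function.Injective F := by
    intro A B hAB
    apply Subtype.ext
    refine LinearMap.ext_on hsp ?_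
    intro w hw
    have h1 := congrFun hAB ⟨w, hw⟩
    exact congrArg Subtype.val h1
  have : Finite (Set.range π) := Finite.of_injective F hF
  exact Set.toFinite _

theorem finite_roots {r : ℕ} (hr : 0 < r) : {c : ℂ | c ^ r = 1}.Finite := by
  refine Set.Finite.subset (Polynomial.nthRootsFinset r (1 : ℂ)).finite_toSet ?_
  intro c hc
  rw [Finset.mem_coe, Polynomial.mem_nthRootsFinset hr]
  exact hc

end fin

variable {n : ℕ} {G : Type*} [Group G] {l : Fin n → ℕ} {t : (Fin n → ℕ) → G} {V : Type u}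
  [AddCommGroup V] [Module ℂ V]

theorem root_of {π : G →* Module.End ℂ V} (h : QU l t π) {x : Fin n → ℕ} (hx : Ind l x)
    {c : ℂ} {w : V} (hw : w ≠ 0) (hc : π (t x) w = c • w) : ∃ r, 0 < r ∧ c ^ r = 1 :=
  h x hx c (Module.End.hasEigenvalue_of_hasEigenvector
    ⟨Module.End.mem_eigenspace_iff.2 hc, hw⟩)

/-- dimension one -/
theorem one_dim (h : Lonne l t) {π : G →* Module.End ℂ V} (hd : Module.finrank ℂ V = 1)
    (hu : QU l t π) : (Set.range π).Finite := by
  classical
  obtain ⟨w, hw, hsp⟩ := finrank_eq_one_iff'.1 hd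
  have hc : ∀ x, Ind l x → ∃ c : ℂ, π (t x) w = c • w := fun x _ => by
    obtain ⟨c, hc⟩ := hsp (π (t x) w)
    exact ⟨c, hc.symm⟩
  have hr : ∀ x, Ind l x → ∃ r, 0 < r ∧ ∀ c : ℂ, π (t x) w = c • w → c ^ r = 1 := by
    intro x hx
    obtain ⟨c, hc⟩ := hc x hx
    obtain ⟨r, hr, hcr⟩ := root_of hu hx hw hc
    refine ⟨r, hr, fun c' hc' => ?_⟩
    have h1 : c' = c := by
      rw [hc] at hc'
      exact (smul_left_injective ℂ hw hc').symm
    rw [h1, hcr]
  choose! r hr hr1 using hr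
  set R := ∏ x ∈ pts l, r x with hR
  have hRp : 0 < R := Finset.prod_pos fun x hx => hr x (mem_pts.1 hx)
  have hdv : ∀ x, Ind l x → r x ∣ R := fun x hx => Finset.dvd_prod_of_mem r (mem_pts.2 hx)
  refine finite_range π h.gen (X := (fun c : ℂ => c • w) '' {c | c ^ R = 1})
    ((finite_roots hRp).image _) ?_ ?_
  · apply top_unique
    intro v _
    obtain ⟨c, rfl⟩ := hsp v
    refine Submodule.smul_mem _ _ (Submodule.subset_span ⟨1, one_pow _, one_smul _ _⟩)
  · rintro _ ⟨x, hx, rfl⟩ _ ⟨c, hcR, rfl⟩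
    obtain ⟨c', hc'⟩ := hc x hx
    have h1 := hr1 x hx c' hc'
    obtain ⟨k, hk⟩ := hdv x hx
    refine ⟨c * c', ?_, ?_⟩
    · show (c * c') ^ R = 1
      rw [mul_pow, show c ^ R = 1 from hcR, hk, pow_mul, h1, one_pow, one_mul]
    · show (c * c') • w = π (t x) (c • w)
      rw [map_smul, hc', smul_smul]

/-- reflection type -/
theorem pham_roots (hn : 1 ≤ n) (hl : ∀ i, 6 ≤ l i) {π : G →* Module.End ℂ V}
    (hnt : Nontrivial V) (hu : QU l t π)
    (lam q : ℂ) (hlam : lam ≠ 0) (hq : q ≠ 0) (v : (Fin n → ℕ) → V)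
    (hs : Submodule.span ℂ (v '' {x | Ind l x}) = ⊤)
    (hv : ∀ x y, Ind l x → Ind l y → π (t x) (v y) = lam • (v y + cf q x y • v x)) :
    (∃ r, 0 < r ∧ lam ^ r = 1) ∧ ∃ r, 0 < r ∧ q ^ r = 1 := by
  have hne := v_ne_zero hl π hnt lam q hlam hq v hs hv
  have h0 : Ind l 0 := fun i => lt_of_lt_of_le (by norm_num) (hl i)
  have h5 : Ind l (fun _ => 5) := fun i => lt_of_lt_of_le (by norm_num) (hl i)
  have h1 := hv 0 (fun _ => 5) h0 h5
  have h2 : cf q (0 : Fin n → ℕ) (fun _ => 5) = 0 := by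
    refine cf_far q ?_ ?_ ?_
    · intro e
      have := congrFun e ⟨0, hn⟩
      simp at this
    · intro e
      have := (e.2 ⟨0, hn⟩).2
      simp at this
    · intro e
      have := (e.2 ⟨0, hn⟩).1
      simp at this
  rw [h2, zero_smul, add_zero] at h1
  obtain ⟨r, hr, hr1⟩ := root_of hu h0 (hne _ h5) h1
  have h3 := hv 0 0 h0 h0
  rw [cf_self, sub_smul, one_smul, add_sub_cancel, smul_smul] at h3
  obtain ⟨r', hr', hr1'⟩ := root_of hu h0 (hne _ h0) h3
  refine ⟨⟨r, hr, hr1⟩, r * r', Nat.mul_pos hr hr', ?_⟩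
  have h4 : q = (lam * q) * lam⁻¹ := by field_simp
  rw [h4, mul_pow, inv_pow, pow_mul lam, hr1, one_pow, inv_one, mul_one, mul_comm r, pow_mul, hr1',
    one_pow]

/-- monomial type -/
theorem mono_finite {l : Fin 1 → ℕ} {t : (Fin 1 → ℕ) → G} (h : Lonne l t)
    {π : G →* Module.End ℂ V} (hl : 6 ≤ l 0) (hm : IsMono l t π) (hu : QU l t π) :
    (Set.range π).Finite := by
  obtain ⟨lam, chi, w, hlam, hchi, hw, hs, ha⟩ := hm
  have hpt : ∀ i, i < l 0 → Ind l (pt i) := fun i hi => (Ind_pt i).2 hi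
  -- lam
  have h1 := ha 0 2 (by omega) (by omega)
  rw [if_neg (by omega), if_neg (by omega)] at h1
  obtain ⟨r, hr, hr1⟩ := root_of hu (hpt 0 (by omega)) (hw 2 (by omega)) h1
  -- chi
  obtain ⟨s, hs2⟩ : ∃ s : ℂ, s ^ 2 = chi := IsAlgClosed.exists_pow_nat_eq chi (by norm_num)
  have h00 := ha 0 0 (by omega) (by omega)
  have h01 := ha 0 1 (by omega) (by omega)
  rw [if_pos rfl] at h00
  rw [if_neg (by omega), if_pos rfl] at h01
  obtain ⟨r', hr', hr1'⟩ : ∃ r', 0 < r' ∧ chi ^ r' = 1 := by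
    by_cases hu0 : w 1 + s • w 0 = 0
    · have h2 : π (t (pt 0)) (w 0) = (-s) • w 0 := by
        rw [h00, neg_smul]
        exact eq_neg_of_add_eq_zero_left hu0
      obtain ⟨r', hr', h3⟩ := root_of hu (hpt 0 (by omega)) (hw 0 (by omega)) h2
      refine ⟨r', hr', ?_⟩
      rw [← hs2, ← neg_sq, ← pow_mul, mul_comm, pow_mul, h3, one_pow]
    · have h2 : π (t (pt 0)) (w 1 + s • w 0) = s • (w 1 + s • w 0) := by
        rw [map_add, map_smul, h00, h01, smul_add, smul_smul, ← pow_two, hs2, add_comm]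
      obtain ⟨r', hr', h3⟩ := root_of hu (hpt 0 (by omega)) hu0 h2
      refine ⟨r', hr', ?_⟩
      rw [← hs2, ← pow_mul, mul_comm, pow_mul, h3, one_pow]
  have hR : 0 < r * r' := Nat.mul_pos hr hr'
  have e1 : lam ^ (r * r') = 1 := by rw [pow_mul, hr1, one_pow]
  have e2 : chi ^ (r * r') = 1 := by rw [mul_comm, pow_mul, hr1', one_pow]
  refine finite_range π h.gen
    (X := (fun p : ℂ × ℕ => p.1 • w p.2) '' ({c | c ^ (r * r') = 1} ×ˢ {j | j ≤ l 0}))
    (((finite_roots hR).prod (Set.finite_le_nat _)).image _) ?_ ?_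
  · apply top_unique
    rw [← hs, Submodule.span_le]
    rintro _ ⟨i, hi, rfl⟩
    exact Submodule.subset_span ⟨(1, i), ⟨one_pow _, hi⟩, one_smul _ _⟩
  · rintro _ ⟨x, hx, rfl⟩ _ ⟨⟨c, j⟩, ⟨hc, hj⟩, rfl⟩
    have hc' : c ^ (r * r') = 1 := hc
    have hj' : j ≤ l 0 := hj
    have h2 := ha (x 0) j (hx 0) hj'
    rw [← eq_pt x] at h2
    have h4 : x 0 < l 0 := hx 0
    show π (t x) (c • w j) ∈ _
    rw [map_smul, h2]
    split_ifs with h3 h3
    · exact ⟨(c, x 0 + 1), ⟨hc', by show x 0 + 1 ≤ l 0; omega⟩, rfl⟩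
    · refine ⟨(c * chi, x 0), ⟨?_, by show x 0 ≤ l 0; omega⟩, ?_⟩
      · show (c * chi) ^ (r * r') = 1
        rw [mul_pow, hc', e2, one_mul]
      · show (c * chi) • w (x 0) = _
        rw [smul_smul]
    · refine ⟨(c * lam, j), ⟨?_, hj'⟩, ?_⟩
      · show (c * lam) ^ (r * r') = 1
        rw [mul_pow, hc', e1, one_mul]
      · show (c * lam) • w j = _
        rw [smul_smul]

end Pool.Agent.Lon
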