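import Pool.Agent.Lon.Top
import Pool.Agent.Lon.Img

/-!
# The main theorem
-/

set_option autoImplicit false
set_option linter.all false

namespace Pool.Agent.Lon

open Pool.Agent.HG13 Pool.Agent.QB54

universe u

variable {n : ℕ} {G : Type*} [Group G] {V : Type u} [AddCommGroup V] [Module ℂ V]

theorem irr_of (ρ : Representation ℂ G V) [ρ.IsIrreducible] : Irr (ρ : G →* Module.End ℂ V) := by
  have hnt : Nontrivial V := by
    have h := (inferInstance : ρ.IsIrreducible)
    by_contra hV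
    rw [not_nontrivial_iff_subsingleton] at hV
    have h1 := bot_ne_top (α := Subrepresentation ρ)
    apply h1
    ext x
    simp [Subsingleton.elim x 0]
  refine ⟨hnt, fun W h => ?_⟩
  have h1 := eq_bot_or_eq_top (⟨W, fun g x hx => h g x hx⟩ : Subrepresentation ρ)
  rcases h1 with h1 | h1
  · exact Or.inl (congrArg Subrepresentation.toSubmodule h1)
  · exact Or.inr (congrArg Subrepresentation.toSubmodule h1)

/-- subspaces stable under the generators -/
theorem gens_irr {l : Fin n → ℕ} {t : (Fin n → ℕ) → G} (h : Lonne l t)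
    {π : G →* Module.End ℂ V} [FiniteDimensional ℂ V] (hirr : Irr π) (W : Submodule ℂ V)
    (hW : ∀ x, Ind l x → ∀ w ∈ W, π (t x) w ∈ W) : W = ⊥ ∨ W = ⊤ := by
  refine hirr.2 W fun g => ?_
  have hg : g ∈ Subgroup.closure {g | ∃ x, Ind l x ∧ g = t x} := by
    rw [h.gen]; exact Subgroup.mem_top g
  induction hg using Subgroup.closure_induction with
  | mem g hg => obtain ⟨x, hx, rfl⟩ := hg; exact hW x hx
  | one => intro w hw; rw [map_one]; exact hw
  | mul a b _ _ ha hb =>
    intro w hw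
    rw [map_mul, Module.End.mul_apply]
    exact ha _ (hb w hw)
  | inv a _ ha =>
    have hinj : Function.Injective (π a) := by
      intro x y hxy
      have h1 : ∀ c, π a⁻¹ (π a c) = c := by
        intro c
        rw [← Module.End.mul_apply, ← map_mul, inv_mul_cancel, map_one, Module.End.one_apply]
      rw [← h1 x, hxy, h1]
    have h1 : W.map (π a) ≤ W := by
      rintro _ ⟨w, hw, rfl⟩
      exact ha w hw
    have h2 : W.map (π a) = W := by
      apply Submodule.eq_of_le_of_finrank_eq h1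
      exact LinearEquiv.finrank_eq (Submodule.equivMapOfInjective (π a) hinj W).symm
    intro w hw
    rw [← h2] at hw
    obtain ⟨x, hx, rfl⟩ := hw
    have h3 : π a⁻¹ (π a x) = x := by
      rw [← Module.End.mul_apply, ← map_mul, inv_mul_cancel, map_one, Module.End.one_apply]
    rw [h3]
    exact hx

theorem mono_iff {l : Fin 1 → ℕ} {t : (Fin 1 → ℕ) → G} {π : G →* Module.End ℂ V} :
    IsMono l t π ↔ Mono l t π := by
  have hsum : ∀ x : Fin 1 → ℕ, ∑ i, x i = x 0 := fun x => Fin.sum_univ_one _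
  unfold IsMono Mono
  simp only [hsum]
  constructor
  · rintro ⟨lam, chi, w, h1, h2, h3, h4, h5⟩
    refine ⟨trivial, lam, chi, w, h1, h2, h3, h4, ?_⟩
    intro x hx j hj
    have h6 := h5 (x 0) j (hx 0) hj
    rw [← eq_pt x] at h6
    rw [h6]
    split_ifs with e1 e2
    · rw [e1]
    · rw [e2, Nat.add_sub_cancel]
    · rfl
  · rintro ⟨-, lam, chi, w, h1, h2, h3, h4, h5⟩
    refine ⟨lam, chi, w, h1, h2, h3, h4, ?_⟩
    intro i j hi hj
    have h6 := h5 (pt i) ((Ind_pt i).2 hi) j hj
    rw [h6]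
    split_ifs with e1 e2
    · rw [e1]
    · rw [e2, Nat.add_sub_cancel]
    · rfl

/-- from the module to the statement -/
theorem finish (hn : 1 ≤ n) {l : Fin n → ℕ} (hl : ∀ i, 6 ≤ l i) {t : (Fin n → ℕ) → G}
    (h : Lonne l t) [FiniteDimensional ℂ V] (ρ : Representation ℂ G V) [ρ.IsIrreducible]
    (hc : Module.finrank ℂ V = 1 ∨ (∃ (lam q : ℂ) (v : (Fin n → ℕ) → V), lam ≠ 0 ∧ q ≠ 0 ∧
        Submodule.span ℂ (v '' {x | Ind l x}) = ⊤ ∧
        ∀ x y, Ind l x → Ind l y → ρ (t x) (v y) = lam • (v y + cf q x y • v x)) ∨ Mono l t ρ) :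
    (Module.finrank ℂ V = 1 ∨ Refl l t ρ ∨ Mono l t ρ) ∧
      (QU l t ρ → (Set.range ρ).Finite ∨ Vanishing l t ρ) := by
  have hirr := irr_of ρ
  haveI : Nontrivial V := hirr.1
  have hpos : 0 < Module.finrank ℂ V := Module.finrank_pos
  constructor
  · by_cases h1 : Module.finrank ℂ V = 1
    · exact Or.inl h1
    right
    rcases hc.resolve_left h1 with ⟨lam, q, v, hlam, hq, hs, hv⟩ | h2
    · exact Or.inl ⟨lam, q, v, hlam, hq, hs, hv, fun a =>
        radical hl ρ (gens_irr h hirr) (by omega) lam q hlam hq v hs hv a⟩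
    · exact Or.inr h2
  · intro hQ
    rcases hc with h1 | ⟨lam, q, v, hlam, hq, hs, hv⟩ | h1
    · exact Or.inl (one_dim h h1 hQ)
    · right
      obtain ⟨h2, h3⟩ := pham_roots hn hl hirr.1 hQ lam q hlam hq v hs hv
      exact vanishing_of h2 h3 hs hv
    · left
      obtain ⟨rfl, -⟩ := id h1
      exact mono_finite h (hl 0) (mono_iff.2 h1) hQ

/-- The range given by a chain of generators. -/
theorem main_chain {k m : ℕ} (hn : 1 ≤ n) {l : Fin n → ℕ} (hl : ∀ i, 6 ≤ l i) (hk : 12 ≤ k)
    (hm : 2 ≤ m) (hμ : 2 ^ (n - 1) * (m * k - 1) ≤ ∏ i, l i) {t : (Fin n → ℕ) → G}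
    (h : Lonne l t) [FiniteDimensional ℂ V] (ρ : Representation ℂ G V) [ρ.IsIrreducible]
    (hV : 2 * Module.finrank ℂ V < m * (m - 1) * (k - 2) ^ 2) :
    Module.finrank ℂ V = 1 ∨ (∃ (lam q : ℂ) (v : (Fin n → ℕ) → V), lam ≠ 0 ∧ q ≠ 0 ∧
        Submodule.span ℂ (v '' {x | Ind l x}) = ⊤ ∧
        ∀ x y, Ind l x → Ind l y → ρ (t x) (v y) = lam • (v y + cf q x y • v x)) ∨
      Mono l t ρ := by
  have hirr := irr_of ρ
  haveI : Nontrivial V := hirr.1
  have hpos : 0 < Module.finrank ℂ V := Module.finrank_pos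
  by_cases hn2 : 2 ≤ n
  · rcases quadratic_range hn2 hl h hk hm hμ ρ hirr hV with h1 | h1
    · exact Or.inl h1
    · exact Or.inr (Or.inl h1)
  · obtain rfl : n = 1 := by omega
    by_cases h1 : Module.finrank ℂ V = 1
    · exact Or.inl h1
    right
    have hμ' : m * k ≤ l 0 + 1 := by
      rw [Nat.sub_self, pow_zero, one_mul, Fin.prod_univ_one] at hμ
      omega
    have hB := base_one h hirr (by omega : 2 ≤ Module.finrank ℂ V)
    have hc : 2 * m.choose 2 = m * (m - 1) := by
      rw [Nat.choose_two_right]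
      exact Nat.mul_div_cancel' (Nat.even_mul_pred_self m).two_dvd
    have hV' : Module.finrank ℂ V < m.choose 2 * (k - 2) ^ 2 := by
      rw [← hc, mul_assoc] at hV
      omega
    have hS := st_of_blocks hB.br ρ k m (k - 2) (by omega) hm (by omega) (low_k.{u} k hk)
      (by omega) hV'
    have h24 : 24 ≤ m * k := by nlinarith
    rcases one_case h (by omega) hirr (by omega) hS with h2 | h2
    · exact Or.inl h2
    · exact Or.inr (mono_iff.1 h2)

end Pool.Agent.Lon
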