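import Pool.Agent.QB54.Gen

/-!
# Commuting families without symmetries
-/

set_option autoImplicit false
set_option linter.all false

namespace Pool.Agent.Lon

open Pool.Agent.HG13 Pool.Agent.QB54

universe u w

variable {H : Type w} [Group H] (K : Subgroup H) {V : Type u} [AddCommGroup V] [Module ℂ V]

-- MODULE MA1
private theorem MA1_com {A B : Submodule ℂ (Module.End ℂ V)}
    (h : ∀ a ∈ A, ∀ b ∈ B, a * b = b * a) : A * B = B * A := by
  apply le_antisymm
  · rw [Submodule.mul_le]
    intro a ha b hb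
    rw [h a ha b hb]
    exact Submodule.mul_mem_mul hb ha
  · rw [Submodule.mul_le]
    intro b hb a ha
    rw [← h a ha b hb]
    exact Submodule.mul_mem_mul ha hb

private theorem MA1_aug {σ τ : H →* Module.End ℂ V} (h : ∀ x y, Commute (σ x) (τ y)) :
    ∀ a ∈ AugK K σ, ∀ b ∈ AugK K τ, a * b = b * a := by
  intro a ha b hb
  refine Submodule.span_induction (p := fun a _ => a * b = b * a) ?_ ?_ ?_ ?_ ha
  · rintro x ⟨k, hk, rfl⟩
    refine Submodule.span_induction (p := fun b _ => (σ k - 1) * b = b * (σ k - 1))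
      ?_ ?_ ?_ ?_ hb
    · rintro y ⟨l, hl, rfl⟩
      exact (((h k l).sub_left (Commute.one_left _)).sub_right (Commute.one_right _)).eq
    · rw [mul_zero, zero_mul]
    · intro x y _ _ hx hy
      rw [mul_add, add_mul, hx, hy]
    · intro c x _ hx
      rw [mul_smul_comm, smul_mul_assoc, hx]
  · rw [mul_zero, zero_mul]
  · intro x y _ _ hx hy
    rw [mul_add, add_mul, hx, hy]
  · intro c x _ hx
    rw [mul_smul_comm, smul_mul_assoc, hx]

private theorem MA1_map {σ : H →* Module.End ℂ V} {W W' : Submodule ℂ V}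
    (h : ∀ k ∈ K, ∀ w ∈ W, σ k w - w ∈ W') : ∀ a ∈ AugK K σ, ∀ w ∈ W, a w ∈ W' := by
  intro a ha w hw
  refine Submodule.span_induction (p := fun a _ => a w ∈ W') ?_ ?_ ?_ ?_ ha
  · rintro x ⟨k, hk, rfl⟩
    exact h k hk w hw
  · exact W'.zero_mem
  · intro x y _ _ hx hy
    exact W'.add_mem hx hy
  · intro c x _ hx
    exact W'.smul_mem c hx

/-- PROOF. The proof of `machine` (MODULE GE13 of QB54/Gen.lean) verbatim: the swaps are used there only for hcard (at most one element in the support of a section), and hcard only to know that i or j is not in supF; this is the hypothesis hp here. (Copy the private lemmas GE13_com, GE13_aug, GE13_map under new names MA1_*.) -/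
theorem kill_pair [K.Normal] (hK : ⁅K, K⁆ = K) [FiniteDimensional ℂ V] (m : ℕ)
    (ρ : ℕ → (H →* Module.End ℂ V)) (hc : CFam m ρ) (i j : ℕ) (hi : i < m) (hj : j < m)
    (hij : i ≠ j)
    (hp : ∀ W1 W2, SecF m ρ W1 W2 → ¬ (i ∈ supF K m ρ W1 W2 ∧ j ∈ supF K m ρ W1 W2))
    (x y : H) (hx : x ∈ K) (hy : y ∈ K) : (ρ i x - 1) * (ρ j y - 1) = 0 := by
  classical
  have hA := AugK_mul_self K hK (ρ i)
  have hB := AugK_mul_self K hK (ρ j)
  have hAB := MA1_com (MA1_aug K (hc i j hi hj hij))
  set A := AugK K (ρ i) with hAdef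
  set B := AugK K (ρ j) with hBdef
  have hid : (A * B) * (A * B) = A * B := by
    calc (A * B) * (A * B) = A * (B * A) * B := by rw [mul_assoc, mul_assoc, mul_assoc]
      _ = A * (A * B) * B := by rw [hAB]
      _ = (A * A) * (B * B) := by rw [mul_assoc, mul_assoc, mul_assoc]
      _ = A * B := by rw [hA, hB]
  have hpow : ∀ r : ℕ, (A * B) ^ (r + 1) = A * B := by
    intro r
    induction r with
    | zero => rw [zero_add, Submodule.pow_one]
    | succ r ih => rw [Submodule.pow_succ, ih, hid]
  have hstA : ∀ W : Submodule ℂ V, StbF m ρ W → ∀ a ∈ A, ∀ w ∈ W, a w ∈ W := fun W hW =>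
    MA1_map K (fun k _ w hw => W.sub_mem (hW i hi k w hw) hw)
  have hstB : ∀ W : Submodule ℂ V, StbF m ρ W → ∀ a ∈ B, ∀ w ∈ W, a w ∈ W := fun W hW =>
    MA1_map K (fun k _ w hw => W.sub_mem (hW j hj k w hw) hw)
  have hmain : ∀ r : ℕ, ∀ W : Submodule ℂ V, StbF m ρ W → Module.finrank ℂ W ≤ r →
      ∀ φ ∈ (A * B) ^ r, ∀ w ∈ W, φ w = 0 := by
    intro r
    induction r with
    | zero =>
      intro W _ hW0 φ _ w hw
      have h1 : W = ⊥ := Submodule.finrank_eq_zero.1 (by omega)
      rw [h1, Submodule.mem_bot] at hw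
      rw [hw, map_zero]
    | succ r ih =>
      intro W hW hWr φ hφ w hw
      by_cases hb : W = ⊥
      · rw [hb, Submodule.mem_bot] at hw
        rw [hw, map_zero]
      · obtain ⟨W1, hS⟩ := (exists_secF m ρ W hW).2 hb
        have hlt : Module.finrank ℂ W1 < Module.finrank ℂ W :=
          Submodule.finrank_lt_finrank_of_lt hS.lt
        have hAB1 : ∀ ψ ∈ A * B, ∀ w ∈ W, ψ w ∈ W1 := by
          intro ψ hψ w hw
          by_cases h1 : i ∈ supF K m ρ W1 W
          · have h2 : j ∉ supF K m ρ W1 W := by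
              intro h2
              exact hp W1 W hS ⟨h1, h2⟩
            have h3 : ∀ k ∈ K, ∀ w ∈ W, ρ j k w - w ∈ W1 := by
              by_contra hcon
              apply h2
              rw [supF, Finset.mem_filter, Finset.mem_range]
              exact ⟨hj, hcon⟩
            refine Submodule.mul_induction_on hψ ?_ ?_
            · intro a ha b hb
              rw [Module.End.mul_apply]
              exact hstA W1 hS.s1 a ha _ (MA1_map K h3 b hb w hw)
            · intro x y hx hy
              exact W1.add_mem hx hy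
          · have h3 : ∀ k ∈ K, ∀ w ∈ W, ρ i k w - w ∈ W1 := by
              by_contra hcon
              apply h1
              rw [supF, Finset.mem_filter, Finset.mem_range]
              exact ⟨hi, hcon⟩
            refine Submodule.mul_induction_on hψ ?_ ?_
            · intro a ha b hb
              rw [Module.End.mul_apply]
              exact MA1_map K h3 a ha _ (hstB W hW b hb w hw)
            · intro x y hx hy
              exact W1.add_mem hx hy
        rw [Submodule.pow_succ] at hφ
        refine Submodule.mul_induction_on hφ ?_ ?_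
        · intro φ' hφ' ψ hψ
          rw [Module.End.mul_apply]
          exact ih W1 hS.s1 (by omega) φ' hφ' _ (hAB1 ψ hψ w hw)
        · intro x y hx hy
          rw [LinearMap.add_apply, hx, hy, add_zero]
  have hT : StbF m ρ ⊤ := fun _ _ _ _ _ => trivial
  apply LinearMap.ext
  intro w
  refine hmain (Module.finrank ℂ V + 1) ⊤ hT (by rw [finrank_top]; exact Nat.le_succ _) _ ?_ w
    trivial
  rw [hpow]
  exact Submodule.mul_mem_mul (Submodule.subset_span ⟨x, hx, rfl⟩)
    (Submodule.subset_span ⟨y, hy, rfl⟩)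
-- END MA1

-- MODULE MA2
/-- PROOF. powersetCard 2 (range m) is contained in the union over I ∈ S of powersetCard 2 I, so m.choose 2 ≤ ∑ I ∈ S, I.card.choose 2 (Finset.card_biUnion_le, Finset.card_powersetCard). For s ≥ 2: s.choose 2 ≤ 3 ^ (s - 2) ≤ d ^ (s - 2) (see choose_bound, MODULE GE11 of QB54/Gen.lean), so s.choose 2 * d ^ 2 ≤ d ^ s; for s < 2 the left side is 0. -/
theorem count_pairs (m d : ℕ) (hd : 3 ≤ d) (S : Finset (Finset ℕ))
    (hp : ∀ i j, i < j → j < m → ∃ I ∈ S, i ∈ I ∧ j ∈ I) :
    m.choose 2 * d ^ 2 ≤ ∑ I ∈ S, d ^ I.card := by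
  classical
  have h1 : Finset.powersetCard 2 (Finset.range m) ⊆ S.biUnion fun I => Finset.powersetCard 2 I := by
    intro T hT
    rw [Finset.mem_powersetCard] at hT
    obtain ⟨hTm, hTc⟩ := hT
    obtain ⟨a, b, hab, rfl⟩ := Finset.card_eq_two.1 hTc
    have ha : a < m := Finset.mem_range.1 (hTm (by simp))
    have hb : b < m := Finset.mem_range.1 (hTm (by simp))
    rw [Finset.mem_biUnion]
    rcases lt_or_gt_of_ne hab with h | h
    · obtain ⟨I, hI, h3, h4⟩ := hp a b h hb
      refine ⟨I, hI, Finset.mem_powersetCard.2 ⟨?_, hTc⟩⟩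
      intro x hx
      rcases Finset.mem_insert.1 hx with rfl | hx
      · exact h3
      · rw [Finset.mem_singleton.1 hx]
        exact h4
    · obtain ⟨I, hI, h3, h4⟩ := hp b a h ha
      refine ⟨I, hI, Finset.mem_powersetCard.2 ⟨?_, hTc⟩⟩
      intro x hx
      rcases Finset.mem_insert.1 hx with rfl | hx
      · exact h4
      · rw [Finset.mem_singleton.1 hx]
        exact h3
  have h2 : m.choose 2 ≤ ∑ I ∈ S, I.card.choose 2 := by
    calc m.choose 2 = (Finset.powersetCard 2 (Finset.range m)).card := by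
          rw [Finset.card_powersetCard, Finset.card_range]
      _ ≤ (S.biUnion fun I => Finset.powersetCard 2 I).card := Finset.card_le_card h1
      _ ≤ ∑ I ∈ S, (Finset.powersetCard 2 I).card := Finset.card_biUnion_le
      _ = ∑ I ∈ S, I.card.choose 2 :=
          Finset.sum_congr rfl fun I _ => Finset.card_powersetCard 2 I
  calc m.choose 2 * d ^ 2 ≤ (∑ I ∈ S, I.card.choose 2) * d ^ 2 := Nat.mul_le_mul_right _ h2
    _ = ∑ I ∈ S, I.card.choose 2 * d ^ 2 := Finset.sum_mul _ _ _
    _ ≤ ∑ I ∈ S, d ^ I.card := by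
        refine Finset.sum_le_sum fun I _ => ?_
        rcases le_or_gt 2 I.card with h | h
        · have h3 := choose_bound I.card I.card d hd h le_rfl
          rwa [Nat.choose_self, one_mul] at h3
        · rw [Nat.choose_eq_zero_of_lt h, zero_mul]
          exact Nat.zero_le _
-- END MA2

/-- some pair of members of the family is independent -/
theorem exists_pair [K.Normal] {d : ℕ} (hL : Low.{u, w} K d) (hd : 3 ≤ d) [FiniteDimensional ℂ V]
    (m : ℕ) (ρ : ℕ → (H →* Module.End ℂ V)) (hc : CFam m ρ)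
    (hV : Module.finrank ℂ V < m.choose 2 * d ^ 2) :
    ∃ i j, i < j ∧ j < m ∧ ∀ x ∈ K, ∀ y ∈ K, (ρ i x - 1) * (ρ j y - 1) = 0 := by
  classical
  by_contra hcon
  push Not at hcon
  have hbot : StbF m ρ ⊥ := by
    intro r _ x w hw
    rw [Submodule.mem_bot] at hw ⊢
    rw [hw, map_zero]
  have h3 := sum_leF K hL m ρ hc ⊥ hbot
  have h4 := count_pairs m d hd (suppsF K m ρ ⊥) ?_
  · omega
  intro i j hij hj
  by_contra hcon2
  push Not at hcon2
  obtain ⟨x, hx, y, hy, hxy⟩ := hcon i j hij hj
  refine hxy (kill_pair K hL.perfect m ρ hc i j (by omega) hj (by omega) ?_ x y hx hy)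
  rintro W1 W2 hS ⟨h5, h6⟩
  refine hcon2 (supF K m ρ W1 W2) ?_ h5 h6
  rw [suppsF, Finset.mem_filter, Finset.mem_powerset]
  exact ⟨Finset.filter_subset _ _, W1, W2, bot_le, hS, rfl⟩

end Pool.Agent.Lon
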