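import Pool.Agent.Lon.Grp
import Pool.Agent.Lon.Cmb

/-!
# The normalized situation

`T x = lam⁻¹ • π (t x)` as units of the endomorphism ring; distant `T x - 1` annihilate each other.
-/

set_option autoImplicit false
set_option linter.all false

namespace Pool.Agent.Lon

universe u

variable {n : ℕ} {V : Type u} [AddCommGroup V] [Module ℂ V]

/-- `(g - 1) * (h - 1) = 0` -/
def NZ (g h : (Module.End ℂ V)ˣ) : Prop :=
  ((g : Module.End ℂ V) - 1) * ((h : Module.End ℂ V) - 1) = 0

/-- the range of `g - 1` -/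
def EE (g : (Module.End ℂ V)ˣ) : Submodule ℂ V := LinearMap.range ((g : Module.End ℂ V) - 1)

/-- operators satisfying the relations, irreducible, with `T x - 1`, `T y - 1` annihilating each
other for different non-adjacent `x`, `y` -/
structure Nm (l : Fin n → ℕ) (T : (Fin n → ℕ) → (Module.End ℂ V)ˣ) : Prop where
  two : 2 ≤ n
  six : ∀ i, 6 ≤ l i
  comm : ∀ x y, Ind l x → Ind l y → ¬ Adj x y → T x * T y = T y * T x
  braid : ∀ x y, Ind l x → Ind l y → Adj x y → T x * T y * T x = T y * T x * T y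
  tri : ∀ x y z, Ind l x → Ind l y → Ind l z → Lt x y → Lt y z → Lt x z → Cyc (T x) (T y) (T z)
  irr : ∀ W : Submodule ℂ V, (∀ x, Ind l x → ∀ w ∈ W, (T x : Module.End ℂ V) w ∈ W) →
    W = ⊥ ∨ W = ⊤
  dim : 2 ≤ Module.finrank ℂ V
  zero : ∀ x y, Ind l x → Ind l y → x ≠ y → ¬ Adj x y → NZ (T x) (T y)

-- MODULE N1
private theorem N1_c (g k : (Module.End ℂ V)ˣ) : ((k * g * k⁻¹ : (Module.End ℂ V)ˣ) : Module.End ℂ V) - 1 =
    (k : Module.End ℂ V) * ((g : Module.End ℂ V) - 1) * ((k⁻¹ : (Module.End ℂ V)ˣ) : Module.End ℂ V) := by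
  rw [mul_sub, sub_mul, mul_one, Units.mul_inv, Units.val_mul, Units.val_mul]

theorem NZ_conj {g h : (Module.End ℂ V)ˣ} (k : (Module.End ℂ V)ˣ) (hz : NZ g h) :
    NZ (k * g * k⁻¹) (k * h * k⁻¹) := by
  unfold NZ at *
  rw [N1_c, N1_c]
  calc _ = (k : Module.End ℂ V) * ((g : Module.End ℂ V) - 1) *
        (((k⁻¹ : (Module.End ℂ V)ˣ) : Module.End ℂ V) * (k : Module.End ℂ V)) *
        ((h : Module.End ℂ V) - 1) * ((k⁻¹ : (Module.End ℂ V)ˣ) : Module.End ℂ V) := by
        simp only [mul_assoc]
    _ = (k : Module.End ℂ V) * (((g : Module.End ℂ V) - 1) * ((h : Module.End ℂ V) - 1)) *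
        ((k⁻¹ : (Module.End ℂ V)ˣ) : Module.End ℂ V) := by
        rw [Units.inv_mul, mul_one, mul_assoc]
        simp only [mul_assoc]
    _ = 0 := by rw [hz, mul_zero, zero_mul]

theorem NZ_symm {g h : (Module.End ℂ V)ˣ} (hc : g * h = h * g) (hz : NZ g h) : NZ h g := by
  unfold NZ at *
  have e : (g : Module.End ℂ V) * (h : Module.End ℂ V) = (h : Module.End ℂ V) * (g : Module.End ℂ V) := by
    rw [← Units.val_mul, hc, Units.val_mul]
  rw [← hz, sub_mul, mul_sub, mul_sub, sub_mul, mul_sub, mul_sub, e]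
  simp only [mul_one, one_mul]
  abel

theorem NZ_fix {g h : (Module.End ℂ V)ˣ} (hc : g * h = h * g) (hz : NZ g h) (w : V)
    (hw : w ∈ EE g) : (h : Module.End ℂ V) w = w := by
  have h1 := NZ_symm hc hz
  obtain ⟨u, rfl⟩ := hw
  have h2 := LinearMap.congr_fun h1 u
  rw [Module.End.mul_apply] at h2
  exact sub_eq_zero.1 h2

theorem EE_conj {g g' : (Module.End ℂ V)ˣ} (k : (Module.End ℂ V)ˣ) (hk : k * g = g' * k) (w : V) :
    (k : Module.End ℂ V) w ∈ EE g' ↔ w ∈ EE g := by
  have e : (k : Module.End ℂ V) * (g : Module.End ℂ V) = (g' : Module.End ℂ V) * (k : Module.End ℂ V) := by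
    rw [← Units.val_mul, hk, Units.val_mul]
  have e1 : ∀ u, ((g' : Module.End ℂ V) - 1) ((k : Module.End ℂ V) u) =
      (k : Module.End ℂ V) (((g : Module.End ℂ V) - 1) u) := by
    intro u
    have := LinearMap.congr_fun e u
    simp only [Module.End.mul_apply] at this
    simp only [LinearMap.sub_apply, Module.End.one_apply, map_sub, this]
  have ki : ∀ u, (k : Module.End ℂ V) (((k⁻¹ : (Module.End ℂ V)ˣ) : Module.End ℂ V) u) = u := by
    intro u
    rw [← Module.End.mul_apply, Units.mul_inv, Module.End.one_apply]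
  have ki' : ∀ u, ((k⁻¹ : (Module.End ℂ V)ˣ) : Module.End ℂ V) ((k : Module.End ℂ V) u) = u := by
    intro u
    rw [← Module.End.mul_apply, Units.inv_mul, Module.End.one_apply]
  constructor
  · rintro ⟨u, hu⟩
    refine ⟨((k⁻¹ : (Module.End ℂ V)ˣ) : Module.End ℂ V) u, ?_⟩
    have h2 := e1 (((k⁻¹ : (Module.End ℂ V)ˣ) : Module.End ℂ V) u)
    rw [ki, hu] at h2
    have h3 := congrArg ((k⁻¹ : (Module.End ℂ V)ˣ) : Module.End ℂ V) h2
    rw [ki', ki'] at h3
    exact h3.symm
  · rintro ⟨u, rfl⟩
    exact ⟨(k : Module.End ℂ V) u, e1 u⟩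
-- END N1

-- MODULE N2
private theorem N2_tr {g h g' h' k : (Module.End ℂ V)ˣ} (hz : NZ g h) (h1 : k * g = g' * k)
    (h2 : k * h = h' * k) : NZ g' h' := by
  have e1 : k * g * k⁻¹ = g' := by rw [h1]; group
  have e2 : k * h * k⁻¹ = h' := by rw [h2]; group
  have h3 := NZ_conj k hz
  rwa [e1, e2] at h3

private theorem N2_P {a b c P : (Module.End ℂ V)ˣ} (ha : P * a = c * P) (hb : P * b = a * P)
    (hc : P * c = b * P) (hz : NZ a (b * c * b⁻¹)) : NZ c (a * b * a⁻¹) := by
  refine N2_tr (k := P) hz ha ?_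
  have e1 : P * a * P⁻¹ = c := by rw [ha]; group
  have e2 : P * b * P⁻¹ = a := by rw [hb]; group
  have e3 : P * c * P⁻¹ = b := by rw [hc]; group
  calc P * (b * c * b⁻¹) = (P * b * P⁻¹) * (P * c * P⁻¹) * (P * b * P⁻¹)⁻¹ * P := by group
    _ = _ := by rw [e2, e3]

private theorem N2_swap {g v : (Module.End ℂ V)ˣ} (e : g * v * g = v * g * v)
    {f : (Module.End ℂ V)ˣ} (h1 : g * f = f * g) (h2 : v * f = f * v) (hz : NZ v f) :
    NZ g f := by
  refine N2_tr (k := (g * v)⁻¹) hz ?_ ?_
  · calc (g * v)⁻¹ * v = (g * v)⁻¹ * (v * g * v) * (g * v)⁻¹ := by group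
      _ = (g * v)⁻¹ * (g * v * g) * (g * v)⁻¹ := by rw [e]
      _ = g * (g * v)⁻¹ := by group
  · have h3 : Commute (g * v) f := Commute.mul_left h1 h2
    exact h3.inv_left

/-- In a triangle x < y < z: (z, x y x⁻¹), (x, y z y⁻¹), (y, z x z⁻¹) are conjugate to a pair of non-adjacent generators. PROOF. Let k be a coordinate with y k = x k + 1 (Lt x y), so z k = y k.
Case x k ≥ 1: u = dn x k is adjacent to x and not to y, z (y k = u k + 2, z k = u k + 2), so u commutes with T y, T z, T w, w = T y T z (T y)⁻¹; g = T x * T u (braid relation) conjugates T x to T u and commutes with w (cyc: T x commutes with w, u commutes with w): NZ (T x) w ⟸ NZ (T u) w ⟸ (conjugate by (T y)⁻¹, which commutes with T u) NZ (T u) (T z): `zero`.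
Case x k = 0: y k = 1, u = up y k (2 < l k), adjacent to y, not adjacent to x (u k = x k + 2), nor to z: z k = y k < u k and some coordinate j with z j = y j + 1 = u j + 1 (Lt y z, j ≠ k), so u, z are not comparable. w = T x T y (T x)⁻¹ commutes with T z (Cyc z x y by cyc_rot twice), satisfies the braid relation with T u (conjugate the one of T y, T u by T x, T u commutes with T x); g = w * T u conjugates w to T u and commutes with T z: NZ (T z) w ⟸ NZ (T z) (T u): `zero`.
The three pairs are conjugate to each other by P = T x T y T z T x (cyc_conj: P y = x P, P z = y P, P x = z P): P maps (x, y z y⁻¹) to (z, x y x⁻¹) and this to (y, z x z⁻¹). -/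
theorem tri_pairs {l : Fin n → ℕ} {T : (Fin n → ℕ) → (Module.End ℂ V)ˣ} (h : Nm l T)
    {x y z : Fin n → ℕ} (hx : Ind l x) (hy : Ind l y) (hz : Ind l z) (hxy : Lt x y)
    (hyz : Lt y z) (hxz : Lt x z) :
    NZ (T x) (T y * T z * (T y)⁻¹) ∧ NZ (T y) (T z * T x * (T z)⁻¹) ∧
      NZ (T z) (T x * T y * (T x)⁻¹) := by
  have bxy : T x * T y * T x = T y * T x * T y := h.braid x y hx hy (Or.inl hxy)
  have byz : T y * T z * T y = T z * T y * T z := h.braid y z hy hz (Or.inl hyz)
  have bzx : T z * T x * T z = T x * T z * T x := h.braid z x hz hx (Or.inr hxz)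
  have c0 : Cyc (T x) (T y) (T z) := h.tri x y z hx hy hz hxy hyz hxz
  have c1 : Cyc (T y) (T z) (T x) := cyc_rot _ _ _ byz c0
  have c2 : Cyc (T z) (T x) (T y) := cyc_rot _ _ _ bzx c1
  obtain ⟨p1, p2, p3⟩ := cyc_conj _ _ _ bxy byz bzx c0
  have q1 : NZ (T x) (T y * T z * (T y)⁻¹) → NZ (T z) (T x * T y * (T x)⁻¹) :=
    fun hn => N2_P p3 p1 p2 hn
  have q2 : NZ (T z) (T x * T y * (T x)⁻¹) → NZ (T y) (T z * T x * (T z)⁻¹) :=
    fun hn => N2_P p2 p3 p1 hn
  have q3 : NZ (T y) (T z * T x * (T z)⁻¹) → NZ (T x) (T y * T z * (T y)⁻¹) :=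
    fun hn => N2_P p1 p2 p3 hn
  obtain ⟨k, hk⟩ : ∃ k, y k = x k + 1 := by
    by_contra hne
    push Not at hne
    refine hxy.1 (funext fun i => ?_)
    have h1 := hxy.2 i
    have h2 := hne i
    omega
  have hzk : z k = y k := by
    have h1 := hxz.2 k
    have h2 := hyz.2 k
    omega
  rcases Nat.eq_zero_or_pos (x k) with h0 | h0
  · obtain ⟨j, hj⟩ : ∃ j, z j = y j + 1 := by
      by_contra hne
      push Not at hne
      refine hyz.1 (funext fun i => ?_)
      have h1 := hyz.2 i
      have h2 := hne i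
      omega
    have hjk : j ≠ k := by
      rintro rfl
      omega
    have huk : up y k k = y k + 1 := by simp [up]
    have huj : up y k j = y j := by simp [up, Function.update_of_ne hjk]
    have hu : Ind l (up y k) := by
      intro i
      by_cases hi : i = k
      · subst hi
        rw [huk]
        have := h.six i
        omega
      · have : up y k i = y i := by simp [up, Function.update_of_ne hi]
        rw [this]
        exact hy i
    have n1 : ¬ Adj (up y k) x := by
      intro ha
      have := ha.le k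
      omega
    have n2 : ¬ Adj (up y k) z := by
      rintro (ha | ha)
      · have := ha.2 k
        omega
      · have := ha.2 j
        omega
    have hzu : z ≠ up y k := by
      intro he
      have := congrFun he k
      omega
    have n3 : ¬ Adj z (up y k) := fun ha => n2 ha.symm
    have z0 : NZ (T z) (T (up y k)) := h.zero _ _ hz hu hzu n3
    have k1 : T (up y k) * T x = T x * T (up y k) := h.comm _ _ hu hx n1
    have k2 : T (up y k) * T z = T z * T (up y k) := h.comm _ _ hu hz n2
    have b1 : T y * T (up y k) * T y = T (up y k) * T y * T (up y k) :=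
      h.braid _ _ hy hu (Or.inl (Lt_up y k))
    have e1 : T x * T (up y k) * (T x)⁻¹ = T (up y k) := by rw [← k1]; group
    have b2 : T x * T y * (T x)⁻¹ * T (up y k) * (T x * T y * (T x)⁻¹) =
        T (up y k) * (T x * T y * (T x)⁻¹) * T (up y k) := by
      calc T x * T y * (T x)⁻¹ * T (up y k) * (T x * T y * (T x)⁻¹) =
          T x * T y * (T x)⁻¹ * (T x * T (up y k) * (T x)⁻¹) * (T x * T y * (T x)⁻¹) := by
            rw [e1]
        _ = T x * (T y * T (up y k) * T y) * (T x)⁻¹ := by group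
        _ = T x * (T (up y k) * T y * T (up y k)) * (T x)⁻¹ := by rw [b1]
        _ = (T x * T (up y k) * (T x)⁻¹) * (T x * T y * (T x)⁻¹) *
            (T x * T (up y k) * (T x)⁻¹) := by group
        _ = _ := by rw [e1]
    have r3 : NZ (T z) (T x * T y * (T x)⁻¹) := by
      refine NZ_symm c2.symm ?_
      exact N2_swap b2 c2.symm k2 (NZ_symm k2.symm z0)
    exact ⟨q3 (q2 r3), q2 r3, r3⟩
  · have huk : dn x k k = x k - 1 := by simp [dn]
    have hu : Ind l (dn x k) := by
      intro i
      by_cases hi : i = k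
      · subst hi
        rw [huk]
        have := hx i
        omega
      · have : dn x k i = x i := by simp [dn, Function.update_of_ne hi]
        rw [this]
        exact hx i
    have n1 : ¬ Adj (dn x k) y := by
      intro ha
      have := ha.le k
      omega
    have n2 : ¬ Adj (dn x k) z := by
      intro ha
      have := ha.le k
      omega
    have huz : dn x k ≠ z := by
      intro he
      have := congrFun he k
      omega
    have z0 : NZ (T (dn x k)) (T z) := h.zero _ _ hu hz huz n2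
    have k1 : T (dn x k) * T y = T y * T (dn x k) := h.comm _ _ hu hy n1
    have k2 : T (dn x k) * T z = T z * T (dn x k) := h.comm _ _ hu hz n2
    have b1 : T x * T (dn x k) * T x = T (dn x k) * T x * T (dn x k) :=
      h.braid _ _ hx hu (Or.inr (Lt_dn x k h0))
    have z1 : NZ (T (dn x k)) (T y * T z * (T y)⁻¹) :=
      N2_tr (k := T y) z0 k1.symm (by group)
    have k3 : T (dn x k) * (T y * T z * (T y)⁻¹) = T y * T z * (T y)⁻¹ * T (dn x k) := by
      have c3 : Commute (T (dn x k)) (T y) := k1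
      have c4 : Commute (T (dn x k)) (T z) := k2
      exact (c3.mul_right c4).mul_right c3.inv_right
    have r1 : NZ (T x) (T y * T z * (T y)⁻¹) := N2_swap b1 c0 k3 z1
    exact ⟨r1, q2 (q1 r1), q1 r1⟩
-- END N2

end Pool.Agent.Lon
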