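import Pool.Agent.Lon.Grp
import Pool.Agent.Lon.Cmb

/-!
# The abstract group of a box
-/

set_option autoImplicit false
set_option linter.all false

namespace Pool.Agent.Lon

universe u

variable {n : ℕ}

/-- the relations of `Lonne`, without generation -/
structure LRel {G : Type*} [Group G] (l : Fin n → ℕ) (t : (Fin n → ℕ) → G) : Prop where
  comm : ∀ x y, Ind l x → Ind l y → ¬ Lt x y → ¬ Lt y x → t x * t y = t y * t x
  braid : ∀ x y, Ind l x → Ind l y → Lt x y → t x * t y * t x = t y * t x * t y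
  tri : ∀ x y z, Ind l x → Ind l y → Ind l z → Lt x y → Lt y z → Lt x z →
    t x * t y * t z * t x = t y * t z * t x * t y

/-- The relators; the generators outside of the box are trivial. -/
def lgRels (l : Fin n → ℕ) : Set (FreeGroup (Fin n → ℕ)) :=
  {r | (∃ x y, Ind l x ∧ Ind l y ∧ ¬ Lt x y ∧ ¬ Lt y x ∧
      r = FreeGroup.of x * FreeGroup.of y * (FreeGroup.of y * FreeGroup.of x)⁻¹) ∨
    (∃ x y, Ind l x ∧ Ind l y ∧ Lt x y ∧
      r = FreeGroup.of x * FreeGroup.of y * FreeGroup.of x *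
        (FreeGroup.of y * FreeGroup.of x * FreeGroup.of y)⁻¹) ∨
    (∃ x y z, Ind l x ∧ Ind l y ∧ Ind l z ∧ Lt x y ∧ Lt y z ∧ Lt x z ∧
      r = FreeGroup.of x * FreeGroup.of y * FreeGroup.of z * FreeGroup.of x *
        (FreeGroup.of y * FreeGroup.of z * FreeGroup.of x * FreeGroup.of y)⁻¹) ∨
    (∃ x, ¬ Ind l x ∧ r = FreeGroup.of x)}

/-- the abstract group -/
abbrev LG (l : Fin n → ℕ) : Type := PresentedGroup (lgRels l)

/-- its generators -/
def lg (l : Fin n → ℕ) (x : Fin n → ℕ) : LG l := PresentedGroup.of x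

/-- the normal closure of the differences of generators -/
def KL (l : Fin n → ℕ) : Subgroup (LG l) :=
  Subgroup.normalClosure {g | ∃ x y, Ind l x ∧ Ind l y ∧ g = lg l x * (lg l y)⁻¹}

instance (l : Fin n → ℕ) : (KL l).Normal := Subgroup.normalClosure_normal

-- MODULE PR1
/-- PROOF. The relations: PresentedGroup.one_of_mem (compare bs_isBr, MODULE BL1 of QB54/Blk.lean). gen: PresentedGroup.closure_range_of; `lg l x = 1` for x not in the box, so the closure of the lg l x, Ind l x, is the closure of the range. -/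
theorem lg_lonne (l : Fin n → ℕ) : Lonne l (lg l) := by
  refine ⟨fun x y hx hy h1 h2 => ?_, fun x y hx hy h1 => ?_,
    fun x y z hx hy hz h1 h2 h3 => ?_, ?_⟩
  · have h : (QuotientGroup.mk' (Subgroup.normalClosure (lgRels l)))
        (FreeGroup.of x * FreeGroup.of y * (FreeGroup.of y * FreeGroup.of x)⁻¹) = 1 :=
      PresentedGroup.one_of_mem (Or.inl ⟨x, y, hx, hy, h1, h2, rfl⟩)
    rw [map_mul, map_inv, mul_inv_eq_one] at h
    exact h
  · have h : (QuotientGroup.mk' (Subgroup.normalClosure (lgRels l)))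
        (FreeGroup.of x * FreeGroup.of y * FreeGroup.of x *
        (FreeGroup.of y * FreeGroup.of x * FreeGroup.of y)⁻¹) = 1 :=
      PresentedGroup.one_of_mem (Or.inr (Or.inl ⟨x, y, hx, hy, h1, rfl⟩))
    rw [map_mul, map_inv, mul_inv_eq_one] at h
    exact h
  · have h : (QuotientGroup.mk' (Subgroup.normalClosure (lgRels l)))
        (FreeGroup.of x * FreeGroup.of y * FreeGroup.of z * FreeGroup.of x *
        (FreeGroup.of y * FreeGroup.of z * FreeGroup.of x * FreeGroup.of y)⁻¹) = 1 :=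
      PresentedGroup.one_of_mem (Or.inr (Or.inr (Or.inl ⟨x, y, z, hx, hy, hz, h1, h2, h3, rfl⟩)))
    rw [map_mul, map_inv, mul_inv_eq_one] at h
    exact h
  · rw [eq_top_iff, ← PresentedGroup.closure_range_of (lgRels l), Subgroup.closure_le]
    rintro _ ⟨x, rfl⟩
    by_cases hx : Ind l x
    · exact Subgroup.subset_closure ⟨x, hx, rfl⟩
    · have h : (PresentedGroup.of x : LG l) = 1 :=
        PresentedGroup.one_of_mem (Or.inr (Or.inr (Or.inr ⟨x, hx, rfl⟩)))
      rw [h]
      exact one_mem _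
-- END PR1

-- MODULE PR2
/-- PROOF. PresentedGroup.toGroup for the map x ↦ if Ind l x then t x else 1 (classical) (compare exists_hom, MODULE BL2 of QB54/Blk.lean). -/
theorem lg_hom {G : Type*} [Group G] {l : Fin n → ℕ} {t : (Fin n → ℕ) → G} (h : LRel l t) :
    ∃ f : LG l →* G, ∀ x, Ind l x → f (lg l x) = t x := by
  classical
  have hr : ∀ r ∈ lgRels l,
      FreeGroup.lift (fun x : Fin n → ℕ => if Ind l x then t x else 1) r = 1 := by
    rintro r (⟨x, y, hx, hy, h1, h2, rfl⟩ | ⟨x, y, hx, hy, h1, rfl⟩ |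
      ⟨x, y, z, hx, hy, hz, h1, h2, h3, rfl⟩ | ⟨x, hx, rfl⟩)
    · simp only [map_mul, map_inv, FreeGroup.lift_apply_of, if_pos hx, if_pos hy]
      rw [h.comm x y hx hy h1 h2, mul_inv_cancel]
    · simp only [map_mul, map_inv, FreeGroup.lift_apply_of, if_pos hx, if_pos hy]
      rw [h.braid x y hx hy h1, mul_inv_cancel]
    · simp only [map_mul, map_inv, FreeGroup.lift_apply_of, if_pos hx, if_pos hy, if_pos hz]
      rw [h.tri x y z hx hy hz h1 h2 h3, mul_inv_cancel]
    · simp only [FreeGroup.lift_apply_of, if_neg hx]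
  refine ⟨PresentedGroup.toGroup hr, fun x hx => ?_⟩
  exact (PresentedGroup.toGroup.of hr).trans (if_pos hx)
-- END PR2

-- MODULE PR3
theorem comm_le_KL (l : Fin n → ℕ) (hl : ∀ i, 6 ≤ l i) :
    (⁅(⊤ : Subgroup (LG l)), (⊤ : Subgroup (LG l))⁆ : Subgroup (LG l)) ≤ KL l := by
  have h0 : Ind l 0 := fun i => lt_of_lt_of_le (by norm_num) (hl i)
  have hpow : ∀ g : LG l, ∃ k : ℤ,
      QuotientGroup.mk' (KL l) g = QuotientGroup.mk' (KL l) (lg l 0) ^ k := by
    intro g
    have hg : g ∈ Subgroup.closure {g | ∃ x, Ind l x ∧ g = lg l x} := by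
      rw [(lg_lonne l).gen]; exact Subgroup.mem_top g
    induction hg using Subgroup.closure_induction with
    | mem x hx =>
      obtain ⟨z, hz, rfl⟩ := hx
      refine ⟨1, ?_⟩
      rw [zpow_one, ← mul_inv_eq_one, ← map_inv, ← map_mul]
      exact (QuotientGroup.eq_one_iff _).2 (Subgroup.subset_normalClosure ⟨z, 0, hz, h0, rfl⟩)
    | one => exact ⟨0, by rw [map_one, zpow_zero]⟩
    | mul x y _ _ hx hy =>
      obtain ⟨a, ha⟩ := hx
      obtain ⟨b, hb⟩ := hy
      exact ⟨a + b, by rw [map_mul, ha, hb, zpow_add]⟩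
    | inv x _ hx =>
      obtain ⟨a, ha⟩ := hx
      exact ⟨-a, by rw [map_inv, ha, zpow_neg]⟩
  refine Subgroup.commutator_le.2 fun a _ b _ => ?_
  obtain ⟨m, hm⟩ := hpow a
  obtain ⟨k, hk⟩ := hpow b
  have h : QuotientGroup.mk' (KL l) (a * b * a⁻¹ * b⁻¹) = 1 := by
    rw [map_mul, map_mul, map_mul, map_inv, map_inv, hm, hk, ← zpow_add, add_comm, zpow_add,
      mul_inv_cancel_right, mul_inv_cancel]
  exact (QuotientGroup.eq_one_iff _).1 h
-- END PR3

-- MODULE PR4
private theorem PR_box {l : Fin n → ℕ} (hl : ∀ i, 6 ≤ l i) (P : (Fin n → ℕ) → Prop)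
    (hP : ∀ x i, Ind l x → Ind l (up x i) → (P x ↔ P (up x i))) (x y : Fin n → ℕ)
    (hx : Ind l x) (hy : Ind l y) (h : P x) : P y := by
  have hb : ∀ z, Ind l z ↔ Bx 0 (fun i => l i - 1) z := by
    intro z
    constructor
    · intro hz i
      have := hz i
      refine ⟨Nat.zero_le _, ?_⟩
      show z i ≤ l i - 1
      omega
    · intro hz i
      have h1 : z i ≤ l i - 1 := (hz i).2
      have := hl i
      omega
  refine box_ind 0 (fun i => l i - 1) P ?_ x y ((hb x).1 hx) ((hb y).1 hy) h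
  intro z i hz hzi
  refine hP z i ((hb z).2 hz) ?_
  intro j
  by_cases hj : j = i
  · subst hj
    have h1 : z j < l j - 1 := hzi
    rw [up, Function.update_self]
    omega
  · rw [up, Function.update_of_ne hj]
    exact ((hb z).2 hz) j

private theorem PR_id {G : Type*} [Group G] (a b c : G) (h : a * b * a = b * a * b)
    (h1 : a * c = c * a) (h2 : b * c = c * b) :
    (a * c⁻¹ * (b * c⁻¹)) * (a * c⁻¹) * (a * c⁻¹ * (b * c⁻¹))⁻¹ * (a * c⁻¹)⁻¹ = b * a⁻¹ := by
  have k1 : Commute a c⁻¹ := Commute.inv_right (show Commute a c from h1)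
  have k2 : Commute b c⁻¹ := Commute.inv_right (show Commute b c from h2)
  generalize c⁻¹ = d at k1 k2 ⊢
  have e1 : d * a = a * d := k1.eq.symm
  have e2 : d * b = b * d := k2.eq.symm
  have e1' : ∀ z, d * (a * z) = a * (d * z) := fun z => by rw [← mul_assoc, e1, mul_assoc]
  have e2' : ∀ z, d * (b * z) = b * (d * z) := fun z => by rw [← mul_assoc, e2, mul_assoc]
  have h' : ∀ z, a * (b * (a * z)) = b * (a * (b * z)) := fun z => by
    rw [← mul_assoc, ← mul_assoc, h]
    simp only [mul_assoc]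
  have key : a * d * (b * d) * (a * d) = b * d * (a * d * (b * d)) := by
    simp only [mul_assoc, e1', e2', h']
  rw [key, mul_inv_cancel_right, mul_inv_rev, ← mul_assoc, mul_inv_cancel_right]

theorem KL_perfect (hn : 1 ≤ n) (l : Fin n → ℕ) (hl : ∀ i, 6 ≤ l i) : ⁅KL l, KL l⁆ = KL l := by
  refine le_antisymm (Subgroup.commutator_le_left _ _) ?_
  refine Subgroup.normalClosure_le_normal ?_
  have hmem : ∀ x y, Ind l x → Ind l y → lg l x * (lg l y)⁻¹ ∈ KL l := fun x y hx hy =>
    Subgroup.subset_normalClosure ⟨x, y, hx, hy, rfl⟩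
  have hedge : ∀ a b, Ind l a → Ind l b → Adj a b → lg l b * (lg l a)⁻¹ ∈ ⁅KL l, KL l⁆ := by
    intro a b ha hb hab
    let i1 : Fin n := ⟨0, hn⟩
    obtain ⟨c, hc, hca, hcb⟩ : ∃ c, Ind l c ∧ ¬ Adj a c ∧ ¬ Adj b c := by
      have h1 := hab.le i1
      by_cases h2 : 2 ≤ a i1 ∧ 2 ≤ b i1
      · refine ⟨0, fun i => lt_of_lt_of_le (by norm_num) (hl i), fun h => ?_, fun h => ?_⟩
        · have := (h.le i1).1
          rw [Pi.zero_apply] at this
          omega
        · have := (h.le i1).1
          rw [Pi.zero_apply] at this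
          omega
      · refine ⟨Function.update 0 i1 5, fun i => ?_, fun h => ?_, fun h => ?_⟩
        · by_cases hi : i = i1
          · subst hi
            rw [Function.update_self]
            have := hl i1
            omega
          · rw [Function.update_of_ne hi]
            exact lt_of_lt_of_le (by norm_num) (hl i)
        · have := (h.le i1).2
          rw [Function.update_self] at this
          omega
        · have := (h.le i1).2
          rw [Function.update_self] at this
          omega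
    have hL := lg_lonne l
    have h3 := Subgroup.commutator_mem_commutator
      (mul_mem (hmem a c ha hc) (hmem b c hb hc)) (hmem a c ha hc)
    rw [commutatorElement_def, PR_id _ _ _ (hL.brd ha hb hab) (hL.com ha hc hca)
      (hL.com hb hc hcb)] at h3
    exact h3
  rintro g ⟨x, y, hx, hy, rfl⟩
  refine PR_box hl (fun z => lg l z * (lg l y)⁻¹ ∈ ⁅KL l, KL l⁆) ?_ y x hy hx ?_
  · intro z i hz hz'
    have hadj : Adj z (up z i) := Or.inl (Lt_up z i)
    constructor
    · intro h
      have h4 := mul_mem (hedge z (up z i) hz hz' hadj) h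
      rwa [mul_assoc, inv_mul_cancel_left] at h4
    · intro h
      have h4 := mul_mem (hedge (up z i) z hz' hz hadj.symm) h
      rwa [mul_assoc, inv_mul_cancel_left] at h4
  · show lg l y * (lg l y)⁻¹ ∈ _
    rw [mul_inv_cancel]
    exact Subgroup.one_mem _
-- END PR4

-- MODULE PR5
theorem KL_kill (l : Fin n → ℕ) (hl : ∀ i, 6 ≤ l i) {S : Type u} [AddCommGroup S] [Module ℂ S]
    [FiniteDimensional ℂ S] (σ : LG l →* Module.End ℂ S) (hd : Module.finrank ℂ S ≤ 1) (k : LG l)
    (hk : k ∈ KL l) : σ k = 1 := by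
  have hcomm : ∀ f g : Module.End ℂ S, f * g = g * f := by
    intro f g
    rw [finrank_le_one_iff] at hd
    obtain ⟨v, hv⟩ := hd
    obtain ⟨a, ha⟩ := hv (f v)
    obtain ⟨b, hb⟩ := hv (g v)
    ext w
    obtain ⟨c, rfl⟩ := hv w
    simp only [Module.End.mul_apply, map_smul, ← ha, ← hb]
    rw [smul_comm a b]
  have hinv : ∀ g : LG l, σ g * σ g⁻¹ = 1 := by
    intro g; rw [← map_mul, mul_inv_cancel, map_one]
  have hinv' : ∀ g : LG l, σ g⁻¹ * σ g = 1 := by
    intro g; rw [← map_mul, inv_mul_cancel, map_one]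
  have hstep : ∀ x i, Ind l x → Ind l (up x i) → σ (lg l x) = σ (lg l (up x i)) := by
    intro x i hx hy
    have h1 := (lg_lonne l).braid x (up x i) hx hy (Lt_up x i)
    have h2 : σ (lg l x) * σ (lg l (up x i)) * σ (lg l x) =
        σ (lg l (up x i)) * σ (lg l x) * σ (lg l (up x i)) := by
      rw [← map_mul, ← map_mul, ← map_mul, ← map_mul]
      exact congrArg σ h1
    calc σ (lg l x) = σ (lg l x) * σ (lg l (up x i)) * σ (lg l x) *
          (σ (lg l x)⁻¹ * σ (lg l (up x i))⁻¹) := by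
            rw [hcomm (σ (lg l x)) (σ (lg l (up x i))), mul_assoc, mul_assoc,
              ← mul_assoc (σ (lg l x)) (σ (lg l x)⁻¹), hinv, one_mul,
              hcomm (σ (lg l x)), ← mul_assoc, hinv, one_mul]
      _ = σ (lg l (up x i)) * σ (lg l x) * σ (lg l (up x i)) *
          (σ (lg l x)⁻¹ * σ (lg l (up x i))⁻¹) := by rw [h2]
      _ = σ (lg l (up x i)) := by
            rw [hcomm (σ (lg l x)⁻¹), mul_assoc, mul_assoc, ← mul_assoc (σ (lg l (up x i)))
              (σ (lg l (up x i))⁻¹), hinv, one_mul, hinv, mul_one]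
  have hle : KL l ≤ σ.ker := by
    refine Subgroup.normalClosure_le_normal ?_
    rintro g ⟨x, y, hx, hy, rfl⟩
    show _ ∈ σ.ker
    rw [MonoidHom.mem_ker, map_mul]
    have h3 : σ (lg l y) = σ (lg l x) :=
      PR_box hl (fun z => σ (lg l z) = σ (lg l x)) (fun z i hz hz' => by
        rw [hstep z i hz hz']) x y hx hy rfl
    rw [← h3, hinv]
  exact MonoidHom.mem_ker.1 (hle hk)
-- END PR5

end Pool.Agent.Lon
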