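import Pool.Agent.Lon.Cmb

/-!
# The reflection representation and its radical
-/

set_option autoImplicit false
set_option linter.all false

namespace Pool.Agent.Lon

universe u

variable {n : ℕ}

theorem mem_pts {l x : Fin n → ℕ} : x ∈ pts l ↔ Ind l x := by
  simp [pts, Ind]

theorem Lt_antisymm {x y : Fin n → ℕ} (h : Lt x y) : ¬ Lt y x := by
  intro h'
  apply h.1
  funext i
  have h1 := (h.2 i).1
  have h2 := (h'.2 i).1
  omega

theorem U_self (x : Fin n → ℕ) : U x x = 1 := by
  unfold U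
  rw [if_pos fun i => ⟨le_refl _, Nat.le_succ _⟩]

theorem U_lt {x y : Fin n → ℕ} (h : Lt x y) : U x y = 1 := by
  unfold U
  rw [if_pos h.2]

theorem U_not {x y : Fin n → ℕ} (h0 : x ≠ y) (h : ¬ Lt x y) : U x y = 0 := by
  unfold U
  rw [if_neg fun h' => h ⟨h0, h'⟩]

theorem cf_self (q : ℂ) (x : Fin n → ℕ) : cf q x x = q - 1 := by
  rw [cf, U_self, mul_one]

theorem cf_gt (q : ℂ) {x y : Fin n → ℕ} (h : Lt y x) : cf q x y = q := by
  rw [cf, U_lt h, U_not h.1.symm (Lt_antisymm h), mul_one, sub_zero]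

theorem cf_lt (q : ℂ) {x y : Fin n → ℕ} (h : Lt x y) : cf q x y = -1 := by
  rw [cf, U_lt h, U_not h.1.symm (Lt_antisymm h), mul_zero, zero_sub]

theorem cf_far (q : ℂ) {x y : Fin n → ℕ} (h0 : x ≠ y) (h : ¬ Lt x y) (h' : ¬ Lt y x) :
    cf q x y = 0 := by
  rw [cf, U_not h0 h, U_not h0.symm h', mul_zero, sub_zero]

variable {G : Type*} [Group G] {l : Fin n → ℕ} {t : (Fin n → ℕ) → G} {V : Type u}
  [AddCommGroup V] [Module ℂ V]

theorem v_ne_zero (hl : ∀ i, 6 ≤ l i) (π : G →* Module.End ℂ V) (hnt : Nontrivial V)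
    (lam q : ℂ) (hlam : lam ≠ 0) (hq : q ≠ 0) (v : (Fin n → ℕ) → V)
    (hs : Submodule.span ℂ (v '' {x | Ind l x}) = ⊤)
    (hv : ∀ x y, Ind l x → Ind l y → π (t x) (v y) = lam • (v y + cf q x y • v x))
    (x : Fin n → ℕ) (hx : Ind l x) : v x ≠ 0 := by
  intro h0
  have hb : ∀ y, Ind l y ↔ Bx 0 (fun i => l i - 1) y := by
    intro y
    constructor
    · intro hy i
      have := hy i
      refine ⟨Nat.zero_le _, ?_⟩
      show y i ≤ l i - 1
      omega
    · intro hy i
      have h1 : y i ≤ l i - 1 := (hy i).2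
      have := hl i
      omega
  have hall : ∀ y, Ind l y → v y = 0 := by
    intro y hy
    refine box_ind 0 (fun i => l i - 1) (fun y => v y = 0) ?_ x y ((hb x).1 hx) ((hb y).1 hy) h0
    intro z i hz hzi
    have hz1 : Ind l z := (hb z).2 hz
    have hz2 : Ind l (up z i) := by
      intro j
      by_cases hj : j = i
      · subst hj
        have h1 : z j < l j - 1 := hzi
        rw [up, Function.update_self]
        omega
      · rw [up, Function.update_of_ne hj]
        exact hz1 j
    have hlt := Lt_up z i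
    constructor
    · intro hz0
      have h1 := hv (up z i) z hz2 hz1
      rw [hz0, map_zero, zero_add, cf_gt q hlt, smul_smul] at h1
      exact (smul_eq_zero.1 h1.symm).resolve_left (mul_ne_zero hlam hq)
    · intro hz0
      have h1 := hv z (up z i) hz1 hz2
      rw [hz0, map_zero, zero_add, cf_lt q hlt, smul_smul] at h1
      exact (smul_eq_zero.1 h1.symm).resolve_left (mul_ne_zero hlam (by norm_num))
  have h1 : (⊤ : Submodule ℂ V) = ⊥ := by
    rw [← hs, Submodule.span_eq_bot]
    rintro _ ⟨y, hy, rfl⟩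
    exact hall y hy
  exact absurd h1.symm bot_ne_top

/-- linear relations between the `v x` -/
theorem radical (hl : ∀ i, 6 ≤ l i) (π : G →* Module.End ℂ V)
    (hst : ∀ W : Submodule ℂ V, (∀ x, Ind l x → ∀ w ∈ W, π (t x) w ∈ W) → W = ⊥ ∨ W = ⊤)
    (hdim : 2 ≤ Module.finrank ℂ V)
    (lam q : ℂ) (hlam : lam ≠ 0) (hq : q ≠ 0) (v : (Fin n → ℕ) → V)
    (hs : Submodule.span ℂ (v '' {x | Ind l x}) = ⊤)
    (hv : ∀ x y, Ind l x → Ind l y → π (t x) (v y) = lam • (v y + cf q x y • v x))
    (a : (Fin n → ℕ) → ℂ) :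
    ∑ y ∈ pts l, a y • v y = 0 ↔ ∀ x, Ind l x → ∑ y ∈ pts l, a y * cf q x y = 0 := by
  have hnt : Nontrivial V := Module.nontrivial_of_finrank_pos (R := ℂ) (by omega)
  have hne := v_ne_zero hl π hnt lam q hlam hq v hs hv
  have key : ∀ x, Ind l x → π (t x) (∑ y ∈ pts l, a y • v y) =
      lam • (∑ y ∈ pts l, a y • v y + (∑ y ∈ pts l, a y * cf q x y) • v x) := by
    intro x hx
    rw [map_sum, smul_add, Finset.smul_sum, Finset.sum_smul, Finset.smul_sum,
      ← Finset.sum_add_distrib]
    refine Finset.sum_congr rfl fun y hy => ?_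
    rw [map_smul, hv x y hx (mem_pts.1 hy)]
    module
  constructor
  · intro h0 x hx
    have h1 := key x hx
    rw [h0, map_zero, zero_add, smul_smul] at h1
    rcases mul_eq_zero.1 ((smul_eq_zero.1 h1.symm).resolve_right (hne x hx)) with h2 | h2
    · exact absurd h2 hlam
    · exact h2
  · intro h0
    by_contra hu
    have hst1 : ∀ x, Ind l x → ∀ w ∈ Submodule.span ℂ {∑ y ∈ pts l, a y • v y},
        π (t x) w ∈ Submodule.span ℂ {∑ y ∈ pts l, a y • v y} := by
      intro x hx w hw
      obtain ⟨c, rfl⟩ := Submodule.mem_span_singleton.1 hw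
      rw [map_smul, key x hx, h0 x hx, zero_smul, add_zero]
      exact Submodule.smul_mem _ _ (Submodule.smul_mem _ _ (Submodule.mem_span_singleton_self _))
    rcases hst _ hst1 with h1 | h1
    · exact hu (Submodule.span_singleton_eq_bot.1 h1)
    · have h2 := finrank_span_singleton (K := ℂ) hu
      rw [h1, finrank_top] at h2
      omega

end Pool.Agent.Lon
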