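import Pool.Agent.Lon.Rad

/-!
# The dimension of the reflection representation modulo its radical
-/

set_option autoImplicit false
set_option linter.all false

namespace Pool.Agent.Lon

universe u

variable {n : ℕ}

-- MODULE RK1
/-- A vector in the kernel of the form which is supported on the points with positive coordinate
`i0` is `0`. -/
theorem ker_zero (l : Fin n → ℕ) (i0 : Fin n) (q : ℂ) (a : (Fin n → ℕ) → ℂ)
    (hsupp : ∀ y, Ind l y → y i0 = 0 → a y = 0)
    (hker : ∀ x, Ind l x → ∑ y ∈ pts l, a y * cf q x y = 0) (y : Fin n → ℕ) (hy : Ind l y) :
    a y = 0 := by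
  have main : ∀ c, ∀ y, Ind l y → y i0 ≤ c → a y = 0 := by
    intro c
    induction c with
    | zero => intro y hy h; exact hsupp y hy (by omega)
    | succ c ih =>
      have inner : ∀ M, ∀ y, Ind l y → y i0 = c + 1 → ∑ j, (l j - y j) = M → a y = 0 := by
        intro M
        induction M using Nat.strong_induction_on with
        | _ M ihM =>
        intro y hy hyc hM
        have hx0 : dn y i0 i0 = c := by rw [dn, Function.update_self]; omega
        have hxj : ∀ j, j ≠ i0 → dn y i0 j = y j := fun j hj => by rw [dn, Function.update_of_ne hj]
        have hx : Ind l (dn y i0) := by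
          intro j
          by_cases hj : j = i0
          · subst hj; have := hy j; omega
          · rw [hxj j hj]; exact hy j
        have h1 := hker (dn y i0) hx
        rw [Finset.sum_eq_single y] at h1
        · have h2 : U y (dn y i0) = 0 := by
            unfold U
            rw [if_neg]
            intro h3
            have := (h3 i0).1
            omega
          rw [cf, h2, U_lt (Lt_dn y i0 (by omega)), mul_zero, zero_sub, mul_neg, mul_one,
            neg_eq_zero] at h1
          exact h1
        · intro z hz hzy
          have hz' := mem_pts.1 hz
          by_cases hzc : z i0 ≤ c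
          · rw [ih z hz' hzc, zero_mul]
          have h2 : U z (dn y i0) = 0 := by
            unfold U
            rw [if_neg]
            intro h3
            have := (h3 i0).1
            omega
          by_cases h3 : ∀ i, dn y i0 i ≤ z i ∧ z i ≤ dn y i0 i + 1
          · have h4 := h3 i0
            have h5 : ∀ j, y j ≤ z j := by
              intro j
              by_cases hj : j = i0
              · subst hj; omega
              · rw [← hxj j hj]; exact (h3 j).1
            have h6 : ∃ j, y j < z j := by
              by_contra hcon
              push Not at hcon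
              exact hzy (funext fun j => le_antisymm (hcon j) (h5 j))
            obtain ⟨j0, hj0⟩ := h6
            have h7 : ∑ j, (l j - z j) < M := by
              rw [← hM]
              refine Finset.sum_lt_sum (fun j _ => by have := h5 j; omega)
                ⟨j0, Finset.mem_univ _, ?_⟩
              have := hz' j0
              omega
            rw [ihM _ h7 z hz' (by omega) rfl, zero_mul]
          · have h4 : U (dn y i0) z = 0 := by
              unfold U
              rw [if_neg h3]
            rw [cf, h2, h4, mul_zero, sub_zero, mul_zero]
        · intro hny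
          exact absurd (mem_pts.2 hy) hny
      intro y hy hyc
      by_cases h : y i0 ≤ c
      · exact ih y hy h
      · exact inner _ y hy (by omega) rfl
  exact main _ y hy le_rfl
-- END RK1

-- MODULE RK2
theorem dim_ge (l : Fin n → ℕ) (i0 : Fin n) {V : Type u} [AddCommGroup V] [Module ℂ V]
    [FiniteDimensional ℂ V] (v : (Fin n → ℕ) → V) (q : ℂ)
    (hrad : ∀ a : (Fin n → ℕ) → ℂ, ∑ y ∈ pts l, a y • v y = 0 →
      ∀ x, Ind l x → ∑ y ∈ pts l, a y * cf q x y = 0) :
    (l i0 - 1) * ∏ i ∈ Finset.univ.erase i0, l i ≤ Module.finrank ℂ V := by
  classical
  set P : Finset (Fin n → ℕ) := Fintype.piFinset (fun i => if i = i0 then Finset.Ico 1 (l i)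
    else Finset.range (l i)) with hP
  have hmem : ∀ y, y ∈ P ↔ Ind l y ∧ y i0 ≠ 0 := by
    intro y
    rw [hP, Fintype.mem_piFinset]
    constructor
    · intro h
      constructor
      · intro i
        have := h i
        split_ifs at this with hi
        · exact (Finset.mem_Ico.1 this).2
        · exact Finset.mem_range.1 this
      · have := h i0
        rw [if_pos rfl] at this
        have := (Finset.mem_Ico.1 this).1
        omega
    · rintro ⟨h1, h2⟩ i
      split_ifs with hi
      · subst hi
        exact Finset.mem_Ico.2 ⟨by omega, h1 i⟩
      · exact Finset.mem_range.2 (h1 i)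
  have hsub : P ⊆ pts l := fun y hy => mem_pts.2 ((hmem y).1 hy).1
  have hcard : P.card = (l i0 - 1) * ∏ i ∈ Finset.univ.erase i0, l i := by
    rw [hP, Fintype.card_piFinset, ← Finset.mul_prod_erase Finset.univ _ (Finset.mem_univ i0),
      if_pos rfl, Nat.card_Ico]
    congr 1
    refine Finset.prod_congr rfl fun i hi => ?_
    rw [if_neg (Finset.ne_of_mem_erase hi), Finset.card_range]
  have hli : LinearIndependent ℂ (fun y : P => v y) := by
    rw [Fintype.linearIndependent_iff]
    intro g hg y
    set a : (Fin n → ℕ) → ℂ := fun z => if h : z ∈ P then g ⟨z, h⟩ else 0 with ha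
    have h1 : ∑ y ∈ pts l, a y • v y = 0 := by
      rw [← Finset.sum_subset hsub]
      · rw [← hg, ← Finset.sum_coe_sort]
        refine Finset.sum_congr rfl fun z _ => ?_
        rw [ha]
        simp only [dif_pos z.2]
      · intro z _ hz
        rw [ha]
        simp only [dif_neg hz, zero_smul]
    have h2 := ker_zero l i0 q a (fun z _ hz => by
      rw [ha]
      have : z ∉ P := fun h => ((hmem z).1 h).2 hz
      simp only [dif_neg this]) (hrad a h1) y ((hmem y).1 y.2).1
    rw [ha] at h2
    simpa only [dif_pos y.2] using h2
  have := hli.fintype_card_le_finrank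
  rwa [Fintype.card_coe, hcard] at this
-- END RK2

end Pool.Agent.Lon
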