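import Pool.Agent.Lon.Grp
import Pool.Agent.Lon.Cmb

/-!
# Separated pairs of edges
-/

set_option autoImplicit false
set_option linter.all false

namespace Pool.Agent.Lon

universe u

variable {n : ℕ} {G : Type*} [Group G] {l : Fin n → ℕ} {t : (Fin n → ℕ) → G}
  {V : Type u} [AddCommGroup V] [Module ℂ V]

/-- the augmentations of the commutator subgroups of the edges `a b` and `c d` annihilate each
other -/
def PP (t : (Fin n → ℕ) → G) (π : G →* Module.End ℂ V) (a b c d : Fin n → ℕ) : Prop :=
  ∀ x ∈ KK (t a) (t b), ∀ y ∈ KK (t c) (t d), (π x - 1) * (π y - 1) = 0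

-- MODULE S1
/-- PROOF. (1) KK_symm. (2) x and y commute (commute_closure, KK_le, Lonne.com, none of a, b is adjacent to c, d), so (π y - 1)(π x - 1) = (π x - 1)(π y - 1). (3) Lonne.slide gives k in the closure of t a, t b, t c, commuting with t d and t e (commute_closure), k t a = t b k, k t b = t c k. For x ∈ KK (t b) (t c): k⁻¹ x k ∈ KK (t a) (t b) (KK_conj), y ∈ KK (t d) (t e) commutes with k, π x - 1 = π k (π (k⁻¹ x k) - 1) π k⁻¹, and π k⁻¹ commutes with π y. -/
theorem PP_swap {π : G →* Module.End ℂ V} {a b c d : Fin n → ℕ} (h : PP t π a b c d) :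
    PP t π b a c d := by
  intro x hx y hy
  rw [KK_symm] at hx
  exact h x hx y hy

private theorem lon_S1_nadj {a b c d : Fin n → ℕ} (h : SE a b c d) :
    ¬ Adj a c ∧ ¬ Adj a d ∧ ¬ Adj b c ∧ ¬ Adj b d := by
  obtain ⟨i, hi⟩ := h
  refine ⟨fun h1 => ?_, fun h1 => ?_, fun h1 => ?_, fun h1 => ?_⟩
  · have := h1.le i; omega
  · have := h1.le i; omega
  · have := h1.le i; omega
  · have := h1.le i; omega

theorem PP_symm (h : Lonne l t) {π : G →* Module.End ℂ V} {a b c d : Fin n → ℕ}
    (ha : Ind l a) (hb : Ind l b) (hc : Ind l c) (hd : Ind l d) (hs : SE a b c d)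
    (hp : PP t π a b c d) : PP t π c d a b := by
  intro x hx y hy
  obtain ⟨h1, h2, h3, h4⟩ := lon_S1_nadj hs
  have hcm : y * x = x * y := by
    refine commute_closure (S := {t a, t b}) (T := {t c, t d}) ?_ y x (KK_le _ _ hy) (KK_le _ _ hx)
    intro g hg k hk
    simp only [Set.mem_insert_iff, Set.mem_singleton_iff] at hg hk
    rcases hg with rfl | rfl <;> rcases hk with rfl | rfl
    · exact h.com ha hc h1
    · exact h.com ha hd h2
    · exact h.com hb hc h3
    · exact h.com hb hd h4
  have h5 := hp y hy x hx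
  have h6 : π y * π x = π x * π y := by rw [← map_mul, ← map_mul, hcm]
  have h7 : (π x - 1) * (π y - 1) = (π y - 1) * (π x - 1) := by
    simp only [sub_mul, mul_sub, h6, mul_one, one_mul]
    abel
  rw [h7]
  exact h5

theorem PP_slide (h : Lonne l t) {π : G →* Module.End ℂ V} {a b c d e : Fin n → ℕ}
    (ha : Ind l a) (hb : Ind l b) (hc : Ind l c) (hd : Ind l d) (he : Ind l e)
    (hab : Adj a b) (hbc : Adj b c) (had : ¬ Adj a d) (hae : ¬ Adj a e) (hbd : ¬ Adj b d)
    (hbe : ¬ Adj b e) (hcd : ¬ Adj c d) (hce : ¬ Adj c e) (hp : PP t π a b d e) :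
    PP t π b c d e := by
  intro x hx y hy
  obtain ⟨k, hk, hk1, hk2⟩ := h.slide ha hb hc hab hbc
  have hcom : k * y = y * k := by
    refine commute_closure (S := {t a, t b, t c}) (T := {t d, t e}) ?_ k y hk (KK_le _ _ hy)
    intro g hg k hk
    simp only [Set.mem_insert_iff, Set.mem_singleton_iff] at hg hk
    rcases hg with rfl | rfl | rfl <;> rcases hk with rfl | rfl
    · exact h.com ha hd had
    · exact h.com ha he hae
    · exact h.com hb hd hbd
    · exact h.com hb he hbe
    · exact h.com hc hd hcd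
    · exact h.com hc he hce
  have hx' : k⁻¹ * x * k ∈ KK (t a) (t b) := by
    rw [← KK_conj (t a) (t b) (t b) (t c) k hk1 hk2]
    have : k * (k⁻¹ * x * k) * k⁻¹ = x := by group
    rw [this]
    exact hx
  have h5 := hp _ hx' y hy
  have h6 : x = k * (k⁻¹ * x * k) * k⁻¹ := by group
  have h7 : (π x - 1) * (π y - 1) = π k * ((π (k⁻¹ * x * k) - 1) * (π y - 1)) * π k⁻¹ := by
    have e1 : π k * π k⁻¹ = 1 := by rw [← map_mul, mul_inv_cancel, map_one]
    have e2 : π k⁻¹ * π y = π y * π k⁻¹ := by
      rw [← map_mul, ← map_mul]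
      congr 1
      rw [inv_mul_eq_iff_eq_mul, ← mul_assoc, hcom, mul_inv_cancel_right]
    have e3 : π x = π k * π (k⁻¹ * x * k) * π k⁻¹ := by
      rw [← map_mul, ← map_mul, ← h6]
    have e4 : π x - 1 = π k * (π (k⁻¹ * x * k) - 1) * π k⁻¹ := by
      rw [mul_sub, sub_mul, ← e3, mul_one, e1]
    have e5 : π k⁻¹ * (π y - 1) = (π y - 1) * π k⁻¹ := by
      rw [mul_sub, sub_mul, e2, mul_one, one_mul]
    rw [e4, mul_assoc, e5]
    simp only [mul_assoc]
  rw [h7, h5, mul_zero, zero_mul]
-- END S1

-- MODULE S2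
/-- all pairs separated by the level `s` of the coordinate `i` -/
private def lon_S2_A (l : Fin n → ℕ) (t : (Fin n → ℕ) → G) (π : G →* Module.End ℂ V) (i : Fin n)
    (s : ℕ) : Prop :=
  ∀ a b c d, Ind l a → Ind l b → Ind l c → Ind l d → Adj a b → Adj c d → a i ≤ s → b i ≤ s →
    s + 2 ≤ c i → s + 2 ≤ d i → PP t π a b c d

private theorem lon_S2_one (hl : ∀ i, 6 ≤ l i) (h : Lonne l t) {π : G →* Module.End ℂ V}
    {a b c d : Fin n → ℕ} (ha : Ind l a) (hb : Ind l b) (hc : Ind l c) (hd : Ind l d)
    (hab : Adj a b) (hcd : Adj c d) {i : Fin n} {s : ℕ} (h1 : a i ≤ s) (h2 : b i ≤ s)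
    (h3 : s + 2 ≤ c i) (h4 : s + 2 ≤ d i) (hp : PP t π a b c d) : lon_S2_A l t π i s := by
  have hsl : s + 2 < l i := lt_of_le_of_lt h3 (hc i)
  -- the lower box
  have lowB : ∀ x : Fin n → ℕ, Ind l x → x i ≤ s →
      Bx (fun _ => 0) (Function.update (fun j => l j - 1) i s) x := by
    intro x hx hxs j
    refine ⟨Nat.zero_le _, ?_⟩
    by_cases hj : j = i
    · subst hj; simpa using hxs
    · rw [Function.update_of_ne hj]
      have := hx j
      omega
  have lowI : ∀ x : Fin n → ℕ, Bx (fun _ => 0) (Function.update (fun j => l j - 1) i s) x →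
      Ind l x ∧ x i ≤ s := by
    intro x hx
    have hxi : x i ≤ s := by
      have := (hx i).2
      simpa using this
    refine ⟨fun j => ?_, hxi⟩
    by_cases hj : j = i
    · subst hj; omega
    · have h5 := (hx j).2
      rw [Function.update_of_ne hj] at h5
      have h6 := hl j
      omega
  -- the upper box
  have uppB : ∀ x : Fin n → ℕ, Ind l x → s + 2 ≤ x i →
      Bx (Function.update (fun _ => 0) i (s + 2)) (fun j => l j - 1) x := by
    intro x hx hxs j
    refine ⟨?_, ?_⟩
    · by_cases hj : j = i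
      · subst hj; simpa using hxs
      · rw [Function.update_of_ne hj]
        exact Nat.zero_le _
    · have := hx j
      simp only
      omega
  have uppI : ∀ x : Fin n → ℕ, Bx (Function.update (fun _ => 0) i (s + 2)) (fun j => l j - 1) x →
      Ind l x ∧ s + 2 ≤ x i := by
    intro x hx
    refine ⟨fun j => ?_, ?_⟩
    · have h5 := (hx j).2
      have h6 := hl j
      simp only at h5
      omega
    · have := (hx i).1
      simpa using this
  have nadj : ∀ x y : Fin n → ℕ, x i ≤ s → s + 2 ≤ y i → ¬ Adj x y ∧ ¬ Adj y x := by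
    intro x y hx hy
    exact ⟨fun h1 => by have := h1.le i; omega, fun h1 => by have := h1.le i; omega⟩
  -- first edge induction
  have key1 : ∀ a' b', Ind l a' → Ind l b' → Adj a' b' → a' i ≤ s → b' i ≤ s →
      PP t π a' b' c d := by
    intro a' b' ha' hb' hab' h1' h2'
    refine edge_ind (fun _ => 0) (Function.update (fun j => l j - 1) i s)
      (fun x y => PP t π x y c d) (fun x y hxy => PP_swap hxy) ?_ a b a' b' (lowB a ha h1)
      (lowB b hb h2) (lowB a' ha' h1') (lowB b' hb' h2') hab hab' hp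
    intro x y z hx hy hz hxy hyz _ hR
    obtain ⟨ix, hx⟩ := lowI x hx
    obtain ⟨iy, hy⟩ := lowI y hy
    obtain ⟨iz, hz⟩ := lowI z hz
    exact PP_slide h ix iy iz hc hd hxy hyz (nadj x c hx h3).1 (nadj x d hx h4).1
      (nadj y c hy h3).1 (nadj y d hy h4).1 (nadj z c hz h3).1 (nadj z d hz h4).1 hR
  intro a' b' c' d' ha' hb' hc' hd' hab' hcd' h1' h2' h3' h4'
  have key2 := key1 a' b' ha' hb' hab' h1' h2'
  have key3 : PP t π c d a' b' :=
    PP_symm h ha' hb' hc hd ⟨i, Or.inl ⟨by omega, by omega, by omega, by omega⟩⟩ key2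
  have key4 : PP t π c' d' a' b' := by
    refine edge_ind (Function.update (fun _ => 0) i (s + 2)) (fun j => l j - 1)
      (fun x y => PP t π x y a' b') (fun x y hxy => PP_swap hxy) ?_ c d c' d' (uppB c hc h3)
      (uppB d hd h4) (uppB c' hc' h3') (uppB d' hd' h4') hcd hcd' key3
    intro x y z hx hy hz hxy hyz _ hR
    obtain ⟨ix, hx⟩ := uppI x hx
    obtain ⟨iy, hy⟩ := uppI y hy
    obtain ⟨iz, hz⟩ := uppI z hz
    exact PP_slide h ix iy iz ha' hb' hxy hyz (nadj a' x h1' hx).2 (nadj b' x h2' hx).2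
      (nadj a' y h1' hy).2 (nadj b' y h2' hy).2 (nadj a' z h1' hz).2 (nadj b' z h2' hz).2 hR
  exact PP_symm h hc' hd' ha' hb' ⟨i, Or.inr ⟨by omega, by omega, by omega, by omega⟩⟩ key4

private theorem lon_S2_two (hn : 2 ≤ n) (hl : ∀ i, 6 ≤ l i) (h : Lonne l t)
    {π : G →* Module.End ℂ V} {i : Fin n} {s s' : ℕ} (hs : s + 3 ≤ l i) (hs' : s' + 3 ≤ l i)
    (hA : lon_S2_A l t π i s) : lon_S2_A l t π i s' := by
  obtain ⟨j, hj⟩ : ∃ j : Fin n, j ≠ i := by
    haveI : Nontrivial (Fin n) := Fin.nontrivial_iff_two_le.2 hn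
    exact exists_ne i
  have i0 : Ind l (fun _ => 0) := fun k => by have := hl k; simp only; omega
  have i1 : Ind l (up (fun _ => 0) j) := by
    intro k
    have := hl k
    by_cases hk : k = j
    · subst hk; simp only [up, Function.update_self]; omega
    · simp only [up, Function.update_of_ne hk]; omega
  have i2 : Ind l (Function.update (fun _ => 0) i (l i - 1)) := by
    intro k
    have := hl k
    by_cases hk : k = i
    · subst hk; simp only [Function.update_self]; omega
    · simp only [Function.update_of_ne hk]; omega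
  have i3 : Ind l (up (Function.update (fun _ => 0) i (l i - 1)) j) := by
    intro k
    have := hl k
    by_cases hk : k = j
    · subst hk
      simp only [up, Function.update_self, Function.update_of_ne hj]; omega
    · simp only [up, Function.update_of_ne hk]; exact i2 k
  have e1 : (up (fun _ => 0 : Fin n → ℕ) j) i = 0 := by
    simp only [up, Function.update_of_ne (Ne.symm hj)]
  have e2 : (Function.update (fun _ => 0 : Fin n → ℕ) i (l i - 1)) i = l i - 1 := by simp
  have e3 : (up (Function.update (fun _ => 0 : Fin n → ℕ) i (l i - 1)) j) i = l i - 1 := by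
    simp only [up, Function.update_of_ne (Ne.symm hj), Function.update_self]
  have hp := hA _ _ _ _ i0 i1 i2 i3 (Or.inl (Lt_up _ j)) (Or.inl (Lt_up _ j)) (Nat.zero_le _)
    (by rw [e1]; omega) (by rw [e2]; omega) (by rw [e3]; omega)
  exact lon_S2_one hl h i0 i1 i2 i3 (Or.inl (Lt_up _ j)) (Or.inl (Lt_up _ j)) (Nat.zero_le _)
    (by rw [e1]; omega) (by rw [e2]; omega) (by rw [e3]; omega) hp

private theorem lon_S2_three (hl : ∀ i, 6 ≤ l i) (h : Lonne l t)
    {π : G →* Module.End ℂ V} {i j : Fin n} (hij : i ≠ j)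
    (hA : lon_S2_A l t π i 0) : lon_S2_A l t π j 1 := by
  have i0 : Ind l (fun _ => 0) := fun k => by have := hl k; simp only; omega
  have i1 : Ind l (up (fun _ => 0) j) := by
    intro k
    have := hl k
    by_cases hk : k = j
    · subst hk; simp only [up, Function.update_self]; omega
    · simp only [up, Function.update_of_ne hk]; omega
  have i2 : Ind l (fun k => l k - 1) := fun k => by have := hl k; simp only; omega
  have i3 : Ind l (dn (fun k => l k - 1) j) := by
    intro k
    have := hl k
    by_cases hk : k = j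
    · subst hk
      simp only [dn, Function.update_self]; omega
    · simp only [dn, Function.update_of_ne hk]; omega
  have e1 : (up (fun _ => 0 : Fin n → ℕ) j) i = 0 := by
    simp only [up, Function.update_of_ne hij]
  have e1' : (up (fun _ => 0 : Fin n → ℕ) j) j = 1 := by
    simp only [up, Function.update_self]
  have e3 : (dn (fun k => l k - 1) j) i = l i - 1 := by
    simp only [dn, Function.update_of_ne hij]
  have e3' : (dn (fun k => l k - 1) j) j = l j - 1 - 1 := by
    simp only [dn, Function.update_self]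
  have a2 : Adj (fun k => l k - 1) (dn (fun k => l k - 1) j) := by
    refine Or.inr (Lt_dn _ j ?_)
    have := hl j
    omega
  have li := hl i
  have lj := hl j
  have hp := hA _ _ _ _ i0 i1 i2 i3 (Or.inl (Lt_up _ j)) a2 (Nat.zero_le _)
    (by rw [e1]) (by omega) (by rw [e3]; omega)
  exact lon_S2_one hl h i0 i1 i2 i3 (Or.inl (Lt_up _ j)) a2 (Nat.zero_le _)
    (by rw [e1']) (by omega) (by rw [e3']; omega) hp

/-- All separated pairs of edges are equivalent. PROOF. For i let A i s := for all edges a b in the box {x i ≤ s} and all edges c d in the box {s + 2 ≤ x i}: PP. (1) If PP a b c d for one such pair (with edges in these two boxes) then A i s: edge_ind (C2) for the box {x i ≤ s} (lo = 0, hi = update (l - 1) i s) with R x y := PP x y c d (PP_swap, PP_slide; no element of the lower box is adjacent to c, d since the i-th coordinates differ by ≥ 2), and then edge_ind for the box {s+2 ≤ x i} (R x y := PP x y a b, i.e. PP_symm).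
(2) A i s → A i s' for s + 2 < l i.. (both boxes non-empty: s + 3 ≤ l i, s' + 3 ≤ l i): the edges with x i = 0 and with x i = l i - 1 (take j ≠ i: {0, e_j} and {update 0 i (l i - 1), its up in direction j}) are in both pairs of boxes. (3) A i s → A j s' for i ≠ j: the pair e = {0, update 0 j 1}, f = {⊤, update ⊤ j (l j - 2)}, ⊤ = l - 1, is in the boxes for (i, s = 0) and for (j, 1) (1 + 2 ≤ l j - 2 as l j ≥ 6).
(4) An arbitrary separated pair (a, b, c, d) with a i + 2 ≤ .. : s = max (a i) (b i); for the other orientation use PP_symm. -/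
theorem PP_all (hn : 2 ≤ n) (hl : ∀ i, 6 ≤ l i) (h : Lonne l t) {π : G →* Module.End ℂ V}
    (a b c d : Fin n → ℕ) (ha : Ind l a) (hb : Ind l b) (hc : Ind l c) (hd : Ind l d)
    (hab : Adj a b) (hcd : Adj c d) (hs : SE a b c d) (hp : PP t π a b c d)
    (a' b' c' d' : Fin n → ℕ) (ha' : Ind l a') (hb' : Ind l b') (hc' : Ind l c') (hd' : Ind l d')
    (hab' : Adj a' b') (hcd' : Adj c' d') (hs' : SE a' b' c' d') : PP t π a' b' c' d' := by
  -- the first level
  obtain ⟨i, s, hsi, hA⟩ : ∃ i s, s + 3 ≤ l i ∧ lon_S2_A l t π i s := by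
    obtain ⟨i, hi | hi⟩ := hs
    · refine ⟨i, max (a i) (b i), ?_, ?_⟩
      · have := hc i; omega
      · exact lon_S2_one hl h ha hb hc hd hab hcd (by omega) (by omega) (by omega) (by omega) hp
    · refine ⟨i, max (c i) (d i), ?_, ?_⟩
      · have := ha i; omega
      · exact lon_S2_one hl h hc hd ha hb hcd hab (by omega) (by omega) (by omega) (by omega)
          (PP_symm h ha hb hc hd ⟨i, Or.inr hi⟩ hp)
  -- all levels
  have hall : ∀ j s', s' + 3 ≤ l j → lon_S2_A l t π j s' := by
    intro j s' hs'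
    by_cases hj : j = i
    · subst hj
      exact lon_S2_two hn hl h hsi hs' hA
    · have h0 : lon_S2_A l t π i 0 := lon_S2_two hn hl h hsi (by have := hl i; omega) hA
      have h1 : lon_S2_A l t π j 1 := lon_S2_three hl h (Ne.symm hj) h0
      exact lon_S2_two hn hl h (by have := hl j; omega) hs' h1
  obtain ⟨j, hj | hj⟩ := hs'
  · exact hall j (max (a' j) (b' j)) (by have := hc' j; omega) a' b' c' d' ha' hb' hc' hd' hab' hcd'
      (by omega) (by omega) (by omega) (by omega)
  · refine PP_symm h hc' hd' ha' hb' ⟨j, Or.inl (by omega)⟩ ?_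
    exact hall j (max (c' j) (d' j)) (by have := ha' j; omega) c' d' a' b' hc' hd' ha' hb' hcd' hab'
      (by omega) (by omega) (by omega) (by omega)
-- END S2

end Pool.Agent.Lon
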