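import Pool.Agent.Lon.Main
import Pool.Agent.Lon.Mch
import Pool.Agent.Lon.Pre
import Pool.Agent.Lon.Rkb

/-!
# Separated blocks
-/

set_option autoImplicit false
set_option linter.all false

namespace Pool.Agent.Lon

open Pool.Agent.HG13 Pool.Agent.QB54

universe u

variable {n : ℕ}

/-- lower bound for the dimension of the reflection representation modulo its radical -/
def dd (b : Fin n → ℕ) (i0 : Fin n) : ℕ := (b i0 - 1) * ∏ i ∈ Finset.univ.erase i0, b i

theorem num_low' (n P : ℕ) (hn : 2 ≤ n) (hP : 3 * 4 ^ n ≤ P) :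
    ∃ m, 2 ≤ m ∧ 2 ^ (n - 1) * (m * 12 - 1) ≤ P ∧ 2 * P ≤ m * (m - 1) * (12 - 2) ^ 2 := by
  obtain ⟨n', rfl⟩ : ∃ n', n = n' + 1 := ⟨n - 1, by omega⟩
  rw [Nat.add_sub_cancel]
  set c := 2 ^ n' with hc
  have hc2 : 2 ≤ c := by
    rw [hc]
    calc 2 = 2 ^ 1 := rfl
      _ ≤ 2 ^ n' := Nat.pow_le_pow_right (by norm_num) (by omega)
  have h4 : 4 ^ (n' + 1) = 4 * (c * c) := by
    rw [hc, ← mul_pow, pow_succ, mul_comm]
    norm_num
  rw [h4] at hP
  obtain ⟨m, hm⟩ : ∃ m, m = P / (12 * c) := ⟨_, rfl⟩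
  have hpos : 0 < 12 * c := by omega
  have h1 : 12 * c * m ≤ P := by rw [hm]; exact Nat.mul_div_le P (12 * c)
  have h2 : P < 12 * c * (m + 1) := by
    rw [hm, mul_add, mul_one]
    have := Nat.lt_mul_div_succ P hpos
    rwa [mul_add, mul_one] at this
  have h3 : c ≤ m := by
    rw [hm, Nat.le_div_iff_mul_le hpos]
    nlinarith
  refine ⟨m, by omega, ?_, ?_⟩
  · calc c * (m * 12 - 1) ≤ c * (m * 12) := Nat.mul_le_mul_left _ (Nat.sub_le _ _)
      _ = 12 * c * m := by ring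
      _ ≤ P := h1
  · obtain ⟨j, rfl⟩ : ∃ j, m = j + 2 := ⟨m - 2, by omega⟩
    have h5 : j + 2 - 1 = j + 1 := by omega
    rw [h5]
    nlinarith

theorem num_dd (b : Fin n → ℕ) (i0 : Fin n) (hb : ∀ i, 1 ≤ b i) :
    dd b i0 + ∏ i ∈ Finset.univ.erase i0, b i = ∏ i, b i := by
  rw [← Finset.mul_prod_erase Finset.univ b (Finset.mem_univ i0), dd]
  obtain ⟨c, hc⟩ : ∃ c, b i0 = c + 1 := ⟨b i0 - 1, by have := hb i0; omega⟩
  rw [hc, Nat.add_sub_cancel]
  ring

/-- representations of small dimension of the group of the box `b` -/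
theorem low_lon (hn : 2 ≤ n) (b : Fin n → ℕ) (hb : ∀ i, 6 ≤ b i) (hP : 3 * 4 ^ n ≤ ∏ i, b i)
    (i0 : Fin n) : Low.{u, 0} (KL b) (dd b i0) := by
  refine ⟨KL_perfect (by omega) b hb, ?_⟩
  intro S _ _ _ σ hσ hd k hk
  by_cases h1 : Module.finrank ℂ S ≤ 1
  · exact KL_kill b hb σ h1 k hk
  exfalso
  have h2 := num_dd b i0 (fun i => by have := hb i; omega)
  obtain ⟨m, hm, hm1, hm2⟩ := num_low' n _ hn hP
  have hL := lg_lonne b
  rcases quadratic_range hn hb hL (k := 12) le_rfl hm hm1 σ hσ (by omega) with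
    h5 | ⟨lam, q, v, hlam, hq, hs, hv⟩
  · omega
  · have h6 := dim_ge b i0 v q (fun a ha =>
      (radical hb σ (gens_irr hL hσ) (by omega) lam q hlam hq v hs hv a).1 ha)
    have h7 : dd b i0 ≤ Module.finrank ℂ S := h6
    omega

section blk

variable {G : Type*} [Group G] {l : Fin n → ℕ} {t : (Fin n → ℕ) → G} {V : Type u}
  [AddCommGroup V] [Module ℂ V]

theorem Lt_add (x y o : Fin n → ℕ) : Lt (x + o) (y + o) ↔ Lt x y := by
  unfold Lt
  refine and_congr (not_congr (add_left_inj o)) (forall_congr' fun i => ?_)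
  simp only [Pi.add_apply]
  omega

theorem shift_rel (h : Lonne l t) (b o : Fin n → ℕ) (ho : ∀ i, o i + b i ≤ l i) :
    LRel b (fun x => t (x + o)) := by
  have hi : ∀ x, Ind b x → Ind l (x + o) := by
    intro x hx i
    have h1 := hx i
    have h2 := ho i
    rw [Pi.add_apply]
    omega
  refine ⟨fun x y hx hy h1 h2 => ?_, fun x y hx hy h1 => ?_, fun x y z hx hy hz h1 h2 h3 => ?_⟩
  · exact h.comm _ _ (hi x hx) (hi y hy) (by rwa [Lt_add]) (by rwa [Lt_add])
  · exact h.braid _ _ (hi x hx) (hi y hy) (by rwa [Lt_add])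
  · exact h.tri _ _ _ (hi x hx) (hi y hy) (hi z hz) (by rwa [Lt_add]) (by rwa [Lt_add])
      (by rwa [Lt_add])

open Classical in
/-- the block with offset `o` -/
noncomputable def bk (t : (Fin n → ℕ) → G) (b o : Fin n → ℕ) : LG b →* G :=
  if h : ∃ f : LG b →* G, ∀ x, Ind b x → f (lg b x) = t (x + o) then h.choose else 1

theorem bk_lg (h : Lonne l t) (b o : Fin n → ℕ) (ho : ∀ i, o i + b i ≤ l i) (x : Fin n → ℕ)
    (hx : Ind b x) : bk t b o (lg b x) = t (x + o) := by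
  have hex : ∃ f : LG b →* G, ∀ x, Ind b x → f (lg b x) = t (x + o) :=
    lg_hom (shift_rel h b o ho)
  unfold bk
  rw [dif_pos hex]
  exact hex.choose_spec x hx

theorem bk_mem (h : Lonne l t) (b o : Fin n → ℕ) (ho : ∀ i, o i + b i ≤ l i) (x : LG b) :
    bk t b o x ∈ Subgroup.closure {g | ∃ z, Ind b z ∧ g = t (z + o)} := by
  have hx : x ∈ Subgroup.closure {g | ∃ z, Ind b z ∧ g = lg b z} := by
    rw [(lg_lonne b).gen]; exact Subgroup.mem_top x
  induction hx using Subgroup.closure_induction with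
  | mem x hx =>
    obtain ⟨z, hz, rfl⟩ := hx
    rw [bk_lg h b o ho z hz]
    exact Subgroup.subset_closure ⟨z, hz, rfl⟩
  | one => rw [map_one]; exact Subgroup.one_mem _
  | mul x y _ _ hx hy => rw [map_mul]; exact Subgroup.mul_mem _ hx hy
  | inv x _ hx => rw [map_inv]; exact Subgroup.inv_mem _ hx

theorem bk_comm (h : Lonne l t) (b o o' : Fin n → ℕ) (ho : ∀ i, o i + b i ≤ l i)
    (ho' : ∀ i, o' i + b i ≤ l i)
    (hs : ∃ i, o i + b i + 1 ≤ o' i ∨ o' i + b i + 1 ≤ o i) (x y : LG b) :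
    Commute (bk t b o x) (bk t b o' y) := by
  refine commute_closure ?_ _ _ (bk_mem h b o ho x) (bk_mem h b o' ho' y)
  rintro _ ⟨z, hz, rfl⟩ _ ⟨w, hw, rfl⟩
  obtain ⟨i, hi⟩ := hs
  have h1 := hz i
  have h2 := hw i
  refine h.com ?_ ?_ ?_
  · intro j
    have := hz j
    have := ho j
    rw [Pi.add_apply]
    omega
  · intro j
    have := hw j
    have := ho' j
    rw [Pi.add_apply]
    omega
  · intro ha
    have := ha.le i
    simp only [Pi.add_apply] at this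
    omega

theorem PP_of_pair (hn : 1 ≤ n) (h : Lonne l t) {π : G →* Module.End ℂ V} (b o o' : Fin n → ℕ)
    (hb : ∀ i, 6 ≤ b i) (ho : ∀ i, o i + b i ≤ l i) (ho' : ∀ i, o' i + b i ≤ l i)
    (hs : ∃ i, o i + b i + 1 ≤ o' i ∨ o' i + b i + 1 ≤ o i)
    (hk : ∀ x ∈ KL b, ∀ y ∈ KL b, (π (bk t b o x) - 1) * (π (bk t b o' y) - 1) = 0) :
    ∃ a1 a2 a3 a4, Ind l a1 ∧ Ind l a2 ∧ Ind l a3 ∧ Ind l a4 ∧ Adj a1 a2 ∧ Adj a3 a4 ∧
      SE a1 a2 a3 a4 ∧ PP t π a1 a2 a3 a4 := by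
  let i1 : Fin n := ⟨0, hn⟩
  have h0 : Ind b 0 := fun i => lt_of_lt_of_le (by norm_num) (hb i)
  have h1 : Ind b (up 0 i1) := by
    intro j
    by_cases hj : j = i1
    · subst hj
      rw [up, Function.update_self, Pi.zero_apply]
      have := hb i1
      omega
    · rw [up, Function.update_of_ne hj]
      exact h0 j
  have hlt : Lt (0 : Fin n → ℕ) (up 0 i1) := Lt_up 0 i1
  have hind : ∀ (z p : Fin n → ℕ), Ind b z → (∀ i, p i + b i ≤ l i) → Ind l (z + p) := by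
    intro z p hz hp j
    have := hz j
    have := hp j
    rw [Pi.add_apply]
    omega
  have hKK : ∀ p : Fin n → ℕ, (∀ i, p i + b i ≤ l i) → ∀ x ∈ KK (t (0 + p)) (t (up 0 i1 + p)),
      ∃ y ∈ KL b, bk t b p y = x := by
    intro p hp x hx
    have e : KK (t (0 + p)) (t (up 0 i1 + p)) =
        (KK (lg b 0) (lg b (up 0 i1))).map (bk t b p) := by
      unfold KK
      rw [Subgroup.map_commutator, MonoidHom.map_closure, Set.image_pair, bk_lg h b p hp 0 h0,
        bk_lg h b p hp _ h1]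
    rw [e] at hx
    obtain ⟨y, hy, rfl⟩ := hx
    exact ⟨y, comm_le_KL b hb (Subgroup.commutator_mono le_top le_top hy), rfl⟩
  refine ⟨0 + o, up 0 i1 + o, 0 + o', up 0 i1 + o', hind _ _ h0 ho, hind _ _ h1 ho,
    hind _ _ h0 ho', hind _ _ h1 ho', Or.inl ((Lt_add _ _ _).2 hlt), Or.inl ((Lt_add _ _ _).2 hlt),
    ?_, ?_⟩
  · obtain ⟨i, hi⟩ := hs
    have h2 := hlt.2 i
    have h3 := hb i
    refine ⟨i, ?_⟩
    simp only [Pi.add_apply, Pi.zero_apply] at h2 ⊢
    omega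
  · intro x hx y hy
    obtain ⟨x', hx', rfl⟩ := hKK o ho x hx
    obtain ⟨y', hy', rfl⟩ := hKK o' ho' y hy
    exact hk x' hx' y' hy'

/-- THE SHARP RANGE. -/
theorem sharp_range (hn : 2 ≤ n) (hl : ∀ i, 6 ≤ l i) (h : Lonne l t) (b : Fin n → ℕ)
    (hb : ∀ i, 6 ≤ b i) (hP : 3 * 4 ^ n ≤ ∏ i, b i) (i0 : Fin n) (m : ℕ) (o : ℕ → Fin n → ℕ)
    (ho : ∀ q, q < m → ∀ i, o q i + b i ≤ l i)
    (hs : ∀ q r, q < m → r < m → q ≠ r → ∃ i, o q i + b i + 1 ≤ o r i ∨ o r i + b i + 1 ≤ o q i)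
    [FiniteDimensional ℂ V] (π : G →* Module.End ℂ V) (hirr : Irr π)
    (hV : 2 * Module.finrank ℂ V < m * (m - 1) * dd b i0 ^ 2) :
    Module.finrank ℂ V = 1 ∨ ∃ (lam q : ℂ) (v : (Fin n → ℕ) → V), lam ≠ 0 ∧ q ≠ 0 ∧
      Submodule.span ℂ (v '' {x | Ind l x}) = ⊤ ∧
      ∀ x y, Ind l x → Ind l y → π (t x) (v y) = lam • (v y + cf q x y • v x) := by
  have hd3 : 3 ≤ dd b i0 := by
    have h1 : 1 ≤ ∏ i ∈ Finset.univ.erase i0, b i :=
      Finset.prod_pos fun i _ => Nat.lt_of_lt_of_le (by norm_num) (hb i)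
    have h2 := hb i0
    unfold dd
    calc 3 = 3 * 1 := rfl
      _ ≤ (b i0 - 1) * ∏ i ∈ Finset.univ.erase i0, b i := Nat.mul_le_mul (by have := hb i0; omega) h1
  have hc : 2 * m.choose 2 = m * (m - 1) := by
    rw [Nat.choose_two_right]
    exact Nat.mul_div_cancel' (Nat.even_mul_pred_self m).two_dvd
  have hV' : Module.finrank ℂ V < m.choose 2 * dd b i0 ^ 2 := by
    rw [← hc, mul_assoc] at hV
    omega
  obtain ⟨q, r, hqr, hr, hk⟩ := exists_pair (KL b) (low_lon.{u} hn b hb hP i0) hd3 m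
    (fun q => π.comp (bk t b (o q))) (fun q r hq hr hqr x y =>
      (bk_comm h b (o q) (o r) (ho q hq) (ho r hr) (hs q r hq hr hqr) x y).map π) hV'
  obtain ⟨a1, a2, a3, a4, h1, h2, h3, h4, h5, h6, h7, h8⟩ := PP_of_pair (by omega) h b (o q) (o r)
    hb (ho q (by omega)) (ho r hr) (hs q r (by omega) hr (by omega)) hk
  haveI : Nontrivial V := hirr.1
  have hpos : 0 < Module.finrank ℂ V := Module.finrank_pos
  by_cases h9 : Module.finrank ℂ V = 1
  · exact Or.inl h9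
  · right
    have hB : Bas l t π := by
      refine ⟨hn, hl, h, hirr, by omega, ?_⟩
      intro a b c d ha hb hc' hd hab hcd hs
      exact PP_all hn hl h a1 a2 a3 a4 h1 h2 h3 h4 h5 h6 h7 h8 a b c d ha hb hc' hd hab hcd hs
    exact of_bas hB

theorem num_pow : ∀ k : ℕ, 1 ≤ k → 12 * 4 ^ k ≤ 11 * 6 ^ k
  | 0, h => by omega
  | 1, _ => by norm_num
  | k + 2, _ => by
    have := num_pow (k + 1) (by omega)
    rw [pow_succ, pow_succ 6 (k + 1)]
    omega

/-- The range given by slabs. -/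
theorem main_slab {s m : ℕ} (hn : 1 ≤ n) {l : Fin n → ℕ} (hl : ∀ i, 6 ≤ l i) (i0 : Fin n)
    (hs : 11 ≤ s) (hm : 2 ≤ m) (hms : m * (s + 1) ≤ l i0 + 1) {t : (Fin n → ℕ) → G}
    (h : Lonne l t) [FiniteDimensional ℂ V] (ρ : Representation ℂ G V) [ρ.IsIrreducible]
    (hV : 2 * Module.finrank ℂ V <
      m * (m - 1) * ((s - 1) * ∏ i ∈ Finset.univ.erase i0, l i) ^ 2) :
    Module.finrank ℂ V = 1 ∨ (∃ (lam q : ℂ) (v : (Fin n → ℕ) → V), lam ≠ 0 ∧ q ≠ 0 ∧
        Submodule.span ℂ (v '' {x | Ind l x}) = ⊤ ∧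
        ∀ x y, Ind l x → Ind l y → ρ (t x) (v y) = lam • (v y + cf q x y • v x)) ∨
      Mono l t ρ := by
  by_cases hn2 : 2 ≤ n
  · set b : Fin n → ℕ := Function.update l i0 s with hb
    have hbi : b i0 = s := by rw [hb, Function.update_self]
    have hbj : ∀ j, j ≠ i0 → b j = l j := fun j hj => by rw [hb, Function.update_of_ne hj]
    have hpe : ∏ i ∈ Finset.univ.erase i0, b i = ∏ i ∈ Finset.univ.erase i0, l i :=
      Finset.prod_congr rfl fun i hi => hbj i (Finset.ne_of_mem_erase hi)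
    have hb6 : ∀ i, 6 ≤ b i := by
      intro j
      by_cases hj : j = i0
      · subst hj; rw [hbi]; omega
      · rw [hbj j hj]; exact hl j
    have h6 : 6 ^ (n - 1) ≤ ∏ i ∈ Finset.univ.erase i0, b i := by
      have hcard : (Finset.univ.erase i0).card = n - 1 := by
        rw [Finset.card_erase_of_mem (Finset.mem_univ _), Finset.card_univ, Fintype.card_fin]
      rw [← hcard]
      exact Finset.pow_card_le_prod _ _ _ fun i _ => hb6 i
    have hP : 3 * 4 ^ n ≤ ∏ i, b i := by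
      rw [← Finset.mul_prod_erase Finset.univ b (Finset.mem_univ i0), hbi]
      obtain ⟨n', rfl⟩ : ∃ n', n = n' + 1 := ⟨n - 1, by omega⟩
      rw [Nat.add_sub_cancel] at h6
      have h7 : 12 * 4 ^ n' ≤ 11 * 6 ^ n' := num_pow n' (by omega)
      calc 3 * 4 ^ (n' + 1) = 12 * 4 ^ n' := by ring
        _ ≤ 11 * 6 ^ n' := h7
        _ ≤ s * ∏ i ∈ Finset.univ.erase i0, b i := Nat.mul_le_mul hs h6
    have hle : ∀ q, q < m → q * (s + 1) + (s + 1) ≤ l i0 + 1 := by
      intro q hq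
      calc q * (s + 1) + (s + 1) = (q + 1) * (s + 1) := by ring
        _ ≤ m * (s + 1) := Nat.mul_le_mul_right _ hq
        _ ≤ l i0 + 1 := hms
    have hirr := irr_of ρ
    have g1 : ∀ q, q < m → ∀ j, (Function.update 0 i0 (q * (s + 1)) : Fin n → ℕ) j + b j ≤ l j := by
      intro q hq j
      by_cases hj : j = i0
      · subst hj
        have := hle q hq
        rw [Function.update_self, hbi]
        omega
      · rw [Function.update_of_ne hj, hbj j hj, Pi.zero_apply]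
        omega
    have g2 : ∀ q r, q < m → r < m → q ≠ r → ∃ i,
        (Function.update 0 i0 (q * (s + 1)) : Fin n → ℕ) i + b i + 1 ≤
          (Function.update 0 i0 (r * (s + 1)) : Fin n → ℕ) i ∨
        (Function.update 0 i0 (r * (s + 1)) : Fin n → ℕ) i + b i + 1 ≤
          (Function.update 0 i0 (q * (s + 1)) : Fin n → ℕ) i := by
      intro q r hq hr hqr
      refine ⟨i0, ?_⟩
      rw [Function.update_self, Function.update_self, hbi]
      rcases Nat.lt_or_gt_of_ne hqr with h1 | h1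
      · left
        calc q * (s + 1) + s + 1 = (q + 1) * (s + 1) := by ring
          _ ≤ r * (s + 1) := Nat.mul_le_mul_right _ h1
      · right
        calc r * (s + 1) + s + 1 = (r + 1) * (s + 1) := by ring
          _ ≤ q * (s + 1) := Nat.mul_le_mul_right _ h1
    have g3 : 2 * Module.finrank ℂ V < m * (m - 1) * dd b i0 ^ 2 := by
      unfold dd
      rw [hbi, hpe]
      exact hV
    rcases sharp_range hn2 hl h b hb6 hP i0 m (fun q => Function.update 0 i0 (q * (s + 1))) g1 g2 ρ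
      hirr g3 with h1 | h1
    · exact Or.inl h1
    · exact Or.inr (Or.inl h1)
  · obtain rfl : n = 1 := by omega
    have he : (Finset.univ.erase i0 : Finset (Fin 1)) = ∅ := by
      ext j
      simp [Subsingleton.elim j i0]
    rw [he, Finset.prod_empty, mul_one] at hV
    refine main_chain (k := s + 1) (m := m) le_rfl hl (by omega) hm ?_ h ρ ?_
    · rw [Nat.sub_self, pow_zero, one_mul, Fin.prod_univ_one]
      rw [Subsingleton.elim i0 0] at hms
      omega
    · rw [show s + 1 - 2 = s - 1 by omega]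
      exact hV

/-- THE MAIN THEOREM. -/
theorem main_thm (hn : 1 ≤ n) {l : Fin n → ℕ} (hl : ∀ i, 6 ≤ l i) {t : (Fin n → ℕ) → G}
    (h : Lonne l t) [FiniteDimensional ℂ V] (ρ : Representation ℂ G V) [ρ.IsIrreducible]
    (hV : InRange l (Module.finrank ℂ V)) :
    (Module.finrank ℂ V = 1 ∨ Refl l t ρ ∨ Mono l t ρ) ∧
      (QU l t ρ → (Set.range ρ).Finite ∨ Vanishing l t ρ) := by
  apply finish hn hl h ρ
  rcases hV with ⟨k, m, hk, hm, h1, h2⟩ | ⟨i0, s, m, hs, hm, h1, h2⟩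
  · exact main_chain hn hl hk hm h1 h ρ h2
  · exact main_slab hn hl i0 hs hm h1 h ρ h2

end blk

end Pool.Agent.Lon
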