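import Pool.Agent.Lon.Defs

/-!
# Long induced paths in the box
-/

set_option autoImplicit false
set_option linter.all false

namespace Pool.Agent.Lon

variable {n : ℕ}

/-- `p 0, ..., p (M-1)` is an induced path (injective, and `p i`, `p j` are adjacent exactly if
`i`, `j` are consecutive) -/
structure IPath (M : ℕ) (l : Fin n → ℕ) (p : ℕ → Fin n → ℕ) : Prop where
  ind : ∀ i, i < M → Ind l (p i)
  inj : ∀ i j, i < M → j < M → p i = p j → i = j
  adj : ∀ i, i + 1 < M → Adj (p i) (p (i + 1))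
  non : ∀ i j, i + 2 ≤ j → j < M → ¬ Adj (p i) (p j)

-- MODULE SN1
private theorem SN1_snocLt {x y : Fin n → ℕ} {a b : ℕ} :
    Lt (Fin.snoc x a : Fin (n + 1) → ℕ) (Fin.snoc y b : Fin (n + 1) → ℕ) ↔
      ¬ (x = y ∧ a = b) ∧ (∀ i, x i ≤ y i ∧ y i ≤ x i + 1) ∧ a ≤ b ∧ b ≤ a + 1 := by
  unfold Lt
  constructor
  · rintro ⟨h1, h2⟩
    refine ⟨fun h => h1 ?_, fun i => ?_, ?_⟩
    · rw [h.1, h.2]
    · have := h2 i.castSucc
      simpa only [Fin.snoc_castSucc] using this
    · have := h2 (Fin.last n)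
      simpa only [Fin.snoc_last] using this
  · rintro ⟨h1, h2, h3⟩
    refine ⟨fun h => h1 ?_, fun i => ?_⟩
    · refine ⟨?_, ?_⟩
      · funext i
        have := congrFun h i.castSucc
        simpa only [Fin.snoc_castSucc] using this
      · have := congrFun h (Fin.last n)
        simpa only [Fin.snoc_last] using this
    · refine Fin.lastCases ?_ (fun j => ?_) i
      · simpa only [Fin.snoc_last] using h3
      · simpa only [Fin.snoc_castSucc] using h2 j

private theorem SN1_rev {M : ℕ} {l : Fin n → ℕ} {p : ℕ → Fin n → ℕ} (h : IPath M l p) :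
    IPath M l (fun j => p (M - 1 - j)) := by
  refine ⟨fun i hi => h.ind _ (by omega), fun i j hi hj e => ?_, fun i hi => ?_,
    fun i j hij hj e => ?_⟩
  · have := h.inj _ _ (by omega) (by omega) e
    omega
  · have h1 := h.adj (M - 1 - (i + 1)) (by omega)
    have h2 : M - 1 - (i + 1) + 1 = M - 1 - i := by omega
    rw [h2] at h1
    exact h1.symm
  · exact h.non (M - 1 - j) (M - 1 - i) (by omega) (by omega) e.symm

private def SN1_P (M : ℕ) (p : ℕ → Fin n → ℕ) (b j : ℕ) : Fin n → ℕ :=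
  if b % 2 = 0 then p j else p (M - 1 - j)

private theorem SN1_path {M : ℕ} {l : Fin n → ℕ} {p : ℕ → Fin n → ℕ} (h : IPath M l p) (b : ℕ) :
    IPath M l (SN1_P M p b) := by
  by_cases hb : b % 2 = 0
  · have : SN1_P M p b = p := by
      funext j
      simp [SN1_P, hb]
    rw [this]
    exact h
  · have : SN1_P M p b = fun j => p (M - 1 - j) := by
      funext j
      simp [SN1_P, hb]
    rw [this]
    exact SN1_rev h

private theorem SN1_succ (M : ℕ) (p : ℕ → Fin n → ℕ) (b j : ℕ) (hj : j < M) :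
    SN1_P M p (b + 1) j = SN1_P M p b (M - 1 - j) := by
  unfold SN1_P
  by_cases hb : b % 2 = 0
  · have h1 : ¬ (b + 1) % 2 = 0 := by omega
    rw [if_neg h1, if_pos hb]
  · have h1 : (b + 1) % 2 = 0 := by omega
    rw [if_pos h1, if_neg hb]
    congr 1
    omega

/-- adjacency in an induced path -/
private theorem SN1_adj {M : ℕ} {l : Fin n → ℕ} {p : ℕ → Fin n → ℕ} (h : IPath M l p) {i j : ℕ}
    (hi : i < M) (hj : j < M) (ha : Adj (p i) (p j)) : i = j + 1 ∨ j = i + 1 := by
  by_contra hc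
  rcases lt_trichotomy i j with h1 | h1 | h1
  · exact h.non i j (by omega) hj ha
  · subst h1
    exact ha.ne rfl
  · exact h.non j i (by omega) hi ha.symm

open Classical in
private noncomputable def SN1_h (M B : ℕ) (p : ℕ → Fin n → ℕ) (b j : ℕ) : ℕ :=
  if j = M - 1 ∧ b + 1 < B ∧ Lt (SN1_P M p b (M - 2)) (SN1_P M p b (M - 1)) then 2 * b + 1
  else if j = 0 ∧ 1 ≤ b ∧ ¬ Lt (SN1_P M p (b - 1) (M - 2)) (SN1_P M p (b - 1) (M - 1)) then
    2 * b - 1
  else 2 * b

private theorem SN1_h_cases (M B : ℕ) (p : ℕ → Fin n → ℕ) (b j : ℕ) :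
    (SN1_h M B p b j = 2 * b + 1 ∧ j = M - 1 ∧ b + 1 < B ∧
        Lt (SN1_P M p b (M - 2)) (SN1_P M p b (M - 1))) ∨
      (SN1_h M B p b j = 2 * b - 1 ∧ j = 0 ∧ 1 ≤ b ∧
        ¬ Lt (SN1_P M p (b - 1) (M - 2)) (SN1_P M p (b - 1) (M - 1))) ∨
      (SN1_h M B p b j = 2 * b ∧
        ¬ (j = M - 1 ∧ b + 1 < B ∧ Lt (SN1_P M p b (M - 2)) (SN1_P M p b (M - 1))) ∧
        ¬ (j = 0 ∧ 1 ≤ b ∧
          ¬ Lt (SN1_P M p (b - 1) (M - 2)) (SN1_P M p (b - 1) (M - 1)))) := by
  unfold SN1_h
  split_ifs with h1 h2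
  · exact Or.inl ⟨rfl, h1⟩
  · exact Or.inr (Or.inl ⟨rfl, h2⟩)
  · exact Or.inr (Or.inr ⟨rfl, h1, h2⟩)

private noncomputable def SN1_Q (M B : ℕ) (p : ℕ → Fin n → ℕ) (b j : ℕ) : Fin (n + 1) → ℕ :=
  (Fin.snoc (SN1_P M p b j) (SN1_h M B p b j) : Fin (n + 1) → ℕ)

/-- the last edge of a block has a direction -/
private theorem SN1_dir {M : ℕ} {l : Fin n → ℕ} {p : ℕ → Fin n → ℕ} (hM : 6 ≤ M)
    (h : IPath M l p) (b : ℕ)
    (h1 : ¬ Lt (SN1_P M p b (M - 2)) (SN1_P M p b (M - 1))) :
    Lt (SN1_P M p b (M - 1)) (SN1_P M p b (M - 2)) := by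
  have h2 := (SN1_path h b).adj (M - 2) (by omega)
  have h3 : M - 2 + 1 = M - 1 := by omega
  rw [h3] at h2
  rcases h2 with h2 | h2
  · exact absurd h2 h1
  · exact h2

private theorem SN1_asymm {x y : Fin n → ℕ} (h1 : Lt x y) (h2 : Lt y x) : False := by
  apply h1.1
  funext i
  have := h1.2 i
  have := h2.2 i
  omega

private theorem SN1_adj_in {M B : ℕ} {l : Fin n → ℕ} {p : ℕ → Fin n → ℕ} (hM : 6 ≤ M)
    (h : IPath M l p) (b j : ℕ) (hj : j + 1 < M) :
    Adj (SN1_Q M B p b j) (SN1_Q M B p b (j + 1)) := by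
  have hadj := (SN1_path h b).adj j hj
  unfold SN1_Q
  rcases SN1_h_cases M B p b j with c | c | c
  · omega
  · rcases SN1_h_cases M B p b (j + 1) with d | d | d
    · omega
    · omega
    · obtain ⟨b', rfl⟩ : ∃ b', b = b' + 1 := ⟨b - 1, by omega⟩
      obtain ⟨c1, c2, c3, c4⟩ := c
      subst c2
      have e1 := SN1_succ M p b' 0 (by omega)
      have e2 := SN1_succ M p b' 1 (by omega)
      have e3 : M - 1 - 0 = M - 1 := by omega
      have e4 : M - 1 - 1 = M - 2 := by omega
      rw [e3] at e1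
      rw [e4] at e2
      have c5 := SN1_dir hM h b' (by simpa using c4)
      left
      rw [SN1_snocLt, c1, d.1]
      refine ⟨fun hh => by omega, ?_, by omega, by omega⟩
      have e5 : (0 + 1 : ℕ) = 1 := rfl
      rw [e5, e1, e2]
      exact c5.2
  · rcases SN1_h_cases M B p b (j + 1) with d | d | d
    · obtain ⟨d1, d2, d3, d4⟩ := d
      left
      rw [SN1_snocLt, c.1, d1]
      refine ⟨fun hh => by omega, ?_, by omega, by omega⟩
      have e1 : j = M - 2 := by omega
      rw [d2, e1]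
      exact d4.2
    · omega
    · rcases hadj with a | a
      · left
        rw [SN1_snocLt, c.1, d.1]
        exact ⟨fun hh => a.1 hh.1, a.2, le_refl _, by omega⟩
      · right
        rw [SN1_snocLt, c.1, d.1]
        exact ⟨fun hh => a.1 hh.1, a.2, le_refl _, by omega⟩

private theorem SN1_adj_out {M B : ℕ} {l : Fin n → ℕ} {p : ℕ → Fin n → ℕ} (hM : 6 ≤ M)
    (h : IPath M l p) (b : ℕ) (hb : b + 1 < B) :
    Adj (SN1_Q M B p b (M - 1)) (SN1_Q M B p (b + 1) 0) := by
  have e1 := SN1_succ M p b 0 (by omega)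
  have e3 : M - 1 - 0 = M - 1 := by omega
  rw [e3] at e1
  unfold SN1_Q
  left
  rw [SN1_snocLt, e1]
  have hrefl : ∀ i, SN1_P M p b (M - 1) i ≤ SN1_P M p b (M - 1) i ∧
      SN1_P M p b (M - 1) i ≤ SN1_P M p b (M - 1) i + 1 := fun i => ⟨le_refl _, by omega⟩
  have e2 : b + 1 - 1 = b := by omega
  rcases SN1_h_cases M B p b (M - 1) with c | c | c
  · rcases SN1_h_cases M B p (b + 1) 0 with d | d | d
    · omega
    · exfalso
      rw [e2] at d
      exact d.2.2.2 c.2.2.2
    · rw [c.1, d.1]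
      exact ⟨fun hh => by omega, hrefl, by omega, by omega⟩
  · omega
  · have c2 : ¬ Lt (SN1_P M p b (M - 2)) (SN1_P M p b (M - 1)) := fun hh => c.2.1 ⟨rfl, hb, hh⟩
    rcases SN1_h_cases M B p (b + 1) 0 with d | d | d
    · omega
    · rw [c.1, d.1]
      exact ⟨fun hh => by omega, hrefl, by omega, by omega⟩
    · exfalso
      rw [e2] at d
      exact d.2.2 ⟨rfl, by omega, c2⟩

private theorem SN1_last (x : Fin n → ℕ) (a : ℕ) :
    (Fin.snoc x a : Fin (n + 1) → ℕ) (Fin.last n) = a := by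
  rw [Fin.snoc_last]

/-- no adjacency otherwise, and injectivity -/
private theorem SN1_non {M B : ℕ} {l : Fin n → ℕ} {p : ℕ → Fin n → ℕ} (hM : 6 ≤ M)
    (h : IPath M l p) (b j b' j' : ℕ) (hj : j < M) (hj' : j' < M)
    (hlt : b < b' ∨ (b = b' ∧ j + 2 ≤ j')) (hne : ¬ (b' = b + 1 ∧ j = M - 1 ∧ j' = 0)) :
    ¬ Adj (SN1_Q M B p b j) (SN1_Q M B p b' j') := by
  intro ha
  have hlast := ha.le (Fin.last n)
  unfold SN1_Q at hlast ha
  rw [SN1_last, SN1_last] at hlast
  rcases hlt with hlt | ⟨rfl, hlt⟩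
  · have hb' : b' = b + 1 := by
      rcases SN1_h_cases M B p b j with c | c | c <;>
        rcases SN1_h_cases M B p b' j' with d | d | d <;> omega
    subst hb'
    have e1 := SN1_succ M p b 0 (by omega)
    have e3 : M - 1 - 0 = M - 1 := by omega
    rw [e3] at e1
    have f1 := SN1_succ M p b 1 (by omega)
    have f3 : M - 1 - 1 = M - 2 := by omega
    rw [f3] at f1
    have e2 : b + 1 - 1 = b := by omega
    by_cases ht : Lt (SN1_P M p b (M - 2)) (SN1_P M p b (M - 1))
    · -- type one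
      have hd : 2 * b + 2 ≤ SN1_h M B p (b + 1) j' := by
        rcases SN1_h_cases M B p (b + 1) j' with d | d | d
        · omega
        · exfalso
          rw [e2] at d
          exact d.2.2.2 ht
        · omega
      have hc : SN1_h M B p b j = 2 * b + 1 ∧ j = M - 1 := by
        rcases SN1_h_cases M B p b j with c | c | c
        · exact ⟨c.1, c.2.1⟩
        · omega
        · omega
      obtain ⟨hc1, rfl⟩ := hc
      have hW : ∀ i, SN1_P M p b (M - 1) i ≤ SN1_P M p (b + 1) j' i ∧
          SN1_P M p (b + 1) j' i ≤ SN1_P M p b (M - 1) i + 1 := by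
        rcases ha with ha | ha
        · rw [SN1_snocLt] at ha
          exact ha.2.1
        · rw [SN1_snocLt] at ha
          omega
      by_cases he : SN1_P M p b (M - 1) = SN1_P M p (b + 1) j'
      · rw [← e1] at he
        have := (SN1_path h (b + 1)).inj 0 j' (by omega) hj' he
        exact hne ⟨rfl, rfl, this.symm⟩
      · have h5 : Lt (SN1_P M p b (M - 1)) (SN1_P M p (b + 1) j') := ⟨he, hW⟩
        have h6 : Adj (SN1_P M p (b + 1) 0) (SN1_P M p (b + 1) j') := by
          rw [e1]
          exact Or.inl h5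
        have h7 := SN1_adj (SN1_path h (b + 1)) (by omega) hj' h6
        have h8 : j' = 1 := by omega
        subst h8
        rw [f1] at h5
        exact SN1_asymm h5 ht
    · -- type two
      have hc : SN1_h M B p b j ≤ 2 * b := by
        rcases SN1_h_cases M B p b j with c | c | c
        · exact absurd c.2.2.2 ht
        · omega
        · omega
      have hd : SN1_h M B p (b + 1) j' = 2 * b + 1 ∧ j' = 0 := by
        rcases SN1_h_cases M B p (b + 1) j' with d | d | d
        · omega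
        · exact ⟨by omega, d.2.1⟩
        · omega
      obtain ⟨hd1, rfl⟩ := hd
      have hW : ∀ i, SN1_P M p b j i ≤ SN1_P M p (b + 1) 0 i ∧
          SN1_P M p (b + 1) 0 i ≤ SN1_P M p b j i + 1 := by
        rcases ha with ha | ha
        · rw [SN1_snocLt] at ha
          exact ha.2.1
        · rw [SN1_snocLt] at ha
          omega
      by_cases he : SN1_P M p b j = SN1_P M p (b + 1) 0
      · rw [e1] at he
        have := (SN1_path h b).inj j (M - 1) hj (by omega) he
        exact hne ⟨rfl, this, rfl⟩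
      · have h5 : Lt (SN1_P M p b j) (SN1_P M p (b + 1) 0) := ⟨he, hW⟩
        rw [e1] at h5
        have h7 := SN1_adj (SN1_path h b) hj (by omega) (Or.inl h5)
        have h8 : j = M - 2 := by omega
        subst h8
        exact ht h5
  · -- the same block
    have hW : SN1_P M p b j = SN1_P M p b j' ∨ Adj (SN1_P M p b j) (SN1_P M p b j') := by
      by_cases he : SN1_P M p b j = SN1_P M p b j'
      · exact Or.inl he
      · right
        rcases ha with ha | ha
        · rw [SN1_snocLt] at ha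
          exact Or.inl ⟨he, ha.2.1⟩
        · rw [SN1_snocLt] at ha
          exact Or.inr ⟨fun hh => he hh.symm, ha.2.1⟩
    rcases hW with hW | hW
    · have := (SN1_path h b).inj j j' hj hj' hW
      omega
    · have := SN1_adj (SN1_path h b) hj hj' hW
      omega

private theorem SN1_inj {M B : ℕ} {l : Fin n → ℕ} {p : ℕ → Fin n → ℕ} (hM : 6 ≤ M)
    (h : IPath M l p) (b j b' j' : ℕ) (hj : j < M) (hj' : j' < M) (hle : b ≤ b')
    (he : SN1_Q M B p b j = SN1_Q M B p b' j') : b = b' ∧ j = j' := by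
  have hlast := congrFun he (Fin.last n)
  have hpt : SN1_P M p b j = SN1_P M p b' j' := by
    funext i
    have := congrFun he i.castSucc
    unfold SN1_Q at this
    simpa only [Fin.snoc_castSucc] using this
  unfold SN1_Q at hlast
  rw [SN1_last, SN1_last] at hlast
  rcases Nat.lt_or_ge b b' with hlt | hge
  · exfalso
    have hb' : b' = b + 1 := by
      rcases SN1_h_cases M B p b j with c | c | c <;>
        rcases SN1_h_cases M B p b' j' with d | d | d <;> omega
    subst hb'
    have e2 : b + 1 - 1 = b := by omega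
    rcases SN1_h_cases M B p b j with c | c | c <;>
      rcases SN1_h_cases M B p (b + 1) j' with d | d | d
    · omega
    · rw [e2] at d
      exact d.2.2.2 c.2.2.2
    all_goals omega
  · obtain rfl : b = b' := by omega
    exact ⟨rfl, (SN1_path h b).inj j j' hj hj' hpt⟩

/-- Stacking. PROOF. P^b_j = p j for even b, p (M-1-j) for odd b; E_b = P^b_{M-1} = P^{b+1}_0, E'_b = P^b_{M-2} = P^{b+1}_1. The connection b → b+1 has type 1 if Lt E'_b E_b, type 2 if Lt E_b E'_b (one of them, not both). For i = b M + j, j < M (b = i / M, j = i % M) put q i = Fin.snoc (P^b_j) (2 b + δ) (natural subtraction harmless), δ = +1 if j = M-1, b + 1 < B and b → b+1 has type 1; δ = -1 if j = 0, b ≥ 1 and b-1 → b has type 2; δ = 0 otherwise (M ≥ 6, so j = 0 and j = M-1 are different).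
Layers ≤ 2 (B-1) < L (δ = +1 only for b + 1 < B). Adjacent for consecutive indices: inside a block x-parts adjacent, the last coordinates differ by δ - δ' with the right sign: j = M-2 → M-1 with δ = +1: Lt E' E; j = 0 → 1 with δ = -1: (E, 2b-1) → (E', 2b), Lt E E'; between blocks (E, 2b+1) → (E, 2b+2) (type 1), (E, 2b) → (E, 2b+1) (type 2).
Not adjacent and different otherwise: same block: x-parts are different and not adjacent (adjacency of snoc's implies x-parts equal or adjacent). Blocks differ by ≥ 2: last coordinates differ by ≥ 2. Blocks b, b+1: last coordinates 2b + δ, 2b + 2 + δ'. Type 1: δ' ≥ 0, so a difference ≤ 1 forces δ = 1, j = M-1, δ' = 0; (E, 2b+1) is adjacent to (x, 2b+2) only if x = E or Lt E x, x = P^{b+1}_{j'} adjacent to E: x = E' with Lt E' E, so not; x = E: j' = 0, consecutive.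
Type 2: δ ≤ 0; difference ≤ 1 forces δ' = -1, j' = 0, δ = 0: (x, 2b) adjacent to (E, 2b+1) only if x = E or Lt x E: x = E' has Lt E E', so not; x = E: j = M-1. Start: p i = update 0 0' i for i < 5 is passed on since the first block is p with last coordinate 0 (δ = 0 for j ≤ 4 < M - 1). -/
theorem stack {M B L : ℕ} {l : Fin n → ℕ} {p : ℕ → Fin n → ℕ} (hM : 6 ≤ M) (hB : 1 ≤ B)
    (hL : 2 * (B - 1) < L) (h : IPath M l p) :
    ∃ q : ℕ → Fin (n + 1) → ℕ, IPath (M * B) (Fin.snoc l L : Fin (n + 1) → ℕ) q ∧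
      ∀ i, i < 5 → q i = (Fin.snoc (p i) 0 : Fin (n + 1) → ℕ) := by
  have hMpos : 0 < M := by omega
  have hmod : ∀ i, i % M < M := fun i => Nat.mod_lt i hMpos
  have hdiv : ∀ i, M * (i / M) + i % M = i := fun i => Nat.div_add_mod i M
  have hdlt : ∀ i, i < M * B → i / M < B := fun i hi => Nat.div_lt_of_lt_mul hi
  refine ⟨fun i => SN1_Q M B p (i / M) (i % M), ⟨fun i hi => ?_, fun i j hi hj he => ?_,
    fun i hi => ?_, fun i j hij hj => ?_⟩, fun i hi => ?_⟩
  · have hb := hdlt i hi
    intro k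
    show SN1_Q M B p (i / M) (i % M) k < (Fin.snoc l L : Fin (n + 1) → ℕ) k
    unfold SN1_Q
    refine Fin.lastCases ?_ (fun k => ?_) k
    · rw [SN1_last, SN1_last]
      rcases SN1_h_cases M B p (i / M) (i % M) with c | c | c <;> omega
    · rw [Fin.snoc_castSucc, Fin.snoc_castSucc]
      exact (SN1_path h (i / M)).ind (i % M) (hmod i) k
  · have he' : SN1_Q M B p (i / M) (i % M) = SN1_Q M B p (j / M) (j % M) := he
    rcases le_total (i / M) (j / M) with hl | hl
    · obtain ⟨h1, h2⟩ := SN1_inj hM h _ _ _ _ (hmod i) (hmod j) hl he'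
      rw [← hdiv i, ← hdiv j, h1, h2]
    · obtain ⟨h1, h2⟩ := SN1_inj hM h _ _ _ _ (hmod j) (hmod i) hl he'.symm
      rw [← hdiv i, ← hdiv j, h1, h2]
  · show Adj (SN1_Q M B p (i / M) (i % M)) (SN1_Q M B p ((i + 1) / M) ((i + 1) % M))
    have hi0 := hdiv i
    have hr := hmod i
    by_cases hc : i % M + 1 < M
    · have e : i + 1 = M * (i / M) + (i % M + 1) := by omega
      have e1 : (i + 1) / M = i / M := by
        rw [e, Nat.mul_add_div hMpos, Nat.div_eq_of_lt hc, Nat.add_zero]
      have e2 : (i + 1) % M = i % M + 1 := by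
        rw [e, Nat.mul_add_mod, Nat.mod_eq_of_lt hc]
      rw [e1, e2]
      exact SN1_adj_in hM h _ _ hc
    · have e : i + 1 = M * (i / M + 1) := by
        rw [Nat.mul_add, Nat.mul_one]
        omega
      have e1 : (i + 1) / M = i / M + 1 := by
        rw [e, Nat.mul_div_cancel_left _ hMpos]
      have e2 : (i + 1) % M = 0 := by
        rw [e, Nat.mul_mod_right]
      have e3 : i % M = M - 1 := by omega
      have hb := hdlt (i + 1) hi
      rw [e1] at hb
      rw [e1, e2, e3]
      exact SN1_adj_out hM h _ hb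
  · show ¬ Adj (SN1_Q M B p (i / M) (i % M)) (SN1_Q M B p (j / M) (j % M))
    have hi0 := hdiv i
    have hj0 := hdiv j
    have hri := hmod i
    have hrj := hmod j
    have hle : i / M ≤ j / M := Nat.div_le_div_right (by omega)
    refine SN1_non hM h _ _ _ _ hri hrj ?_ ?_
    · rcases Nat.lt_or_ge (i / M) (j / M) with h1 | h1
      · exact Or.inl h1
      · have h2 : i / M = j / M := by omega
        right
        refine ⟨h2, ?_⟩
        rw [h2] at hi0
        omega
    · rintro ⟨h1, h2, h3⟩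
      rw [h1, Nat.mul_add, Nat.mul_one] at hj0
      omega
  · show SN1_Q M B p (i / M) (i % M) = _
    have e1 : i / M = 0 := Nat.div_eq_of_lt (by omega)
    have e2 : i % M = i := Nat.mod_eq_of_lt (by omega)
    rw [e1, e2]
    unfold SN1_Q
    have e3 : SN1_P M p 0 i = p i := by simp [SN1_P]
    rw [e3]
    rcases SN1_h_cases M B p 0 i with c | c | c
    · omega
    · omega
    · rw [c.1]
-- END SN1

-- MODULE SN2
/-- PROOF. Induction on n ≥ 1 (n = k + 1, k from 0). n = 1: M = l 0, p i = fun _ => i (Lt (fun _ => i) (fun _ => j) iff j = i + 1). Step: l = Fin.snoc (Fin.init l) (l (last)), SN1 with B = (l last + 1) / 2, M * B: 2^(n) (M B) = (2^(n-1) M) (2 B) ≥ (∏ init) * l last (Fin.prod_univ_castSucc). M ≥ 6: M * B ≥ M. Start: Fin.snoc of (update 0 0 i) and 0 is update 0 0 i. -/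
theorem exists_path (l : Fin (n + 1) → ℕ) (hl : ∀ i, 6 ≤ l i) :
    ∃ (M : ℕ) (p : ℕ → Fin (n + 1) → ℕ), 6 ≤ M ∧ IPath M l p ∧ ∏ i, l i ≤ 2 ^ n * M ∧
      ∀ i, i < 5 → p i = Function.update (0 : Fin (n + 1) → ℕ) 0 i := by
  induction n with
  | zero =>
    refine ⟨l 0, fun i _ => i, hl 0, ⟨fun i hi j => ?_, fun i j _ _ h => congrFun h 0,
      fun i _ => Or.inl ⟨fun h => ?_, fun j => ?_⟩, fun i j h _ ha => ?_⟩, ?_, fun i _ => ?_⟩
    · have hj : j = 0 := Fin.fin_one_eq_zero j
      subst hj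
      exact hi
    · have := congrFun h 0
      simp at this
    · show i ≤ i + 1 ∧ i + 1 ≤ i + 1
      omega
    · have := ha.le 0
      omega
    · simp
    · funext j
      have hj : j = 0 := Fin.fin_one_eq_zero j
      subst hj
      simp
  | succ n ih =>
    obtain ⟨M, p, hM, hp, hprod, hst⟩ := ih (Fin.init l) (fun i => hl _)
    have hL6 : 6 ≤ l (Fin.last (n + 1)) := hl _
    obtain ⟨q, hq, hq0⟩ := stack (B := (l (Fin.last (n + 1)) + 1) / 2)
      (L := l (Fin.last (n + 1))) hM (by omega) (by omega) hp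
    refine ⟨M * ((l (Fin.last (n + 1)) + 1) / 2), q, ?_, ?_, ?_, ?_⟩
    · exact hM.trans (Nat.le_mul_of_pos_right M (by omega))
    · rwa [Fin.snoc_init_self] at hq
    · rw [Fin.prod_univ_castSucc]
      have h1 : ∏ i : Fin (n + 1), l i.castSucc ≤ 2 ^ n * M := hprod
      have h2 : l (Fin.last (n + 1)) ≤ 2 * ((l (Fin.last (n + 1)) + 1) / 2) := by omega
      calc _ ≤ (2 ^ n * M) * (2 * ((l (Fin.last (n + 1)) + 1) / 2)) := Nat.mul_le_mul h1 h2
        _ = _ := by ring
    · intro i hi
      rw [hq0 i hi, hst i hi]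
      funext j
      refine Fin.lastCases ?_ (fun j => ?_) j
      · rw [Fin.snoc_last, Function.update_of_ne (Fin.last_pos).ne']
        rfl
      · rw [Fin.snoc_castSucc]
        by_cases hj : j = 0
        · subst hj
          simp
        · have hj' : j.castSucc ≠ 0 := fun h => hj (Fin.castSucc_injective _ h)
          rw [Function.update_of_ne hj, Function.update_of_ne hj']
          rfl
-- END SN2

end Pool.Agent.Lon
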