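import Pool.Agent.Lon.CaseA
import Pool.Agent.Lon.Far
import Pool.Agent.Lon.Snk
import Pool.Agent.Lon.OneD

/-!
# The theorem
-/

set_option autoImplicit false
set_option linter.all false

namespace Pool.Agent.Lon

open Pool.Agent.HG13 Pool.Agent.QB54

universe u

variable {n : ℕ}

-- MODULE T1
theorem of_bas {G : Type*} [Group G] {l : Fin n → ℕ} {t : (Fin n → ℕ) → G} {V : Type u}
    [AddCommGroup V] [Module ℂ V] {π : G →* Module.End ℂ V} (h : Bas l t π) :
    ∃ (lam q : ℂ) (v : (Fin n → ℕ) → V), lam ≠ 0 ∧ q ≠ 0 ∧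
      Submodule.span ℂ (v '' {x | Ind l x}) = ⊤ ∧
      ∀ x y, Ind l x → Ind l y → π (t x) (v y) = lam • (v y + cf q x y • v x) := by
  obtain ⟨lam, hlam, hz⟩ := exists_lam h
  have hi : ∀ g : G, (lam⁻¹ • π g) * (lam • π g⁻¹) = 1 := by
    intro g
    rw [smul_mul_smul_comm, ← map_mul, mul_inv_cancel, map_one, inv_mul_cancel₀ hlam, one_smul]
  have hi' : ∀ g : G, (lam • π g⁻¹) * (lam⁻¹ • π g) = 1 := by
    intro g
    rw [smul_mul_smul_comm, ← map_mul, inv_mul_cancel, map_one, mul_inv_cancel₀ hlam, one_smul]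
  let T : (Fin n → ℕ) → (Module.End ℂ V)ˣ := fun x => ⟨lam⁻¹ • π (t x), lam • π (t x)⁻¹, hi _, hi' _⟩
  have hT : ∀ x, (T x : Module.End ℂ V) = lam⁻¹ • π (t x) := fun _ => rfl
  have hbr : ∀ x y, Ind l x → Ind l y → Adj x y → T x * T y * T x = T y * T x * T y := by
    intro x y hx hy ha
    ext1
    rw [Units.val_mul, Units.val_mul, Units.val_mul, Units.val_mul, hT, hT]
    simp only [smul_mul_smul_comm]
    rw [← map_mul, ← map_mul, ← map_mul, ← map_mul, h.lon.brd hx hy ha]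
  have hN : Nm l T := by
    refine ⟨h.two, h.six, ?_, hbr, ?_, ?_, h.dim, ?_⟩
    · intro x y hx hy ha
      ext1
      rw [Units.val_mul, Units.val_mul, hT, hT]
      simp only [smul_mul_smul_comm]
      rw [← map_mul, ← map_mul, h.lon.com hx hy ha]
    · intro x y z hx hy hz' hxy hyz hxz
      refine cyc_of_tri _ _ _ (hbr x y hx hy (Or.inl hxy)) ?_
      ext1
      simp only [Units.val_mul, hT, smul_mul_smul_comm]
      simp only [← map_mul]
      rw [h.lon.tri x y z hx hy hz' hxy hyz hxz]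
    · intro W hW
      refine stable_bot_top h W fun x hx w hw => ?_
      have h1 := hW x hx w hw
      rw [hT, LinearMap.smul_apply] at h1
      have h2 := W.smul_mem lam h1
      rwa [smul_smul, mul_inv_cancel₀ hlam, one_smul] at h2
    · intro x y hx hy hne ha
      have h1 := hz x y hx hy hne ha
      unfold NZ
      have e : ∀ z, (T z : Module.End ℂ V) - 1 = lam⁻¹ • nn π lam (t z) := by
        intro z
        rw [hT, nn, smul_sub, smul_smul, inv_mul_cancel₀ hlam, one_smul]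
      rw [e, e, smul_mul_smul_comm, h1, smul_zero]
  obtain ⟨q, v, hq, hs, hv⟩ := caseA hN
  refine ⟨lam, q, v, hlam, hq, hs, fun x y hx hy => ?_⟩
  obtain ⟨h1, h2, h3, h4⟩ := hv x y hx hy
  have hc : N T x (v y) = cf q x y • v x := by
    by_cases a1 : x = y
    · rw [h1 a1, a1, cf_self]
    by_cases a2 : Lt y x
    · rw [h2 a2, cf_gt _ a2]
    by_cases a3 : Lt x y
    · rw [h3 a3, cf_lt _ a3, neg_smul, one_smul]
    · rw [h4 a1 (fun ha => ha.elim a3 a2), cf_far _ a1 a3 a2, zero_smul]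
  rw [← hc, N, LinearMap.sub_apply, Module.End.one_apply, add_sub_cancel, hT, LinearMap.smul_apply,
    smul_smul, mul_inv_cancel₀ hlam, one_smul]
-- END T1

-- MODULE T2
theorem quadratic_range {G : Type*} [Group G] (hn : 2 ≤ n) {l : Fin n → ℕ} (hl : ∀ i, 6 ≤ l i)
    {t : (Fin n → ℕ) → G} (h : Lonne l t) {k m : ℕ} (hk : 12 ≤ k) (hm : 2 ≤ m)
    (hμ : 2 ^ (n - 1) * (m * k - 1) ≤ ∏ i, l i) {V : Type u} [AddCommGroup V] [Module ℂ V]
    [FiniteDimensional ℂ V] (π : G →* Module.End ℂ V) (hirr : Irr π)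
    (hV : 2 * Module.finrank ℂ V < m * (m - 1) * (k - 2) ^ 2) :
    Module.finrank ℂ V = 1 ∨ ∃ (lam q : ℂ) (v : (Fin n → ℕ) → V), lam ≠ 0 ∧ q ≠ 0 ∧
      Submodule.span ℂ (v '' {x | Ind l x}) = ⊤ ∧
      ∀ x y, Ind l x → Ind l y → π (t x) (v y) = lam • (v y + cf q x y • v x) := by
  obtain ⟨n', rfl⟩ : ∃ n', n = n' + 1 := ⟨n - 1, by omega⟩
  obtain ⟨M, p, hM6, hp, hprod, hp0⟩ := exists_path l hl
  rw [Nat.add_sub_cancel] at hμ
  have hmk : m * k - 1 ≤ M := Nat.le_of_mul_le_mul_left (hμ.trans hprod) (by positivity)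
  have hbr : IsBr M (fun i => t (p i)) := by
    refine ⟨fun i hi => ?_, fun i j hij hj => ?_⟩
    · exact h.brd (hp.ind i (by omega)) (hp.ind (i + 1) hi) (hp.adj i hi)
    · exact h.com (hp.ind i (by omega)) (hp.ind j hj) (hp.non i j hij hj)
  have hc : 2 * m.choose 2 = m * (m - 1) := by
    rw [Nat.choose_two_right]
    exact Nat.mul_div_cancel' (Nat.even_mul_pred_self m).two_dvd
  have hV' : Module.finrank ℂ V < m.choose 2 * (k - 2) ^ 2 := by
    rw [← hc, mul_assoc] at hV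
    omega
  have hS := st_of_blocks hbr π k m (k - 2) (by omega) hm (by omega) (low_k.{u} k hk) (by omega) hV'
  have h24 : 24 ≤ m * k := by nlinarith
  have hP : PP t π (p 0) (p 1) (p 3) (p 4) := hS 0 3 (by omega) (by omega)
  have hco : ∀ i, i < 5 → p i 0 = i := by
    intro i hi
    rw [hp0 i hi, Function.update_self]
  have hSE : SE (p 0) (p 1) (p 3) (p 4) := by
    refine ⟨0, Or.inl ?_⟩
    rw [hco 0 (by omega), hco 1 (by omega), hco 3 (by omega), hco 4 (by omega)]
    omega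
  haveI : Nontrivial V := hirr.1
  have hpos : 0 < Module.finrank ℂ V := Module.finrank_pos
  by_cases h1 : Module.finrank ℂ V = 1
  · exact Or.inl h1
  · right
    have hB : Bas l t π := by
      refine ⟨hn, hl, h, hirr, by omega, ?_⟩
      intro a b c d ha hb hc' hd hab hcd hs
      exact PP_all hn hl h (p 0) (p 1) (p 3) (p 4) (hp.ind 0 (by omega)) (hp.ind 1 (by omega))
        (hp.ind 3 (by omega)) (hp.ind 4 (by omega)) (hp.adj 0 (by omega)) (hp.adj 3 (by omega)) hSE hP
        a b c d ha hb hc' hd hab hcd hs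
    exact of_bas hB
-- END T2

end Pool.Agent.Lon
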